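import Pool.Agent.AMO.Stmts

/-!
# The upper bound of the approximant of the node `-α` (A1U)
-/

set_option autoImplicit false

namespace Pool.Agent.AMO

namespace A1UM

theorem fr_al {α β z w s g s' g' : ℝ} (h : Fr α β z w s g s' g') :
    200 ≤ α ∧ 0 ≤ α * z ∧ α * z ≤ 1 := by
  have h1 := h.b1
  have h2 := h.ba
  have h3 := h.z0
  have h4 := h.small
  have ha : (200 : ℝ) ≤ α := by linarith
  refine ⟨ha, by positivity, ?_⟩
  have h5 : α ^ 1 ≤ α ^ 4 := pow_le_pow_right₀ (by linarith) (by norm_num)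
  rw [pow_one] at h5
  have h6 := mul_le_mul_of_nonneg_right h5 h3.le
  linarith

/-- One term. -/
theorem term (hB : Stmt_BNB) (hE : Stmt_EEB) {α β z : ℝ} (hβ : 1 ≤ β) (ha : 200 ≤ α) (hz : 0 < z)
    (h1 : α * z ≤ 1) (n i : ℕ) (hi : i ≤ n) :
    |bn n i * z ^ i * (1 + -α * z) ^ (n - i) * ee n (-α) (-α - β) (n - i)| ≤
      (((n + 1).choose i : ℝ) * (α * z) ^ i) * (2 ^ (3 * n + 1) * (α ^ (3 * n + 2))⁻¹) := by
  have hα : (0 : ℝ) < α := by linarith
  have h2 := (hB n i).1 hi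
  have h3 := hE n (n - i) (-α) (-α - β) α hα (by rw [abs_neg, abs_of_pos hα]) (by
    rw [show -α - β = -(α + β) from by ring, abs_neg, abs_of_pos (by linarith)]
    linarith)
  have h4 : |bn n i| ≤ ((n + 1).choose i : ℝ) := by
    rw [abs_of_nonneg h2.1]
    exact h2.2
  have h5 : |(1 + -α * z) ^ (n - i)| ≤ 1 := by
    rw [abs_pow]
    refine pow_le_one₀ (abs_nonneg _) ?_
    rw [abs_le]
    have : 0 ≤ α * z := by positivity
    constructor <;> linarith
  have h6 : |z ^ i| = z ^ i := abs_of_nonneg (by positivity)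
  rw [abs_mul, abs_mul, abs_mul, h6]
  have h7 : |bn n i| * z ^ i * |(1 + -α * z) ^ (n - i)| ≤ ((n + 1).choose i : ℝ) * z ^ i * 1 :=
    mul_le_mul (mul_le_mul_of_nonneg_right h4 (by positivity)) h5 (abs_nonneg _) (by positivity)
  have h8 := mul_le_mul h7 h3 (abs_nonneg _) (by positivity)
  refine h8.trans ?_
  have e : (α ^ (2 * n + 2 + (n - i)))⁻¹ = α ^ i * (α ^ (3 * n + 2))⁻¹ := by
    rw [show 3 * n + 2 = i + (2 * n + 2 + (n - i)) from by omega,
      pow_add α i (2 * n + 2 + (n - i)), mul_inv, ← mul_assoc,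
      mul_inv_cancel₀ (by positivity), one_mul]
  have h9 : (2 : ℝ) ^ (2 * n + 1 + (n - i)) ≤ 2 ^ (3 * n + 1) :=
    pow_le_pow_right₀ (by norm_num) (by omega)
  rw [e, mul_pow]
  calc ((n + 1).choose i : ℝ) * z ^ i * 1 *
        (2 ^ (2 * n + 1 + (n - i)) * (α ^ i * (α ^ (3 * n + 2))⁻¹)) =
      (((n + 1).choose i : ℝ) * z ^ i * (α ^ i * (α ^ (3 * n + 2))⁻¹)) *
        2 ^ (2 * n + 1 + (n - i)) := by ring
    _ ≤ (((n + 1).choose i : ℝ) * z ^ i * (α ^ i * (α ^ (3 * n + 2))⁻¹)) * 2 ^ (3 * n + 1) :=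
        mul_le_mul_of_nonneg_left h9 (by positivity)
    _ = _ := by ring

/-- The sum of the binomial terms. -/
theorem sum_le {y : ℝ} (h0 : 0 ≤ y) (h1 : y ≤ 1) (n : ℕ) :
    ∑ i ∈ Finset.range (n + 1), ((n + 1).choose i : ℝ) * y ^ i ≤ 2 ^ (n + 1) := by
  have h2 : (y + 1) ^ (n + 1) = ∑ i ∈ Finset.range (n + 1 + 1), ((n + 1).choose i : ℝ) * y ^ i := by
    rw [add_pow]
    refine Finset.sum_congr rfl fun i _ => ?_
    rw [one_pow, mul_one, mul_comm]
  rw [Finset.sum_range_succ] at h2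
  have h3 : 0 ≤ ((n + 1).choose (n + 1) : ℝ) * y ^ (n + 1) := by positivity
  have h4 : (y + 1) ^ (n + 1) ≤ 2 ^ (n + 1) := pow_le_pow_left₀ (by linarith) (by linarith) _
  linarith

end A1UM

open A1UM in
theorem A1U_thm : Stmt_A1U := by
  intro hB hE n α β z w s g s' g' hF
  obtain ⟨ha, h0, h1⟩ := fr_al hF
  have hα : (0 : ℝ) < α := by linarith
  unfold AA
  refine (Finset.abs_sum_le_sum_abs _ _).trans ?_
  refine (Finset.sum_le_sum fun i hi => term hB hE hF.b1 ha hF.z0 h1 n i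
    (by have := Finset.mem_range.1 hi; omega)).trans ?_
  rw [← Finset.sum_mul]
  refine (mul_le_mul_of_nonneg_right (sum_le h0 h1 n) (by positivity)).trans ?_
  rw [← mul_assoc, ← pow_add]
  refine mul_le_mul_of_nonneg_right ?_ (by positivity)
  rw [show (16 : ℝ) = 2 ^ 4 from by norm_num, ← pow_mul]
  exact pow_le_pow_right₀ (by norm_num) (by omega)

end Pool.Agent.AMO
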