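import Pool.Agent.AMO.Stmts

/-!
# A2B: two sided bound of the approximant of the node `β`
-/

set_option autoImplicit false

namespace Pool.Agent.AMO

namespace A2BM

/-- `(1 + y)^N ≤ 8/7` for `0 ≤ y`, `8 N y ≤ 1`. -/
theorem pow_le (N : ℕ) (y : ℝ) (hy : 0 ≤ y) (h : 8 * ((N : ℝ) * y) ≤ 1) :
    (1 + y) ^ N ≤ 8 / 7 := by
  have h1 : (1 + y) ^ N ≤ Real.exp (1 / 8) := by
    calc (1 + y) ^ N ≤ (Real.exp y) ^ N := by
          apply pow_le_pow_left₀ (by linarith)
          have := Real.add_one_le_exp y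
          linarith
      _ = Real.exp (N * y) := by rw [← Real.exp_nat_mul]
      _ ≤ Real.exp (1 / 8) := Real.exp_le_exp.mpr (by linarith)
  have h2 : (7 : ℝ) / 8 ≤ Real.exp (-(1 / 8)) := by
    have := Real.add_one_le_exp (-(1 / 8 : ℝ))
    linarith
  have h3 : Real.exp (1 / 8) * Real.exp (-(1 / 8)) = 1 := by
    rw [← Real.exp_add]
    simp
  have h4 : 0 < Real.exp (1 / 8) := Real.exp_pos _
  nlinarith

/-- `f (n - i) ≤ β^i f n` from `f m ≤ β f (m + 1)`. -/
theorem down (f : ℕ → ℝ) (β : ℝ) (hβ : 0 ≤ β) (hf : ∀ m, f m ≤ β * f (m + 1)) (n : ℕ) :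
    ∀ i : ℕ, i ≤ n → f (n - i) ≤ β ^ i * f n := by
  intro i
  induction i with
  | zero => intro _; simp
  | succ i ih =>
    intro hi
    have h1 := ih (by omega)
    have h2 := hf (n - (i + 1))
    have h3 : n - (i + 1) + 1 = n - i := by omega
    rw [h3] at h2
    calc f (n - (i + 1)) ≤ β * f (n - i) := h2
      _ ≤ β * (β ^ i * f n) := mul_le_mul_of_nonneg_left h1 hβ
      _ = β ^ (i + 1) * f n := by ring

theorem bn_zero (n : ℕ) : bn n 0 = 1 := by
  simp [bn]

/-- The tail of the binomial expansion. -/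
theorem tail (n : ℕ) (y : ℝ) (hy : 0 ≤ y) :
    ∑ i ∈ Finset.range n, ((n + 1).choose (i + 1) : ℝ) * y ^ (i + 1) ≤ (1 + y) ^ (n + 1) - 1 := by
  have h1 : (1 + y) ^ (n + 1) =
      ∑ i ∈ Finset.range (n + 2), ((n + 1).choose i : ℝ) * y ^ i := by
    rw [add_comm 1 y, add_pow]
    apply Finset.sum_congr rfl
    intro i _
    simp
    ring
  rw [h1, Finset.sum_range_succ', Finset.sum_range_succ]
  have h2 : 0 ≤ ((n + 1).choose (n + 1) : ℝ) * y ^ (n + 1) := by positivity
  simp only [Nat.choose_zero_right, Nat.cast_one, pow_zero, mul_one]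
  linarith

end A2BM

open A2BM in
theorem A2B_thm : Stmt_A2B := by
  intro hBNB hEEB hEEP n α β z w s g s' g' hF hn
  have hβ1 : 1 ≤ β := hF.b1
  have hβ : 0 < β := by linarith
  have hα : 0 < α := by linarith [hF.ba]
  have hz : 0 < z := hF.z0
  set y : ℝ := β * z with hy
  have hy0 : 0 < y := mul_pos hβ hz
  set f : ℕ → ℝ := fun m => (-1) ^ m * ee n β (β + α) m with hf
  have hf0 : ∀ m, 0 < f m := fun m => (hEEP n m α β hβ hα).1
  have hf1 : ∀ m, f m ≤ β * f (m + 1) := fun m => (hEEP n m α β hβ hα).2.1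
  have hf2 : (β ^ (2 * n + 1))⁻¹ * ((α + β) ^ (n + 1))⁻¹ ≤ f n := (hEEP n n α β hβ hα).2.2
  have habs : ∀ m, |ee n β (β + α) m| = f m := by
    intro m
    rw [← abs_of_pos (hf0 m), hf]
    simp [abs_mul]
  have hP : (1 + y) ^ (n + 1) ≤ 8 / 7 := by
    apply pow_le _ _ hy0.le
    push_cast
    linarith
  have hP1 : 1 ≤ (1 + y) ^ n := one_le_pow₀ (by linarith)
  have hP2 : (1 + y) ^ n ≤ 8 / 7 := by
    refine le_trans ?_ hP
    exact pow_le_pow_right₀ (by linarith) (Nat.le_succ n)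
  -- the splitting
  have hsplit : AA n β β (β + α) z = (1 + y) ^ n * ee n β (β + α) n +
      ∑ i ∈ Finset.range n, bn n (i + 1) * z ^ (i + 1) * (1 + y) ^ (n - (i + 1)) *
        ee n β (β + α) (n - (i + 1)) := by
    unfold AA
    rw [Finset.sum_range_succ', bn_zero]
    simp only [pow_zero, one_mul, mul_one, Nat.sub_zero]
    rw [add_comm]
  have hR : |∑ i ∈ Finset.range n, bn n (i + 1) * z ^ (i + 1) * (1 + y) ^ (n - (i + 1)) *
        ee n β (β + α) (n - (i + 1))| ≤ (1 + y) ^ n * f n * ((1 + y) ^ (n + 1) - 1) := by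
    calc |∑ i ∈ Finset.range n, bn n (i + 1) * z ^ (i + 1) * (1 + y) ^ (n - (i + 1)) *
        ee n β (β + α) (n - (i + 1))| ≤
        ∑ i ∈ Finset.range n, |bn n (i + 1) * z ^ (i + 1) * (1 + y) ^ (n - (i + 1)) *
        ee n β (β + α) (n - (i + 1))| := Finset.abs_sum_le_sum_abs _ _
      _ ≤ ∑ i ∈ Finset.range n, (1 + y) ^ n * f n *
          (((n + 1).choose (i + 1) : ℝ) * y ^ (i + 1)) := by
          apply Finset.sum_le_sum
          intro i hi
          have hi' : i + 1 ≤ n := Finset.mem_range.mp hi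
          obtain ⟨hb0, hb1⟩ := (hBNB n (i + 1)).1 hi'
          have hd := down f β hβ.le hf1 n (i + 1) hi'
          rw [abs_mul, abs_mul, abs_mul, habs, abs_of_nonneg hb0,
            abs_of_nonneg (pow_nonneg hz.le _), abs_of_nonneg (pow_nonneg (by linarith) _)]
          have hp : (1 + y) ^ (n - (i + 1)) ≤ (1 + y) ^ n :=
            pow_le_pow_right₀ (by linarith) (Nat.sub_le _ _)
          calc bn n (i + 1) * z ^ (i + 1) * (1 + y) ^ (n - (i + 1)) * f (n - (i + 1)) ≤
              ((n + 1).choose (i + 1) : ℝ) * z ^ (i + 1) * (1 + y) ^ n * (β ^ (i + 1) * f n) := by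
                have := (hf0 (n - (i + 1))).le
                have h1y : (0 : ℝ) ≤ 1 + y := by linarith
                gcongr
            _ = (1 + y) ^ n * f n * (((n + 1).choose (i + 1) : ℝ) * y ^ (i + 1)) := by
                rw [hy, mul_pow]
                ring
      _ = (1 + y) ^ n * f n *
          ∑ i ∈ Finset.range n, ((n + 1).choose (i + 1) : ℝ) * y ^ (i + 1) := by
          rw [Finset.mul_sum]
      _ ≤ (1 + y) ^ n * f n * ((1 + y) ^ (n + 1) - 1) := by
          apply mul_le_mul_of_nonneg_left (tail n y hy0.le)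
          exact mul_nonneg (by positivity) (hf0 n).le
  have hT : |(1 + y) ^ n * ee n β (β + α) n| = (1 + y) ^ n * f n := by
    rw [abs_mul, habs, abs_of_nonneg (by linarith)]
  have hfn := hf0 n
  set A : ℝ := (1 + y) ^ n * ee n β (β + α) n with hA
  set R : ℝ := ∑ i ∈ Finset.range n, bn n (i + 1) * z ^ (i + 1) * (1 + y) ^ (n - (i + 1)) *
        ee n β (β + α) (n - (i + 1)) with hRdef
  have hR' : |R| ≤ (1 + y) ^ n * f n * (1 / 7) := by
    refine hR.trans ?_
    apply mul_le_mul_of_nonneg_left (by linarith)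
    exact mul_nonneg (by linarith) hfn.le
  have hlow : (1 + y) ^ n * f n - (1 + y) ^ n * f n * (1 / 7) ≤ |A + R| := by
    have h1 : |A| ≤ |A + R| + |R| := by
      calc |A| = |(A + R) - R| := by ring_nf
        _ ≤ |A + R| + |R| := abs_sub _ _
    linarith
  have hupp : |A + R| ≤ (1 + y) ^ n * f n + (1 + y) ^ n * f n * (1 / 7) := by
    have h1 : |A + R| ≤ |A| + |R| := abs_add_le _ _
    linarith
  rw [hsplit]
  constructor
  · have h1 : f n ≤ (1 + y) ^ n * f n := le_mul_of_one_le_left hfn.le hP1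
    linarith
  · have h1 : (1 + y) ^ n * f n ≤ 8 / 7 * f n := mul_le_mul_of_nonneg_right hP2 hfn.le
    have h2 := hEEB n n β (β + α) 1 one_pos (by rw [abs_of_pos hβ]; exact hβ1)
      (by rw [abs_of_pos (by linarith)]; linarith)
    rw [habs, one_pow, inv_one, mul_one] at h2
    have h3 : (8 : ℝ) ^ (n + 1) = 4 * 2 ^ (2 * n + 1 + n) := by
      have : (8 : ℝ) = 2 ^ 3 := by norm_num
      rw [this, ← pow_mul]
      have : 3 * (n + 1) = 2 * n + 1 + n + 2 := by ring
      rw [this, pow_add]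
      ring
    rw [h3]
    linarith

end Pool.Agent.AMO
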