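import Pool.Agent.AMO.Stmts

set_option autoImplicit false

namespace Pool.Agent.AMO

namespace ALGM

theorem key (n b D Y V U Y' V' U' X X' T P Q R m : ℤ) (hn : n ≠ 0) (hb : b ≠ 0)
    (hD : D ≠ 0) (hK : n * D + b ≠ 0) (hV : Y ^ 2 - 2 * V ^ 2 = n) (hU : U ^ 2 - D * Y ^ 2 = b)
    (hV' : Y' ^ 2 - 2 * V' ^ 2 = n) (hU' : U' ^ 2 - D * Y' ^ 2 = b)
    (hm : m = (n * D + b) * (Y * Y') - 2 * b * (V * V') - n * (U * U'))
    (hj : (n * D + b) * (4 * (D * Y ^ 2) + b - n * D) * (Y * Y') -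
      2 * b * (4 * (D * Y ^ 2) + b - 2 * (n * D)) * (V * V') -
      n * (4 * (D * Y ^ 2) + 2 * b - n * D) * (U * U') = 0)
    (hX : X = D * Y ^ 2) (hX' : X' = D * Y' ^ 2)
    (hT : T = X' + 5 * X - 2 * (n * D - b)) (hP : P = 4 * X - 2 * (n * D) + b)
    (hQ : Q = 4 * X - n * D + 2 * b) (hR : R = 4 * X - n * D + b) :
    (n * b * (n * D + b)) ^ 2 * T = m ^ 2 * (P * Q * R) ∧
      4 * X * X' * (P * Q * R) * T = (Q * R * (T - P) - b * P * T) ^ 2 := by
  have e1 : n * (n * D + b) * (U * U') = n * (n * D + b) * (D * (Y * Y')) + P * m := by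
    rw [hm, hP, hX]
    linear_combination (-1) * hj
  have e2 : b * (n * D + b) * (2 * D * (V * V')) =
      b * (n * D + b) * (D * (Y * Y')) - Q * D * m := by
    rw [hm, hQ, hX]
    linear_combination D * hj
  have hA : (D * (Y * Y')) ^ 2 = X * X' := by
    rw [hX, hX']
    ring
  have hC : (U * U') ^ 2 = (X + b) * (X' + b) := by
    have h1 : U ^ 2 = X + b := by rw [hX]; linarith
    have h2 : U' ^ 2 = X' + b := by rw [hX']; linarith
    rw [mul_pow, h1, h2]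
  have hB : (2 * D * (V * V')) ^ 2 = (X - n * D) * (X' - n * D) := by
    have h1 : 2 * V ^ 2 * D = X - n * D := by rw [hX, ← hV]; ring
    have h2 : 2 * V' ^ 2 * D = X' - n * D := by rw [hX', ← hV']; ring
    rw [← h1, ← h2]
    ring
  have e3 : n ^ 2 * (n * D + b) ^ 2 * (b * (X + X' + b)) =
      2 * n * (n * D + b) * (D * (Y * Y')) * P * m + P ^ 2 * m ^ 2 := by
    have h1 : (n * (n * D + b)) ^ 2 * (U * U') ^ 2 =
        (n * (n * D + b) * (D * (Y * Y')) + P * m) ^ 2 := by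
      rw [← e1]
      ring
    rw [hC] at h1
    linear_combination h1 + (n * (n * D + b)) ^ 2 * hA
  have e4 : b ^ 2 * (n * D + b) ^ 2 * (n * D * (X + X' - n * D)) =
      2 * b * (n * D + b) * (D * (Y * Y')) * Q * D * m - Q ^ 2 * D ^ 2 * m ^ 2 := by
    have h1 : (b * (n * D + b)) ^ 2 * (2 * D * (V * V')) ^ 2 =
        (b * (n * D + b) * (D * (Y * Y')) - Q * D * m) ^ 2 := by
      rw [← e2]
      ring
    rw [hB] at h1
    linear_combination (-1) * h1 - (b * (n * D + b)) ^ 2 * hA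
  have hTP : X + X' + b = T - P := by
    rw [hT, hP]
    ring
  have e5 : b * P + n * D * Q = (n * D + b) * R := by
    rw [hP, hQ, hR]
    ring
  have e6 : Q * (X + X' + b) - P * (X + X' - n * D) = (n * D + b) * T := by
    rw [hP, hQ, hT]
    ring
  have c1 : (n * b * (n * D + b)) ^ 2 * T = m ^ 2 * (P * Q * R) := by
    have h1 : D * (n * D + b) * ((n * b * (n * D + b)) ^ 2 * T) =
        D * (n * D + b) * (m ^ 2 * (P * Q * R)) := by
      linear_combination b * Q * D * e3 - n * P * e4 + P * Q * D * m ^ 2 * e5 -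
        n ^ 2 * b ^ 2 * (n * D + b) ^ 2 * D * e6
    exact mul_left_cancel₀ (mul_ne_zero hD hK) h1
  refine ⟨c1, ?_⟩
  rw [hTP] at e3
  have h1 : 4 * (n * (n * D + b)) ^ 2 * (X * X') * P ^ 2 * m ^ 2 =
      (n ^ 2 * (n * D + b) ^ 2 * (b * (T - P)) - P ^ 2 * m ^ 2) ^ 2 := by
    rw [e3, ← hA]
    ring
  have h2 : (n ^ 4 * (n * D + b) ^ 4 * b ^ 2) * (4 * X * X' * (P * Q * R) * T) =
      (n ^ 4 * (n * D + b) ^ 4 * b ^ 2) * (Q * R * (T - P) - b * P * T) ^ 2 := by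
    have h3 : (n ^ 2 * (n * D + b) ^ 2 * b * (Q * R * (T - P) - b * P * T)) =
        Q * R * (n ^ 2 * (n * D + b) ^ 2 * (b * (T - P)) - P ^ 2 * m ^ 2) := by
      linear_combination (-P) * c1
    have h4 : (n ^ 4 * (n * D + b) ^ 4 * b ^ 2) * (Q * R * (T - P) - b * P * T) ^ 2 =
        (Q * R * (n ^ 2 * (n * D + b) ^ 2 * (b * (T - P)) - P ^ 2 * m ^ 2)) ^ 2 := by
      rw [← h3]
      ring
    rw [h4, mul_pow (Q * R), ← h1]
    linear_combination 4 * (n * (n * D + b)) ^ 2 * (X * X') * (P * Q * R) * c1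
  exact mul_left_cancel₀ (by positivity) h2

end ALGM

theorem ALG_thm : Stmt_ALG := by
  intro k Y V U Y' V' U' X X' T P Q R hk h h' hj hX hX' hT hP hQ hR
  obtain ⟨⟨hn, -⟩, ⟨hN, -⟩, ⟨hD, -⟩, ⟨hb, -⟩, -, -⟩ := siz k hk
  obtain ⟨-, -, -, hV, hU⟩ := h
  obtain ⟨-, -, -, hV', hU'⟩ := h'
  have h1 := ALGM.key (nn k) (be k) (DD k) Y V U Y' V' U' X X' T P Q R
    (mm k Y V U Y' V' U') (by linarith) (by linarith) (by linarith)
    (by nlinarith) hV hU hV' hU' rfl hj hX hX' hT hP hQ hR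
  have h2 : (2 * nn k * NN k * (al k + be k)) = nn k * be k * (nn k * DD k + be k) := by
    unfold al be
    ring
  rw [h2]
  exact h1

end Pool.Agent.AMO
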