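import Pool.Agent.AMO.Stmts

/-!
# At most one irregular extension: the quadratic relation, real analysis
-/

set_option autoImplicit false

namespace Pool.Agent.AMO

namespace ANAM

theorem scaled (a b t : ℝ) (hb : 0 < b) (hba : b ≤ a) (ha : 1000 * a ≤ 1) (hat : 1 ≤ a * t)
    (h : 4 * (t - 5 + 2 * (a - b)) * ((4 - 2 * a + b) * (4 - a + 2 * b) * (4 - a + b)) * t =
      ((4 - a + 2 * b) * (4 - a + b) * (t - (4 - 2 * a + b)) - b * (4 - 2 * a + b) * t) ^ 2) :
    |4 * (a ^ 2 + a * b + b ^ 2) * t -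
      3 * ((4 - 2 * a + b) * (4 - a + 2 * b) * (4 - a + b))| ≤ 10000 * a := by
  have ha0 : 0 < a := lt_of_lt_of_le hb hba
  have ht0 : 0 < t := by
    by_contra hc
    push Not at hc
    have := mul_nonneg ha0.le (by linarith : 0 ≤ -t)
    linarith [(by ring : a * -t = -(a * t))]
  obtain ⟨p, hp⟩ : ∃ p, p = (4 - 2 * a + b) * (4 - a + 2 * b) * (4 - a + b) := ⟨_, rfl⟩
  obtain ⟨u, hu⟩ : ∃ u, u = 12 - 8 * (a - b) + 2 * (a ^ 2 - a * b + b ^ 2) := ⟨_, rfl⟩
  obtain ⟨q, hq⟩ : ∃ q, q = a ^ 2 + a * b + b ^ 2 := ⟨_, rfl⟩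
  obtain ⟨c, hc⟩ : ∃ c, c = 16 * (a ^ 2 + a * b + b ^ 2) -
    4 * (a - b) * (2 * a ^ 2 + a * b + 2 * b ^ 2) + (a ^ 2 - a * b + b ^ 2) ^ 2 := ⟨_, rfl⟩
  have hrel : t ^ 2 * c = p * (t * u - p) := by
    rw [hp, hu, hc]
    linear_combination (-1 : ℝ) * h
  have hab : a * b ≤ a ^ 2 := by
    have := mul_le_mul_of_nonneg_left hba ha0.le
    linarith [sq a]
  have hbb : b ^ 2 ≤ a ^ 2 := pow_le_pow_left₀ hb.le hba 2
  have hab0 : 0 < a * b := mul_pos ha0 hb
  have ha2 : a ^ 2 ≤ a / 1000 := by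
    have := mul_nonneg ha0.le (by linarith : 0 ≤ 1 - 1000 * a)
    linarith [sq a, (by ring : a * (1 - 1000 * a) = a - 1000 * a ^ 2)]
  have ha3 : a ^ 3 ≤ a ^ 2 / 1000 := by
    have := mul_nonneg (sq_nonneg a) (by linarith : 0 ≤ 1 - 1000 * a)
    linarith [(by ring : a ^ 2 * (1 - 1000 * a) = a ^ 2 - 1000 * a ^ 3)]
  have ha4 : (a ^ 2) ^ 2 ≤ a ^ 3 := by
    have := mul_nonneg (pow_pos ha0 3).le (by linarith : 0 ≤ 1 - 1000 * a)
    linarith [(by ring : a ^ 3 * (1 - 1000 * a) = a ^ 3 - 1000 * (a ^ 2) ^ 2), pow_pos ha0 3]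
  -- the product
  have hp1 : |p - 64| ≤ 100 * a := by
    have e1 : 0 ≤ 4 - a + 2 * b := by linarith
    have e2 : 0 ≤ 4 - a + b := by linarith
    have e3 : 0 ≤ 4 - 2 * a + b := by linarith
    have f1 : (4 - 2 * a + b) * (4 - a + 2 * b) ≤ 4 * (4 + a) := by
      apply mul_le_mul (by linarith) (by linarith) e1 (by norm_num)
    have f2 : (4 - 2 * a) * (4 - a) ≤ (4 - 2 * a + b) * (4 - a + 2 * b) := by
      apply mul_le_mul (by linarith) (by linarith) (by linarith) e3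
    have f3 : p ≤ 4 * (4 + a) * 4 := by
      rw [hp]
      apply mul_le_mul f1 (by linarith) e2 (by linarith)
    have f4 : (4 - 2 * a) * (4 - a) * (4 - a) ≤ p := by
      rw [hp]
      apply mul_le_mul f2 (by linarith) (by linarith) (mul_nonneg e3 e1)
    rw [abs_le]
    constructor
    · have e4 : (4 - 2 * a) * (4 - a) * (4 - a) = 64 - 64 * a + 20 * a ^ 2 - 2 * a ^ 3 := by ring
      linarith [sq_nonneg a]
    · linarith
  have hu1 : |u - 12| ≤ 9 * a := by
    rw [hu, abs_le]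
    constructor
    · linarith [sq_nonneg b]
    · linarith
  have hc1 : |c - 16 * q| ≤ 21 * a ^ 3 := by
    have e1 : 0 ≤ a - b := by linarith
    have e2 : a - b ≤ a := by linarith
    have e3 : 0 ≤ 2 * a ^ 2 + a * b + 2 * b ^ 2 := by positivity
    have e4 : 2 * a ^ 2 + a * b + 2 * b ^ 2 ≤ 5 * a ^ 2 := by linarith
    have e5 : (a - b) * (2 * a ^ 2 + a * b + 2 * b ^ 2) ≤ a * (5 * a ^ 2) :=
      mul_le_mul e2 e4 e3 ha0.le
    have e6 : 0 ≤ (a - b) * (2 * a ^ 2 + a * b + 2 * b ^ 2) := mul_nonneg e1 e3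
    have e7 : 0 ≤ a ^ 2 - a * b + b ^ 2 := by linarith [sq_nonneg b]
    have e8 : a ^ 2 - a * b + b ^ 2 ≤ a ^ 2 := by
      have := mul_le_mul_of_nonneg_left hba hb.le
      linarith [(by ring : b * b = b ^ 2), (by ring : b * a = a * b)]
    have e9 : (a ^ 2 - a * b + b ^ 2) ^ 2 ≤ (a ^ 2) ^ 2 := by
      apply pow_le_pow_left₀ e7 e8
    have e10 : (a ^ 2) ^ 2 ≤ a ^ 3 := ha4
    have e11 : 0 ≤ (a ^ 2 - a * b + b ^ 2) ^ 2 := sq_nonneg _
    have e12 : 0 < a ^ 3 := pow_pos ha0 3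
    have e13 : c - 16 * q = -4 * ((a - b) * (2 * a ^ 2 + a * b + 2 * b ^ 2)) +
      (a ^ 2 - a * b + b ^ 2) ^ 2 := by
      rw [hc, hq]
      ring
    have e14 : a * (5 * a ^ 2) = 5 * a ^ 3 := by ring
    rw [e13, abs_le]
    constructor <;> linarith
  have hq1 : a ^ 2 ≤ q := by
    rw [hq]
    linarith [sq_nonneg b]
  have hc2 : 15 * a ^ 2 ≤ c := by
    have e1 := (abs_le.1 hc1).1
    have e3 := pow_pos ha0 2
    linarith
  -- division by `t`
  obtain ⟨s, hs⟩ : ∃ s, s = 1 / t := ⟨_, rfl⟩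
  have hs0 : 0 < s := by rw [hs]; positivity
  have hst : s * t = 1 := by
    rw [hs]
    field_simp
  have hsa : s ≤ a := by
    have e1 : s * 1 ≤ s * (a * t) := mul_le_mul_of_nonneg_left hat hs0.le
    have e2 : s * (a * t) = a := by
      calc s * (a * t) = a * (s * t) := by ring
        _ = a := by rw [hst, mul_one]
    linarith
  have htc : t * c = p * u - p ^ 2 * s := by
    have e1 : s * (t ^ 2 * c) = s * (p * (t * u - p)) := by rw [hrel]
    have e2 : s * (t ^ 2 * c) = t * c := by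
      calc s * (t ^ 2 * c) = (s * t) * (t * c) := by ring
        _ = t * c := by rw [hst, one_mul]
    have e3 : s * (p * (t * u - p)) = p * u - p ^ 2 * s := by
      calc s * (p * (t * u - p)) = (s * t) * (p * u) - p ^ 2 * s := by ring
        _ = p * u - p ^ 2 * s := by rw [hst, one_mul]
    rw [← e2, e1, e3]
  have hpl := (abs_le.1 hp1).1
  have hpu := (abs_le.1 hp1).2
  have hul := (abs_le.1 hu1).1
  have huu := (abs_le.1 hu1).2
  have hp65 : p ≤ 65 := by linarith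
  have hp0 : 0 ≤ p := by linarith
  have hp2 : p ^ 2 * s ≤ 4225 * a := by
    have e1 : p ^ 2 ≤ 4225 := by
      have := pow_le_pow_left₀ hp0 hp65 2
      linarith [(by norm_num : (65 : ℝ) ^ 2 = 4225)]
    have e2 : p ^ 2 * s ≤ 4225 * s := mul_le_mul_of_nonneg_right e1 hs0.le
    linarith
  have hp3 : 0 ≤ p ^ 2 * s := by positivity
  have hpu1 : |p * u - 768| ≤ 1876 * a := by
    have e1 : p * u - 768 = (p - 64) * u + 64 * (u - 12) := by ring
    have e2 : |u| ≤ 13 := by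
      rw [abs_le]
      constructor <;> linarith
    have e3 : |(p - 64) * u| ≤ (100 * a) * 13 := by
      rw [abs_mul]
      exact mul_le_mul hp1 e2 (abs_nonneg _) (by positivity)
    have e4 : |64 * (u - 12)| ≤ 64 * (9 * a) := by
      rw [abs_mul, abs_of_pos (by norm_num : (0 : ℝ) < 64)]
      exact mul_le_mul_of_nonneg_left hu1 (by norm_num)
    rw [e1]
    refine le_trans (abs_add_le _ _) ?_
    linarith
  have htc1 : |t * c - 768| ≤ 6101 * a := by
    have e1 := abs_le.1 hpu1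
    rw [htc, abs_le]
    constructor <;> linarith [e1.1, e1.2]
  have ha2t : a ^ 2 * t ≤ 52 := by
    have e1 : t * (15 * a ^ 2) ≤ t * c := mul_le_mul_of_nonneg_left hc2 ht0.le
    have e2 := (abs_le.1 htc1).2
    linarith
  have hcq : |t * c - 16 * (q * t)| ≤ 1092 * a := by
    have e1 : t * c - 16 * (q * t) = t * (c - 16 * q) := by ring
    rw [e1, abs_mul, abs_of_pos ht0]
    have e2 : t * |c - 16 * q| ≤ t * (21 * a ^ 3) := mul_le_mul_of_nonneg_left hc1 ht0.le
    have e3 : t * (21 * a ^ 3) = 21 * a * (a ^ 2 * t) := by ring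
    have e4 : 21 * a * (a ^ 2 * t) ≤ 21 * a * 52 := mul_le_mul_of_nonneg_left ha2t (by positivity)
    linarith
  have g1 := abs_le.1 htc1
  have g2 := abs_le.1 hcq
  have g3 := abs_le.1 hp1
  rw [← hp, ← hq, abs_le]
  constructor <;> linarith [g1.1, g1.2, g2.1, g2.2, g3.1, g3.2]

end ANAM

theorem ANA_thm : Stmt_ANA := by
  intro α β X T P Q R hβ hβα hαX hXT hP hQ hR hrel
  have hX : 0 < X := by linarith
  have hXne : X ≠ 0 := hX.ne'
  obtain ⟨a, ha⟩ : ∃ a, a = α / X := ⟨_, rfl⟩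
  obtain ⟨b, hb⟩ : ∃ b, b = β / X := ⟨_, rfl⟩
  obtain ⟨t, ht⟩ : ∃ t, t = T / X := ⟨_, rfl⟩
  have hα : α = a * X := by rw [ha]; field_simp
  have hβ' : β = b * X := by rw [hb]; field_simp
  have hT : T = t * X := by rw [ht]; field_simp
  have hb0 : 0 < b := by rw [hb]; positivity
  have hba : b ≤ a := by
    rw [ha, hb]
    exact div_le_div_of_nonneg_right hβα hX.le
  have ha1 : 1000 * a ≤ 1 := by
    rw [hα] at hαX
    by_contra hc
    push Not at hc
    have := mul_lt_mul_of_pos_right hc hX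
    linarith
  have htX : X ≤ t := by
    rw [hT] at hXT
    by_contra hc
    push Not at hc
    have := mul_lt_mul_of_pos_right hc hX
    linarith [sq X]
  have hat : 1 ≤ a * t := by
    have e1 : 1 ≤ a * X := by rw [← hα]; linarith
    have e2 : a * X ≤ a * t := mul_le_mul_of_nonneg_left htX (by linarith)
    linarith
  have key := ANAM.scaled a b t hb0 hba ha1 hat ?_
  · rw [hP, hQ, hR, hα, hβ', hT]
    have e1 : 4 * ((a * X) ^ 2 + a * X * (b * X) + (b * X) ^ 2) * (t * X) -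
        3 * ((4 * X - 2 * (a * X) + b * X) * (4 * X - a * X + 2 * (b * X)) *
          (4 * X - a * X + b * X)) =
        X ^ 3 * (4 * (a ^ 2 + a * b + b ^ 2) * t -
          3 * ((4 - 2 * a + b) * (4 - a + 2 * b) * (4 - a + b))) := by ring
    rw [e1, abs_mul, abs_of_pos (pow_pos hX 3)]
    have e2 := mul_le_mul_of_nonneg_left key (pow_pos hX 3).le
    have e3 : X ^ 3 * (10000 * a) = 10000 * (a * X) * X ^ 2 := by ring
    linarith
  · rw [hP, hQ, hR, hα, hβ', hT] at hrel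
    have e1 : X ^ 6 ≠ 0 := pow_ne_zero 6 hXne
    apply mul_left_cancel₀ e1
    linear_combination hrel

end Pool.Agent.AMO
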