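import Pool.Agent.AMO.Stmts

set_option autoImplicit false

namespace Pool.Agent.AMO

namespace BNBM

theorem bn_zero (n : ℕ) : bn n 0 = 1 := by
  simp [bn]

theorem bn_succ (n h : ℕ) : bn n (h + 1) = bn n h * (((n : ℝ) + 1 / 2 - h) / ((h : ℝ) + 1)) := by
  unfold bn
  rw [Finset.prod_range_succ, Nat.factorial_succ]
  have h1 : ((h : ℝ) + 1) ≠ 0 := by positivity
  have h2 : (h.factorial : ℝ) ≠ 0 := by exact_mod_cast Nat.factorial_ne_zero h
  push_cast
  field_simp

theorem low (n : ℕ) : ∀ h : ℕ, h ≤ n + 1 → 0 ≤ bn n h ∧ bn n h ≤ ((n + 1).choose h : ℝ) := by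
  intro h
  induction h with
  | zero =>
    intro _
    rw [bn_zero]
    simp
  | succ h ih =>
    intro hh
    obtain ⟨i0, i1⟩ := ih (by omega)
    have hn : (h : ℝ) ≤ n := by exact_mod_cast (by omega : h ≤ n)
    have h1 : (0 : ℝ) < (h : ℝ) + 1 := by positivity
    rw [bn_succ]
    have e : (((n + 1).choose (h + 1) : ℕ) : ℝ) * ((h : ℝ) + 1) =
        ((n + 1).choose h : ℝ) * ((n : ℝ) + 1 - h) := by
      have := Nat.choose_succ_right_eq (n + 1) h
      have h3 : ((n + 1 - h : ℕ) : ℝ) = (n : ℝ) + 1 - h := by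
        rw [Nat.cast_sub (by omega)]
        push_cast
        ring
      rw [← h3]
      exact_mod_cast this
    constructor
    · exact mul_nonneg i0 (div_nonneg (by linarith) h1.le)
    · rw [mul_div_assoc', div_le_iff₀ h1, e]
      exact mul_le_mul i1 (by linarith) (by linarith) (by positivity)

theorem high (n : ℕ) : ∀ h : ℕ, |bn n (n + 1 + h)| ≤ 1 := by
  intro h
  induction h with
  | zero =>
    obtain ⟨h0, h1⟩ := low n (n + 1) le_rfl
    rw [Nat.choose_self] at h1
    rw [add_zero, abs_of_nonneg h0]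
    exact_mod_cast h1
  | succ h ih =>
    rw [← add_assoc, bn_succ, abs_mul]
    have h2 : |((n : ℝ) + 1 / 2 - ((n + 1 + h : ℕ) : ℝ)) / (((n + 1 + h : ℕ) : ℝ) + 1)| ≤ 1 := by
      have h3 : (0 : ℝ) < ((n + 1 + h : ℕ) : ℝ) + 1 := by positivity
      rw [abs_div, abs_of_pos h3, div_le_one h3, abs_le]
      have hn : (0 : ℝ) ≤ n := by positivity
      have hh : (0 : ℝ) ≤ h := by positivity
      push_cast
      constructor <;> linarith
    calc |bn n (n + 1 + h)| * _ ≤ 1 * 1 := mul_le_mul ih h2 (abs_nonneg _) zero_le_one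
      _ = 1 := one_mul 1

end BNBM

open BNBM in
theorem BNB_thm : Stmt_BNB := by
  intro n h
  refine ⟨fun hh => low n h (by omega), ?_⟩
  rcases le_total h (n + 1) with hh | hh
  · obtain ⟨h0, h1⟩ := low n h hh
    rw [abs_of_nonneg h0]
    refine h1.trans ?_
    exact_mod_cast Nat.choose_le_two_pow (n + 1) h
  · obtain ⟨d, rfl⟩ := Nat.exists_eq_add_of_le hh
    exact (high n d).trans (one_le_pow₀ (by norm_num))

end Pool.Agent.AMO
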