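import Pool.Agent.AMO.Stmts

/-!
# BNI: the product identity of the generalized binomial coefficients
-/

set_option autoImplicit false

namespace Pool.Agent.AMO

theorem BNI_thm : Stmt_BNI := by
  intro n h i hin hih
  obtain ⟨r, rfl⟩ : ∃ r, h = i + r := ⟨h - i, by omega⟩
  have h1 : ((i + r).factorial : ℝ) = ((i + r).choose i : ℝ) * (i.factorial : ℝ) *
      (r.factorial : ℝ) := by
    have h := Nat.choose_mul_factorial_mul_factorial (show i ≤ i + r by omega)
    rw [Nat.add_sub_cancel_left] at h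
    exact_mod_cast h.symm
  have h2 : ∏ t ∈ Finset.range (i + r), ((n : ℝ) + 1 / 2 - t) =
      (∏ t ∈ Finset.range i, ((n : ℝ) + 1 / 2 - t)) *
        ∏ t ∈ Finset.range r, (((n - i : ℕ) : ℝ) + 1 / 2 - t) := by
    rw [Finset.prod_range_add]
    congr 1
    refine Finset.prod_congr rfl fun t _ => ?_
    rw [Nat.cast_sub hin]
    push_cast
    ring
  have hi0 : (i.factorial : ℝ) ≠ 0 := by exact_mod_cast i.factorial_ne_zero
  have hr0 : (r.factorial : ℝ) ≠ 0 := by exact_mod_cast r.factorial_ne_zero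
  have hc0 : ((i + r).choose i : ℝ) ≠ 0 := by
    exact_mod_cast (Nat.choose_pos (by omega)).ne'
  unfold bn
  rw [Nat.add_sub_cancel_left, h1, h2]
  field_simp

end Pool.Agent.AMO
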