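import Pool.Agent.AMO.Stmts

/-!
# `2^n n! binom(n + 1/2, i)` is an integer
-/

set_option autoImplicit false

namespace Pool.Agent.AMO

namespace BNZM

theorem prod_eq (n : ℕ) : ∀ i : ℕ, (((∏ t ∈ Finset.range i, (2 * (n : ℤ) + 1 - 2 * t)) : ℤ) : ℝ) =
    2 ^ i * ∏ t ∈ Finset.range i, ((n : ℝ) + 1 / 2 - t) := by
  intro i
  induction i with
  | zero => simp
  | succ i ih =>
    rw [Finset.prod_range_succ, Finset.prod_range_succ, Int.cast_mul, ih, pow_succ]
    push_cast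
    ring

end BNZM

theorem BNZ_thm : Stmt_BNZ := by
  intro n i hi
  obtain ⟨q, hq⟩ := Nat.factorial_dvd_factorial hi
  refine ⟨2 ^ (n - i) * q * ∏ t ∈ Finset.range i, (2 * (n : ℤ) + 1 - 2 * t), ?_⟩
  rw [Int.cast_mul, BNZM.prod_eq, hq]
  unfold bn
  have h1 : (i.factorial : ℝ) ≠ 0 := by exact_mod_cast i.factorial_ne_zero
  have h2 : (2 : ℝ) ^ n = 2 ^ (n - i) * 2 ^ i := by
    rw [← pow_add]
    congr 1
    omega
  rw [h2]
  push_cast
  field_simp

end Pool.Agent.AMO
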