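import Pool.Agent.AMO.Stmts

/-!
Module AMO_BSR (MP_a79b85_nt): the binomial series.
-/

set_option autoImplicit false

namespace Pool.Agent.AMO

namespace BSRM

open Polynomial

theorem smeval_eq (r : ℝ) (l : ℕ) :
    (descPochhammer ℤ l).smeval r = ∏ t ∈ Finset.range l, (r - t) := by
  induction l with
  | zero => simp
  | succ l ih =>
    rw [descPochhammer_succ_right, smeval_mul, ih, Finset.prod_range_succ, smeval_sub, smeval_X,
      smeval_natCast, pow_one, pow_zero, nsmul_eq_mul, mul_one]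

theorem bn_eq (m l : ℕ) : bn m l = Ring.choose ((m : ℝ) + 1 / 2) l := by
  have h1 := Ring.descPochhammer_eq_factorial_smul_choose ((m : ℝ) + 1 / 2) l
  rw [smeval_eq, nsmul_eq_mul] at h1
  unfold bn
  rw [h1]
  have h3 : (l.factorial : ℝ) ≠ 0 := by positivity
  field_simp

end BSRM

open BSRM in
/-- **BSR.** -/
theorem BSR_thm : Stmt_BSR := by
  intro m x θ hx hθ h2
  have hx1 : |x| < 1 := by linarith
  have hpos : 0 < 1 + x := by have := (abs_le.1 hx).1; linarith
  have hs := (Real.one_add_rpow_hasFPowerSeriesOnBall_zero (a := (m : ℝ) + 1 / 2)).hasSum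
    (y := x) (by
      rw [Metric.mem_eball, edist_zero_right]
      rw [← ofReal_norm, Real.norm_eq_abs]
      exact ENNReal.ofReal_lt_one.2 hx1)
  have e1 : (1 + (0 + x)) ^ ((m : ℝ) + 1 / 2) = (1 + x) ^ m * θ := by
    rw [zero_add, Real.rpow_add hpos, Real.rpow_natCast, ← Real.sqrt_eq_rpow, ← h2,
      Real.sqrt_sq hθ]
  rw [e1] at hs
  refine hs.congr_fun fun l => ?_
  rw [binomialSeries_apply, bn_eq, List.ofFn_const, List.prod_replicate, smul_eq_mul]

end Pool.Agent.AMO
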