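import Pool.Agent.AMO.Stmts

/-!
# AMO, module COV: the windows cover everything
-/

set_option autoImplicit false

namespace Pool.Agent.AMO

theorem COV_thm : Stmt_COV := by
  intro hW3 hW1 hWN k Y V U Y' V' U' hk hS hS' hYY hY hY'
  have hk10 : 10 ≤ k := le_trans (by norm_num) hk
  have hk1 : (1 : ℤ) ≤ (k : ℤ) := by
    have : (100 : ℤ) ≤ (k : ℤ) := by exact_mod_cast hk
    linarith
  have hk0 : (0 : ℤ) < (k : ℤ) := by linarith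
  have hpow : ∀ {a b : ℕ}, a ≤ b → (k : ℤ) ^ a ≤ (k : ℤ) ^ b :=
    fun h => pow_le_pow_right₀ hk1 h
  have hkp : ∀ a : ℕ, (0 : ℤ) < (k : ℤ) ^ a := fun a => pow_pos hk0 a
  have hkp1 : ∀ a : ℕ, (1 : ℤ) ≤ (k : ℤ) ^ a := fun a => one_le_pow₀ hk1
  have hY1 : (1 : ℤ) ≤ Y := le_trans (hkp1 5000) hY
  have hY0 : (0 : ℤ) < Y := by linarith
  have hYp : ∀ a : ℕ, (0 : ℤ) < Y ^ a := fun a => pow_pos hY0 a
  have h60 : (k : ℤ) ^ 60 ≤ Y := le_trans (hpow (by norm_num)) hY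
  have hYsq : Y ≤ Y ^ 2 := by nlinarith
  by_cases hA : (k : ℤ) ^ 60 * Y' ≤ Y ^ 5
  · exact hW3 k Y V U Y' V' U' hk10 hS hS' hYY h60 hA
  push Not at hA
  by_cases hB : (k : ℤ) ^ 51 * Y' ≤ Y ^ 7
  · refine hW1 k Y V U Y' V' U' hk10 hS hS' hYY.le h60 ?_ hB
    have h1 : (k : ℤ) ^ 111 ≤ Y ^ 2 := le_trans (le_trans (hpow (by norm_num)) hY) hYsq
    have h2 : (k : ℤ) ^ 60 * ((k : ℤ) ^ 51 * Y ^ 3) ≤ (k : ℤ) ^ 60 * Y' := by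
      have h3 : (k : ℤ) ^ 60 * ((k : ℤ) ^ 51 * Y ^ 3) = (k : ℤ) ^ 111 * Y ^ 3 := by ring
      have h4 : (k : ℤ) ^ 111 * Y ^ 3 ≤ Y ^ 2 * Y ^ 3 :=
        mul_le_mul_of_nonneg_right h1 (hYp 3).le
      have h5 : Y ^ 2 * Y ^ 3 = Y ^ 5 := by ring
      rw [h3]
      linarith
    exact le_of_mul_le_mul_left h2 (hkp 60)
  push Not at hB
  have hP2 : (k : ℤ) ^ (50 * 2) * Y ^ (2 * 2 + 1) ≤ Y' := by
    have h1 : (k : ℤ) ^ 151 ≤ Y ^ 2 := le_trans (le_trans (hpow (by norm_num)) hY) hYsq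
    have h2 : (k : ℤ) ^ 51 * ((k : ℤ) ^ (50 * 2) * Y ^ (2 * 2 + 1)) ≤ (k : ℤ) ^ 51 * Y' := by
      have h3 : (k : ℤ) ^ 51 * ((k : ℤ) ^ (50 * 2) * Y ^ (2 * 2 + 1)) = (k : ℤ) ^ 151 * Y ^ 5 := by
        ring
      have h4 : (k : ℤ) ^ 151 * Y ^ 5 ≤ Y ^ 2 * Y ^ 5 :=
        mul_le_mul_of_nonneg_right h1 (hYp 5).le
      have h5 : Y ^ 2 * Y ^ 5 = Y ^ 7 := by ring
      rw [h3]
      linarith
    exact le_of_mul_le_mul_left h2 (hkp 51)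
  classical
  have hk2 : 2 ≤ k := le_trans (by norm_num) hk
  have hex : ∃ n : ℕ, 2 ≤ n ∧ ¬ ((k : ℤ) ^ (50 * (n + 1)) * Y ^ (2 * (n + 1) + 1) ≤ Y') := by
    refine ⟨k, hk2, ?_⟩
    intro h
    have h1 : Y ^ (2 * (k + 1) + 1) ≤ (k : ℤ) ^ (50 * (k + 1)) * Y ^ (2 * (k + 1) + 1) := by
      have := mul_le_mul_of_nonneg_right (hkp1 (50 * (k + 1))) (hYp (2 * (k + 1) + 1)).le
      linarith
    have h2 : 2 * (k + 1) + 1 = 2 * k + 3 := by ring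
    rw [h2] at h1
    rw [h2] at h
    linarith
  have hn := Nat.find_spec hex
  have hmin : ∀ m < Nat.find hex, ¬ (2 ≤ m ∧ ¬ ((k : ℤ) ^ (50 * (m + 1)) * Y ^ (2 * (m + 1) + 1) ≤ Y')) :=
    fun m hm => Nat.find_min hex hm
  have hnk : Nat.find hex ≤ k := by
    refine Nat.find_min' hex ⟨hk2, ?_⟩
    intro h
    have h1 : Y ^ (2 * (k + 1) + 1) ≤ (k : ℤ) ^ (50 * (k + 1)) * Y ^ (2 * (k + 1) + 1) := by
      have := mul_le_mul_of_nonneg_right (hkp1 (50 * (k + 1))) (hYp (2 * (k + 1) + 1)).le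
      linarith
    have h2 : 2 * (k + 1) + 1 = 2 * k + 3 := by ring
    rw [h2] at h1
    rw [h2] at h
    linarith
  generalize Nat.find hex = n at hn hmin hnk
  obtain ⟨hn2, hnot⟩ := hn
  have hPn : (k : ℤ) ^ (50 * n) * Y ^ (2 * n + 1) ≤ Y' := by
    rcases Nat.lt_or_ge 2 n with h | h
    · obtain ⟨m, rfl⟩ : ∃ m, n = m + 1 := ⟨n - 1, by omega⟩
      have := hmin m (Nat.lt_succ_self m)
      by_contra hc
      exact this ⟨by omega, hc⟩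
    · obtain rfl : n = 2 := le_antisymm h hn2
      exact hP2
  push Not at hnot
  refine hWN n k Y V U Y' V' U' hk hn2 hnk hS hS' hYY.le h60 hPn ?_
  obtain ⟨m, rfl⟩ : ∃ m, n = m + 2 := ⟨n - 2, by omega⟩
  have h1 : (k : ℤ) ^ (100 * (m + 2) + 50) ≤ Y ^ (m + 1) := by
    calc (k : ℤ) ^ (100 * (m + 2) + 50) ≤ (k : ℤ) ^ (5000 * (m + 1)) := hpow (by omega)
      _ = ((k : ℤ) ^ 5000) ^ (m + 1) := by rw [pow_mul]
      _ ≤ Y ^ (m + 1) := pow_le_pow_left₀ (hkp 5000).le hY _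
  have h2 : (k : ℤ) ^ (50 * (m + 2)) * Y' ≤
      (k : ℤ) ^ (50 * (m + 2)) * ((k : ℤ) ^ (50 * (m + 2 + 1)) * Y ^ (2 * (m + 2 + 1) + 1)) :=
    mul_le_mul_of_nonneg_left hnot.le (hkp _).le
  have h3 : (k : ℤ) ^ (50 * (m + 2)) * ((k : ℤ) ^ (50 * (m + 2 + 1)) * Y ^ (2 * (m + 2 + 1) + 1)) =
      (k : ℤ) ^ (100 * (m + 2) + 50) * Y ^ (2 * m + 7) := by
    rw [← mul_assoc, ← pow_add]
    (congr 2; ring)
  have h4 : (k : ℤ) ^ (100 * (m + 2) + 50) * Y ^ (2 * m + 7) ≤ Y ^ (m + 1) * Y ^ (2 * m + 7) :=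
    mul_le_mul_of_nonneg_right h1 (hYp _).le
  have h5 : Y ^ (m + 1) * Y ^ (2 * m + 7) = Y ^ (3 * (m + 2) + 2) := by
    rw [← pow_add]
    congr 1
    ring
  linarith

end Pool.Agent.AMO
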