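import Pool.Agent.AMO.Stmts

/-!
# At most one irregular extension: module EEB, upper bound of the coefficients `ee`
-/

set_option autoImplicit false

namespace Pool.Agent.AMO

namespace EEBM

theorem sum_choose (n m : ℕ) :
    ∑ p ∈ Finset.range (m + 1), ((n + p).choose p) * ((n + (m - p)).choose (m - p)) =
      (2 * n + 1 + m).choose m := by
  have h1 := PowerSeries.mk_one_pow_eq_mk_choose_add ℤ n
  have h2 := PowerSeries.mk_one_pow_eq_mk_choose_add ℤ (2 * n + 1)
  have h3 : ((PowerSeries.mk 1 : PowerSeries ℤ) ^ (n + 1)) * ((PowerSeries.mk 1) ^ (n + 1)) =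
      (PowerSeries.mk 1) ^ (2 * n + 1 + 1) := by
    rw [← pow_add]
    congr 1
    ring
  rw [h1, h2] at h3
  have h4 := congrArg (PowerSeries.coeff m) h3
  rw [PowerSeries.coeff_mul, Finset.Nat.sum_antidiagonal_eq_sum_range_succ_mk] at h4
  simp only [PowerSeries.coeff_mk] at h4
  have h5 : (2 * n + 1 + m).choose m = (2 * n + 1 + m).choose (2 * n + 1) := by
    rw [← Nat.choose_symm_of_eq_add (a := 2 * n + 1) (b := m) rfl]
  have h6 : ∑ p ∈ Finset.range (m + 1), ((n + p).choose n) * ((n + (m - p)).choose n) =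
      (2 * n + 1 + m).choose (2 * n + 1) := by exact_mod_cast h4
  rw [h5, ← h6]
  refine Finset.sum_congr rfl fun p _ => ?_
  rw [Nat.choose_symm_of_eq_add (a := n) (b := p) rfl,
    Nat.choose_symm_of_eq_add (a := n) (b := m - p) rfl]

theorem inv_le {c u : ℝ} (hc : 0 < c) (hu : c ≤ |u|) (l : ℕ) :
    |(u ^ l)⁻¹| ≤ (c ^ l)⁻¹ := by
  rw [abs_inv, abs_pow]
  exact inv_anti₀ (pow_pos hc l) (pow_le_pow_left₀ hc.le hu l)

end EEBM

open EEBM in
theorem EEB_thm : Stmt_EEB := by
  intro n m u v c hc hu hv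
  unfold ee
  rw [abs_mul, abs_pow, abs_neg, abs_one, one_pow, one_mul]
  have h1 : ∀ p ∈ Finset.range (m + 1),
      |((n + p).choose p : ℝ) * ((n + (m - p)).choose (m - p) : ℝ) *
        (u ^ (n + 1 + p))⁻¹ * (v ^ (n + 1 + (m - p)))⁻¹| ≤
      (((n + p).choose p : ℝ) * ((n + (m - p)).choose (m - p) : ℝ)) *
        (c ^ (2 * n + 2 + m))⁻¹ := by
    intro p hp
    have hpm : p ≤ m := by
      have := Finset.mem_range.1 hp
      omega
    rw [abs_mul, abs_mul, abs_mul, Nat.abs_cast, Nat.abs_cast, mul_assoc]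
    refine mul_le_mul_of_nonneg_left ?_ (by positivity)
    have e : (c ^ (2 * n + 2 + m))⁻¹ = (c ^ (n + 1 + p))⁻¹ * (c ^ (n + 1 + (m - p)))⁻¹ := by
      rw [← mul_inv, ← pow_add]
      congr 2
      omega
    rw [e]
    exact mul_le_mul (inv_le hc hu _) (inv_le hc hv _) (abs_nonneg _) (by positivity)
  refine (Finset.abs_sum_le_sum_abs _ _).trans ((Finset.sum_le_sum h1).trans ?_)
  rw [← Finset.sum_mul]
  refine mul_le_mul_of_nonneg_right ?_ (by positivity)
  have h2 := sum_choose n m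
  have h3 : (2 * n + 1 + m).choose m ≤ 2 ^ (2 * n + 1 + m) := Nat.choose_le_two_pow _ _
  rw [← h2] at h3
  exact_mod_cast h3

end Pool.Agent.AMO
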