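import Pool.Agent.AMO.Stmts

/-!
# Project AMO, module EEP: positivity, recursion and lower bound at the node `β`
-/

set_option autoImplicit false

namespace Pool.Agent.AMO

namespace EEPM

/-- the term of the sum -/
noncomputable def T (n : ℕ) (u v : ℝ) (m p : ℕ) : ℝ :=
  ((n + p).choose p : ℝ) * ((n + (m - p)).choose (m - p) : ℝ) *
      (u ^ (n + 1 + p))⁻¹ * (v ^ (n + 1 + (m - p)))⁻¹

theorem ee_eq (n m : ℕ) (u v : ℝ) :
    (-1) ^ m * ee n u v m = ∑ p ∈ Finset.range (m + 1), T n u v m p := by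
  unfold ee T
  rw [← mul_assoc, ← mul_pow, neg_one_mul, neg_neg, one_pow, one_mul]

theorem T_pos {n m p : ℕ} {u v : ℝ} (hu : 0 < u) (hv : 0 < v) : 0 < T n u v m p := by
  have h1 : (0 : ℝ) < ((n + p).choose p : ℝ) := by
    exact_mod_cast Nat.choose_pos (Nat.le_add_left p n)
  have h2 : (0 : ℝ) < ((n + (m - p)).choose (m - p) : ℝ) := by
    exact_mod_cast Nat.choose_pos (Nat.le_add_left (m - p) n)
  unfold T
  positivity

theorem T_succ {n m p : ℕ} {u v : ℝ} (hu : 0 < u) (hv : 0 < v) :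
    T n u v m p ≤ u * T n u v (m + 1) (p + 1) := by
  unfold T
  rw [Nat.succ_sub_succ]
  have h1 : ((n + p).choose p : ℝ) ≤ ((n + (p + 1)).choose (p + 1) : ℝ) := by
    have h : (n + p).choose p ≤ (n + (p + 1)).choose (p + 1) := by
      rw [← add_assoc, Nat.choose_succ_succ]
      exact Nat.le_add_right _ _
    exact_mod_cast h
  have h2 : u * (u ^ (n + 1 + (p + 1)))⁻¹ = (u ^ (n + 1 + p))⁻¹ := by
    rw [← add_assoc, pow_succ, mul_inv]
    field_simp
  have h3 : (0 : ℝ) ≤ ((n + (m - p)).choose (m - p) : ℝ) * (u ^ (n + 1 + p))⁻¹ *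
      (v ^ (n + 1 + (m - p)))⁻¹ := by positivity
  calc ((n + p).choose p : ℝ) * ((n + (m - p)).choose (m - p) : ℝ) * (u ^ (n + 1 + p))⁻¹ *
        (v ^ (n + 1 + (m - p)))⁻¹
      = ((n + p).choose p : ℝ) * (((n + (m - p)).choose (m - p) : ℝ) * (u ^ (n + 1 + p))⁻¹ *
        (v ^ (n + 1 + (m - p)))⁻¹) := by ring
    _ ≤ ((n + (p + 1)).choose (p + 1) : ℝ) * (((n + (m - p)).choose (m - p) : ℝ) *
        (u ^ (n + 1 + p))⁻¹ * (v ^ (n + 1 + (m - p)))⁻¹) := mul_le_mul_of_nonneg_right h1 h3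
    _ = _ := by
        rw [← h2]
        ring

end EEPM

open EEPM in
theorem EEP_thm : Stmt_EEP := by
  intro n m α β hβ hα
  have hv : 0 < β + α := add_pos hβ hα
  rw [ee_eq, ee_eq, ee_eq]
  refine ⟨Finset.sum_pos (fun p _ => T_pos hβ hv) ⟨0, by simp⟩, ?_, ?_⟩
  · rw [Finset.sum_range_succ' _ (m + 1), mul_add, Finset.mul_sum]
    have h1 : 0 ≤ β * T n β (β + α) (m + 1) 0 := (mul_pos hβ (T_pos hβ hv)).le
    have h2 : ∑ p ∈ Finset.range (m + 1), T n β (β + α) m p ≤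
        ∑ p ∈ Finset.range (m + 1), β * T n β (β + α) (m + 1) (p + 1) :=
      Finset.sum_le_sum fun p _ => T_succ hβ hv
    linarith
  · have h1 : T n β (β + α) n n ≤ ∑ p ∈ Finset.range (n + 1), T n β (β + α) n p :=
      Finset.single_le_sum (f := fun p => T n β (β + α) n p) (fun p _ => (T_pos hβ hv).le)
        (Finset.mem_range.2 (Nat.lt_succ_self n))
    refine le_trans ?_ h1
    have h2 : T n β (β + α) n n = ((n + n).choose n : ℝ) *
        ((β ^ (2 * n + 1))⁻¹ * ((α + β) ^ (n + 1))⁻¹) := by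
      unfold T
      rw [Nat.sub_self, Nat.add_zero, Nat.choose_zero_right, Nat.cast_one, mul_one, Nat.add_zero,
        add_comm β α, mul_assoc]
      congr 4
      ring
    rw [h2]
    have h3 : (1 : ℝ) ≤ ((n + n).choose n : ℝ) := by
      exact_mod_cast Nat.choose_pos (Nat.le_add_left n n)
    have h4 : 0 ≤ (β ^ (2 * n + 1))⁻¹ * ((α + β) ^ (n + 1))⁻¹ := by positivity
    nlinarith

end Pool.Agent.AMO
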