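import Pool.Agent.AMO.Stmts

/-!
# EEZ: integrality of `W^(2n+1) ee`
-/

set_option autoImplicit false

namespace Pool.Agent.AMO

namespace EEZM

/-- `(u v)^(2n+1) u^(-(n+1+p)) v^(-(n+1+q)) = u^(n-p) v^(n-q)` for `p, q ≤ n`. -/
theorem term (n p q : ℕ) (u v : ℝ) (hu : u ≠ 0) (hv : v ≠ 0) (hp : p ≤ n) (hq : q ≤ n) :
    (u * v) ^ (2 * n + 1) * ((u ^ (n + 1 + p))⁻¹ * (v ^ (n + 1 + q))⁻¹) =
      u ^ (n - p) * v ^ (n - q) := by
  have hu' : u ^ (n + 1 + p) ≠ 0 := pow_ne_zero _ hu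
  have hv' : v ^ (n + 1 + q) ≠ 0 := pow_ne_zero _ hv
  have h1 : u ^ (2 * n + 1) = u ^ (n - p) * u ^ (n + 1 + p) := by
    rw [← pow_add]
    congr 1
    omega
  have h2 : v ^ (2 * n + 1) = v ^ (n - q) * v ^ (n + 1 + q) := by
    rw [← pow_add]
    congr 1
    omega
  rw [mul_pow, h1, h2]
  field_simp

end EEZM

theorem EEZ_thm : Stmt_EEZ := by
  intro n m u v W hu hv hW hm
  obtain ⟨q, rfl⟩ := hW
  have hu' : (u : ℝ) ≠ 0 := by exact_mod_cast hu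
  have hv' : (v : ℝ) ≠ 0 := by exact_mod_cast hv
  refine ⟨(-1) ^ m * q ^ (2 * n + 1) * ∑ p ∈ Finset.range (m + 1),
    ((n + p).choose p : ℤ) * ((n + (m - p)).choose (m - p) : ℤ) *
      (u ^ (n - p) * v ^ (n - (m - p))), ?_⟩
  unfold ee
  push_cast
  have key : ((u : ℝ) * v) ^ (2 * n + 1) * (∑ p ∈ Finset.range (m + 1),
      ((n + p).choose p : ℝ) * ((n + (m - p)).choose (m - p) : ℝ) *
        ((u : ℝ) ^ (n + 1 + p))⁻¹ * ((v : ℝ) ^ (n + 1 + (m - p)))⁻¹) =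
      ∑ p ∈ Finset.range (m + 1),
        ((n + p).choose p : ℝ) * ((n + (m - p)).choose (m - p) : ℝ) *
          ((u : ℝ) ^ (n - p) * (v : ℝ) ^ (n - (m - p))) := by
    rw [Finset.mul_sum]
    apply Finset.sum_congr rfl
    intro p hp
    have hp' : p ≤ m := Nat.lt_succ_iff.mp (Finset.mem_range.mp hp)
    rw [← EEZM.term n p (m - p) u v hu' hv' (hp'.trans hm) ((Nat.sub_le m p).trans hm)]
    ring
  rw [← key, mul_pow ((u : ℝ) * v) (q : ℝ)]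
  ring

end Pool.Agent.AMO
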