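import Pool.Agent.AMO.Stmts

/-! # AMO: EQ3, the exact equality `m₀² (α²+αβ+β²) = 3 (n N K)²` -/

set_option autoImplicit false

namespace Pool.Agent.AMO

namespace EQ3M

theorem core (G X P Q R C B : ℤ) (hX : 0 < X) (hP : X ≤ P) (hQ : X ≤ Q) (hR : X ≤ R)
    (hG : |G| * (P * Q * R) ≤ C * X ^ 2) (hC : C ≤ B) (hB : B < X) : G = 0 := by
  by_contra h
  have h1 : 1 ≤ |G| := Int.one_le_abs h
  have hPQ : X * X ≤ P * Q := mul_le_mul hP hQ hX.le (hX.le.trans hP)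
  have h3 : X * X * X ≤ P * Q * R :=
    mul_le_mul hPQ hR hX.le ((mul_pos hX hX).le.trans hPQ)
  have h4 : X * X * X ≤ |G| * (P * Q * R) := by
    have h5 : 0 ≤ P * Q * R := (mul_pos (mul_pos hX hX) hX).le.trans h3
    nlinarith
  have h6 : X ^ 2 * X ≤ X ^ 2 * C := by nlinarith
  have h7 : X ≤ C := le_of_mul_le_mul_left h6 (by positivity)
  linarith

/-- the integer computation -/
theorem main (K n N D m α β Y Y' T P Q R X : ℤ) (hK : 10 ≤ K)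
    (n1 : 1 ≤ n) (n2 : n ≤ K ^ 3) (N1 : 1 ≤ N) (N2 : N ≤ K ^ 2) (D1 : 1 ≤ D) (D2 : D ≤ K ^ 3)
    (b1 : 1 ≤ β) (a1 : 200 * β ≤ α) (a2 : α ≤ K ^ 5) (s1 : α + β ≤ K ^ 5)
    (hY : K ^ 60 ≤ Y)
    (hX : X = D * Y ^ 2)
    (hP : P = 4 * X - 2 * α + β) (hQ : Q = 4 * X - α + 2 * β) (hR : R = 4 * X - α + β)
    (hA : (2 * n * N * (α + β)) ^ 2 * T = m ^ 2 * (P * Q * R))
    (hB : |4 * (α ^ 2 + α * β + β ^ 2) * T - 3 * (P * Q * R)| ≤ 10000 * α * X ^ 2) :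
    m ^ 2 * (α ^ 2 + α * β + β ^ 2) = 3 * (n * N * (α + β)) ^ 2 := by
  have hK0 : 0 < K := by linarith
  have hX1 : K ^ 120 ≤ X := by
    have h1 : K ^ 60 * K ^ 60 ≤ Y * Y := mul_le_mul hY hY (by positivity) ((by positivity : (0 : ℤ) ≤ K ^ 60).trans hY)
    have h2 : Y * Y ≤ D * Y ^ 2 := by nlinarith [mul_self_nonneg Y]
    calc K ^ 120 = K ^ 60 * K ^ 60 := by ring
      _ ≤ Y * Y := h1
      _ ≤ D * Y ^ 2 := h2
      _ = X := hX.symm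
  have hXa : α ≤ X := by
    have : K ^ 5 ≤ K ^ 120 := pow_le_pow_right₀ (by linarith) (by norm_num)
    linarith
  have hX0 : 0 < X := lt_of_lt_of_le (by positivity) hX1
  have hGe : (m ^ 2 * (α ^ 2 + α * β + β ^ 2) - 3 * (n * N * (α + β)) ^ 2) * (P * Q * R) =
      (n * N * (α + β)) ^ 2 * (4 * (α ^ 2 + α * β + β ^ 2) * T - 3 * (P * Q * R)) := by
    linear_combination (-(α ^ 2 + α * β + β ^ 2)) * hA
  have hP1 : X ≤ P := by rw [hP]; linarith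
  have hQ1 : X ≤ Q := by rw [hQ]; linarith
  have hR1 : X ≤ R := by rw [hR]; linarith
  have hPQR : 0 ≤ P * Q * R := by
    have := hX0.le.trans hP1
    have := hX0.le.trans hQ1
    have := hX0.le.trans hR1
    positivity
  have hG : |m ^ 2 * (α ^ 2 + α * β + β ^ 2) - 3 * (n * N * (α + β)) ^ 2| * (P * Q * R) ≤
      ((n * N * (α + β)) ^ 2 * (10000 * α)) * X ^ 2 := by
    calc |m ^ 2 * (α ^ 2 + α * β + β ^ 2) - 3 * (n * N * (α + β)) ^ 2| * (P * Q * R)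
        = |(m ^ 2 * (α ^ 2 + α * β + β ^ 2) - 3 * (n * N * (α + β)) ^ 2) * (P * Q * R)| := by
          rw [abs_mul _ (P * Q * R), abs_of_nonneg hPQR]
      _ = |(n * N * (α + β)) ^ 2 * (4 * (α ^ 2 + α * β + β ^ 2) * T - 3 * (P * Q * R))| := by
          rw [hGe]
      _ = (n * N * (α + β)) ^ 2 * |4 * (α ^ 2 + α * β + β ^ 2) * T - 3 * (P * Q * R)| := by
          rw [abs_mul, abs_of_nonneg (sq_nonneg (n * N * (α + β)))]
      _ ≤ (n * N * (α + β)) ^ 2 * (10000 * α * X ^ 2) :=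
          mul_le_mul_of_nonneg_left hB (sq_nonneg _)
      _ = ((n * N * (α + β)) ^ 2 * (10000 * α)) * X ^ 2 := by ring
  have hα0 : 0 ≤ α := by linarith
  have hβ0 : 0 ≤ β := by linarith
  have hC : (n * N * (α + β)) ^ 2 * (10000 * α) ≤ K ^ 29 := by
    have e1 : n * N * (α + β) ≤ K ^ 3 * K ^ 2 * K ^ 5 := by
      have h1 : n * N ≤ K ^ 3 * K ^ 2 := mul_le_mul n2 N2 (by linarith) (by positivity)
      exact mul_le_mul h1 s1 (by linarith) (by positivity)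
    have e2 : (n * N * (α + β)) ^ 2 ≤ (K ^ 3 * K ^ 2 * K ^ 5) ^ 2 := by
      have h0 : 0 ≤ n * N * (α + β) := by
        have : 0 ≤ n := by linarith
        have : 0 ≤ N := by linarith
        positivity
      exact pow_le_pow_left₀ h0 e1 2
    have e3 : (10000 : ℤ) ≤ K ^ 4 := by
      calc (10000 : ℤ) = 10 ^ 4 := by norm_num
        _ ≤ K ^ 4 := pow_le_pow_left₀ (by norm_num) hK 4
    have e4 : 10000 * α ≤ K ^ 4 * K ^ 5 := mul_le_mul e3 a2 hα0 (by positivity)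
    calc (n * N * (α + β)) ^ 2 * (10000 * α) ≤ (K ^ 3 * K ^ 2 * K ^ 5) ^ 2 * (K ^ 4 * K ^ 5) :=
          mul_le_mul e2 e4 (by positivity) (by positivity)
      _ = K ^ 29 := by ring
  have hB2 : K ^ 29 < X :=
    lt_of_lt_of_le (pow_lt_pow_right₀ (by linarith) (by norm_num)) hX1
  have := core _ X P Q R _ _ hX0 hP1 hQ1 hR1 hG hC hB2
  linarith

theorem sizeT (K n N D m α β Y Y' : ℤ) (hK : 10 ≤ K)
    (n1 : 1 ≤ n) (n2 : n ≤ K ^ 3) (N1 : 1 ≤ N) (D1 : 1 ≤ D) (D2 : D ≤ K ^ 3)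
    (b1 : 1 ≤ β) (a1 : 200 * β ≤ α) (s1 : α + β ≤ K ^ 5)
    (hY : K ^ 60 ≤ Y) (hYY : Y < Y') (hm : 0 < m)
    (hg : N * Y ^ 3 * m ≤ n * (α + β) * Y') :
    (D * Y ^ 2) ^ 2 ≤ D * Y' ^ 2 + 5 * (D * Y ^ 2) - 2 * (α - β) := by
  have hK0 : 0 < K := by linarith
  have hY0 : 0 < Y := lt_of_lt_of_le (by positivity) hY
  have hY0' : 0 < Y' := hY0.trans hYY
  have h1 : Y ^ 3 ≤ N * Y ^ 3 * m := by
    have h2 : 1 ≤ N * m := by nlinarith
    have h3 : 0 < Y ^ 3 := by positivity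
    nlinarith
  have h2 : n * (α + β) * Y' ≤ K ^ 8 * Y' := by
    have h3 : n * (α + β) ≤ K ^ 3 * K ^ 5 := mul_le_mul n2 s1 (by linarith) (by positivity)
    have h4 : n * (α + β) ≤ K ^ 8 := by
      calc n * (α + β) ≤ K ^ 3 * K ^ 5 := h3
        _ = K ^ 8 := by ring
    exact mul_le_mul_of_nonneg_right h4 hY0'.le
  have h3 : Y ^ 3 ≤ K ^ 8 * Y' := h1.trans (hg.trans h2)
  have h4 : (Y ^ 3) ^ 2 ≤ (K ^ 8 * Y') ^ 2 := pow_le_pow_left₀ (by positivity) h3 2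
  have h5 : K ^ 19 ≤ Y ^ 2 := by
    have h6 : K ^ 60 * K ^ 60 ≤ Y * Y := mul_le_mul hY hY (by positivity) hY0.le
    have h7 : K ^ 19 ≤ K ^ 60 * K ^ 60 := by
      rw [← pow_add]
      exact pow_le_pow_right₀ (by linarith) (by norm_num)
    calc K ^ 19 ≤ K ^ 60 * K ^ 60 := h7
      _ ≤ Y * Y := h6
      _ = Y ^ 2 := by ring
  have h6 : K ^ 16 * (K ^ 3 * Y ^ 4) ≤ K ^ 16 * Y' ^ 2 := by
    calc K ^ 16 * (K ^ 3 * Y ^ 4) = K ^ 19 * Y ^ 4 := by ring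
      _ ≤ Y ^ 2 * Y ^ 4 := mul_le_mul_of_nonneg_right h5 (by positivity)
      _ = (Y ^ 3) ^ 2 := by ring
      _ ≤ (K ^ 8 * Y') ^ 2 := h4
      _ = K ^ 16 * Y' ^ 2 := by ring
  have h7 : K ^ 3 * Y ^ 4 ≤ Y' ^ 2 := le_of_mul_le_mul_left h6 (by positivity)
  have h8 : (D * Y ^ 2) ^ 2 ≤ D * Y' ^ 2 := by
    calc (D * Y ^ 2) ^ 2 = D * (D * Y ^ 4) := by ring
      _ ≤ D * (K ^ 3 * Y ^ 4) := by
          apply mul_le_mul_of_nonneg_left _ (by linarith)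
          exact mul_le_mul_of_nonneg_right D2 (by positivity)
      _ ≤ D * Y' ^ 2 := mul_le_mul_of_nonneg_left h7 (by linarith)
  have h9 : α ≤ D * Y ^ 2 := by
    have h10 : K ^ 5 ≤ Y ^ 2 := by
      have : K ^ 5 ≤ K ^ 19 := pow_le_pow_right₀ (by linarith) (by norm_num)
      linarith
    have h11 : Y ^ 2 ≤ D * Y ^ 2 := by nlinarith [sq_nonneg Y]
    linarith
  nlinarith [sq_nonneg Y]

end EQ3M

open EQ3M in
theorem EQ3_thm : Stmt_EQ3 := by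
  intro hGAP hALG hANA k Y V U Y' V' U' hk hS hS' hYY hY hj
  obtain ⟨hm, hg⟩ := hGAP k Y V U Y' V' U' hk hS hS' hYY hY
  obtain ⟨⟨n1, n2⟩, ⟨N1, N2⟩, ⟨D1, D2⟩, ⟨b1, b2⟩, ⟨a1, a2⟩, s1⟩ := siz k hk
  have hk1 : (10 : ℤ) ≤ (k : ℤ) := by exact_mod_cast hk
  have hk0 : (0 : ℤ) < (k : ℤ) := by linarith
  obtain ⟨hA1, hA2⟩ := hALG k Y V U Y' V' U' (DD k * Y ^ 2) (DD k * Y' ^ 2)
    (DD k * Y' ^ 2 + 5 * (DD k * Y ^ 2) - 2 * (al k - be k))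
    (4 * (DD k * Y ^ 2) - 2 * al k + be k) (4 * (DD k * Y ^ 2) - al k + 2 * be k)
    (4 * (DD k * Y ^ 2) - al k + be k) hk hS hS' hj rfl rfl rfl rfl rfl rfl
  have hT := sizeT (k : ℤ) (nn k) (NN k) (DD k) _ (al k) (be k) Y Y' hk1 n1 n2 N1 D1 D2 b1 a1 s1
    hY hYY hm hg
  have hXa : 1000 * al k ≤ DD k * Y ^ 2 := by
    have hY0 : 0 < Y := lt_of_lt_of_le (by positivity) hY
    have h6 : (k : ℤ) ^ 60 * (k : ℤ) ^ 60 ≤ Y * Y := mul_le_mul hY hY (by positivity) hY0.le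
    have h7 : (k : ℤ) ^ 3 * (k : ℤ) ^ 5 ≤ (k : ℤ) ^ 60 * (k : ℤ) ^ 60 := by
      rw [← pow_add, ← pow_add]
      exact pow_le_pow_right₀ (by linarith) (by norm_num)
    have h8 : (1000 : ℤ) ≤ (k : ℤ) ^ 3 := by
      calc (1000 : ℤ) = 10 ^ 3 := by norm_num
        _ ≤ (k : ℤ) ^ 3 := pow_le_pow_left₀ (by norm_num) hk1 3
    have h9 : 1000 * al k ≤ (k : ℤ) ^ 3 * (k : ℤ) ^ 5 :=
      mul_le_mul h8 a2 (by linarith) (by positivity)
    have h10 : Y * Y ≤ DD k * Y ^ 2 := by nlinarith [mul_self_nonneg Y]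
    linarith
  refine main (k : ℤ) (nn k) (NN k) (DD k) _ (al k) (be k) Y Y' _ _ _ _ _ hk1 n1 n2 N1 N2 D1 D2
    b1 a1 a2 s1 hY rfl rfl rfl rfl hA1 ?_
  have hANA' := hANA (al k : ℝ) (be k : ℝ) ((DD k * Y ^ 2 : ℤ) : ℝ)
    ((DD k * Y' ^ 2 + 5 * (DD k * Y ^ 2) - 2 * (al k - be k) : ℤ) : ℝ)
    ((4 * (DD k * Y ^ 2) - 2 * al k + be k : ℤ) : ℝ)
    ((4 * (DD k * Y ^ 2) - al k + 2 * be k : ℤ) : ℝ)
    ((4 * (DD k * Y ^ 2) - al k + be k : ℤ) : ℝ) (by exact_mod_cast b1)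
    (by exact_mod_cast (by linarith : be k ≤ al k)) (by exact_mod_cast hXa)
    (by exact_mod_cast hT) (by push_cast; ring) (by push_cast; ring) (by push_cast; ring) ?_
  · exact_mod_cast hANA'
  · have e : (DD k * Y' ^ 2 + 5 * (DD k * Y ^ 2) - 2 * (al k - be k)) - 5 * (DD k * Y ^ 2) +
        2 * (al k - be k) = DD k * Y' ^ 2 := by ring
    have hA3 : 4 * (DD k * Y ^ 2) * ((DD k * Y' ^ 2 + 5 * (DD k * Y ^ 2) - 2 * (al k - be k)) -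
        5 * (DD k * Y ^ 2) + 2 * (al k - be k)) *
        ((4 * (DD k * Y ^ 2) - 2 * al k + be k) * (4 * (DD k * Y ^ 2) - al k + 2 * be k) *
          (4 * (DD k * Y ^ 2) - al k + be k)) *
        (DD k * Y' ^ 2 + 5 * (DD k * Y ^ 2) - 2 * (al k - be k)) =
        ((4 * (DD k * Y ^ 2) - al k + 2 * be k) * (4 * (DD k * Y ^ 2) - al k + be k) *
          ((DD k * Y' ^ 2 + 5 * (DD k * Y ^ 2) - 2 * (al k - be k)) -
            (4 * (DD k * Y ^ 2) - 2 * al k + be k)) -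
          be k * (4 * (DD k * Y ^ 2) - 2 * al k + be k) *
            (DD k * Y' ^ 2 + 5 * (DD k * Y ^ 2) - 2 * (al k - be k))) ^ 2 := by
      rw [e]
      exact hA2
    exact_mod_cast hA3

end Pool.Agent.AMO
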