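import Pool.Agent.AMO.Stmts

/-!
# EXT: from an extension to a solution
-/

set_option autoImplicit false

namespace Pool.Agent.AMO

theorem EXT_thm : Stmt_EXT := by
  intro k d hk hd ⟨v, hv⟩ ⟨y, hy⟩ ⟨w, hw⟩
  have hk0 : (0 : ℤ) < k := by exact_mod_cast (by omega : 0 < k)
  -- `y = k Y`
  have hdvd : (k : ℤ) ∣ y := by
    have h1 : (k : ℤ) ^ 2 ∣ y ^ 2 := ⟨2 * d - 1, by rw [sq y, ← hy]; ring⟩
    exact (Int.pow_dvd_pow_iff (by norm_num)).1 h1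
  obtain ⟨c, hc⟩ := hdvd
  have hc2 : c ^ 2 = 2 * d - 1 := by
    have h1 : (k : ℤ) ^ 2 * (c ^ 2) = (k : ℤ) ^ 2 * (2 * d - 1) := by
      have h2 : (k : ℤ) ^ 2 * (c ^ 2) = y * y := by rw [hc]; ring
      rw [h2, ← hy]
      ring
    exact mul_left_cancel₀ (by positivity) h1
  have hk2 : (1 : ℤ) ≤ (k : ℤ) ^ 2 := by nlinarith
  refine ⟨|c|, |v|, 2 * |w|, ⟨?_, ?_, ?_, ?_, ?_⟩, ?_⟩
  · rw [abs_pos]
    rintro rfl
    nlinarith
  · rw [abs_pos]
    rintro rfl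
    nlinarith
  · have : w ≠ 0 := by
      rintro rfl
      nlinarith
    have h3 := abs_pos.2 this
    linarith
  · rw [sq_abs, sq_abs, hc2]
    unfold nn
    nlinarith
  · have h4 : (2 * |w|) ^ 2 = 4 * (w * w) := by
      rw [mul_pow, sq_abs]
      ring
    rw [h4, ← hw, sq_abs, hc2]
    unfold be DD NN
    ring
  · rw [sq_abs, hc2]

end Pool.Agent.AMO
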