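import Pool.Agent.AMO.Stmts

set_option autoImplicit false

namespace Pool.Agent.AMO

namespace FRMM

lemma one (k : ℕ) (Y V U : ℤ) (hk : 10 ≤ k) (h : Sol k Y V U) :
    (0 : ℝ) < 1 / (DD k * (Y : ℝ) ^ 2) ∧
    0 ≤ Real.sqrt 2 * (V : ℝ) / Y ∧ 0 ≤ (U : ℝ) / (Real.sqrt (DD k) * Y) ∧
    (Real.sqrt 2 * (V : ℝ) / Y) ^ 2 = 1 - (al k : ℝ) * (1 / (DD k * (Y : ℝ) ^ 2)) ∧
    ((U : ℝ) / (Real.sqrt (DD k) * Y)) ^ 2 = 1 + (be k : ℝ) * (1 / (DD k * (Y : ℝ) ^ 2)) := by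
  obtain ⟨hY, hV, hU, h1, h2⟩ := h
  obtain ⟨-, -, ⟨hD, -⟩, -, -, -⟩ := siz k hk
  have hYr : (0 : ℝ) < Y := by exact_mod_cast hY
  have hVr : (0 : ℝ) < V := by exact_mod_cast hV
  have hUr : (0 : ℝ) < U := by exact_mod_cast hU
  have hDr : (0 : ℝ) < (DD k : ℝ) := by
    have : (0 : ℤ) < DD k := by linarith
    exact_mod_cast this
  have h1r : (Y : ℝ) ^ 2 - 2 * (V : ℝ) ^ 2 = (nn k : ℝ) := by exact_mod_cast h1
  have h2r : (U : ℝ) ^ 2 - (DD k : ℝ) * (Y : ℝ) ^ 2 = (be k : ℝ) := by exact_mod_cast h2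
  have hal : (al k : ℝ) = (nn k : ℝ) * (DD k : ℝ) := by
    unfold al
    push_cast
    ring
  refine ⟨by positivity, by positivity, by positivity, ?_, ?_⟩
  · rw [div_pow, mul_pow, Real.sq_sqrt (by norm_num : (0 : ℝ) ≤ 2), hal, ← h1r]
    field_simp
    ring
  · rw [div_pow, mul_pow, Real.sq_sqrt hDr.le, ← h2r]
    field_simp
    ring

end FRMM

open FRMM in
theorem FRM_thm : Stmt_FRM := by
  intro k Y V U Y' V' U' hk h h' hYY hbig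
  obtain ⟨hz, hs, hg, hs2, hg2⟩ := one k Y V U hk h
  obtain ⟨hw, hs', hg', hs2', hg2'⟩ := one k Y' V' U' hk h'
  obtain ⟨hn, hN, ⟨hD, -⟩, ⟨hb, -⟩, ⟨hba, hal⟩, -⟩ := siz k hk
  obtain ⟨hY, hV, hU, -, -⟩ := h
  obtain ⟨hY', hV', hU', -, -⟩ := h'
  have hYr : (0 : ℝ) < Y := by exact_mod_cast hY
  have hYr' : (0 : ℝ) < Y' := by exact_mod_cast hY'
  have hYYr : (Y : ℝ) ≤ Y' := by exact_mod_cast hYY
  have hD1 : (1 : ℝ) ≤ (DD k : ℝ) := by exact_mod_cast hD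
  have hDr : (0 : ℝ) < (DD k : ℝ) := by linarith
  have hk1 : (1 : ℝ) ≤ (k : ℝ) := by
    have : (1 : ℕ) ≤ k := by omega
    exact_mod_cast this
  have hbr : (1 : ℝ) ≤ (be k : ℝ) := by exact_mod_cast hb
  have hbar : 200 * (be k : ℝ) ≤ (al k : ℝ) := by exact_mod_cast hba
  have halr : (al k : ℝ) ≤ (k : ℝ) ^ 5 := by exact_mod_cast hal
  have hbigr : (k : ℝ) ^ 60 ≤ (Y : ℝ) := by exact_mod_cast hbig
  refine ⟨Real.sqrt 2 * (V : ℝ) / Y, (U : ℝ) / (Real.sqrt (DD k) * Y),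
    Real.sqrt 2 * (V' : ℝ) / Y', (U' : ℝ) / (Real.sqrt (DD k) * Y'),
    ⟨hbr, hbar, hz, hw, ?_, ?_, hs, hg, hs', hg', hs2, hg2, hs2', hg2'⟩, ?_, ?_⟩
  · apply one_div_le_one_div_of_le (by positivity)
    gcongr
  · rw [mul_one_div, div_le_one (by positivity)]
    have ha0 : (0 : ℝ) ≤ (al k : ℝ) := by linarith
    calc (al k : ℝ) ^ 4 ≤ ((k : ℝ) ^ 5) ^ 4 := by gcongr
      _ = (k : ℝ) ^ 20 := by ring
      _ ≤ (k : ℝ) ^ 120 := pow_le_pow_right₀ hk1 (by norm_num)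
      _ = 1 * ((k : ℝ) ^ 60) ^ 2 := by ring
      _ ≤ (DD k : ℝ) * (Y : ℝ) ^ 2 := by gcongr
  · have h2 : Real.sqrt 2 * Real.sqrt 2 = 2 := Real.mul_self_sqrt (by norm_num)
    have e : (Y : ℝ) * Y' * (Real.sqrt 2 * (V : ℝ) / Y * (Real.sqrt 2 * (V' : ℝ) / Y')) =
        (Real.sqrt 2 * Real.sqrt 2) * V * V' := by
      field_simp
    rw [e, h2]
  · have h2 : Real.sqrt (DD k : ℝ) * Real.sqrt (DD k : ℝ) = (DD k : ℝ) :=
      Real.mul_self_sqrt hDr.le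
    have hsq : (0 : ℝ) < Real.sqrt (DD k : ℝ) := Real.sqrt_pos.mpr hDr
    have e : (Y : ℝ) * Y' * ((U : ℝ) / (Real.sqrt (DD k) * Y) *
        ((U' : ℝ) / (Real.sqrt (DD k) * Y'))) =
        U * U' / (Real.sqrt (DD k : ℝ) * Real.sqrt (DD k : ℝ)) := by
      field_simp
    rw [e, h2]
    field_simp

end Pool.Agent.AMO
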