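import Pool.Agent.AMO.Stmts

/-!
# The gap principle
-/

set_option autoImplicit false

namespace Pool.Agent.AMO.GAPM

theorem core (n N D K Y V U Y' V' U' m : ℤ) (hn : 1 ≤ n) (hN : 1 ≤ N) (hD : D = N ^ 2 + 1)
    (hK : K = n * D + 2 * N) (hY : 0 < Y) (hV : 0 < V) (hU : 0 < U) (hY' : 0 < Y') (hV' : 0 < V')
    (hU' : 0 < U') (hlt : Y < Y') (h4 : 2 * n ≤ Y ^ 2) (e1 : Y ^ 2 - 2 * V ^ 2 = n)
    (e2 : U ^ 2 - D * Y ^ 2 = 2 * N) (e1' : Y' ^ 2 - 2 * V' ^ 2 = n)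
    (e2' : U' ^ 2 - D * Y' ^ 2 = 2 * N)
    (hm : m = K * (Y * Y') - 4 * N * (V * V') - n * (U * U')) :
    0 < m ∧ N * Y ^ 3 * m ≤ n * K * Y' := by
  have hK0 : 0 < K := by
    rw [hK, hD]
    positivity
  have hD0 : 0 < D := by
    rw [hD]
    positivity
  have hYY : Y ^ 2 < Y' ^ 2 := by nlinarith
  obtain ⟨W, hW⟩ : ∃ W : ℤ, W = V' * U - V * U' := ⟨_, rfl⟩
  obtain ⟨Q, hQ⟩ : ∃ Q : ℤ, Q = V' * U + V * U' := ⟨_, rfl⟩
  obtain ⟨p, hp⟩ : ∃ p : ℤ, p = K * (Y * Y') + 4 * N * (V * V') + n * (U * U') := ⟨_, rfl⟩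
  have i1 : K * Y ^ 2 = 4 * N * V ^ 2 + n * U ^ 2 := by
    have a1 : U ^ 2 = D * Y ^ 2 + 2 * N := by linarith
    have a2 : 2 * V ^ 2 = Y ^ 2 - n := by linarith
    rw [hK, a1]
    linear_combination (-2 * N) * a2
  have i1' : K * Y' ^ 2 = 4 * N * V' ^ 2 + n * U' ^ 2 := by
    have a1 : U' ^ 2 = D * Y' ^ 2 + 2 * N := by linarith
    have a2 : 2 * V' ^ 2 = Y' ^ 2 - n := by linarith
    rw [hK, a1]
    linear_combination (-2 * N) * a2
  have i2 : m * p = 4 * N * n * W ^ 2 := by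
    have : (K * Y ^ 2) * (K * Y' ^ 2) = (4 * N * V ^ 2 + n * U ^ 2) * (4 * N * V' ^ 2 + n * U' ^ 2) := by
      rw [i1, i1']
    rw [hm, hp, hW]
    linear_combination this
  have i3 : 2 * W * Q = K * (Y' ^ 2 - Y ^ 2) := by
    have a1 : U ^ 2 = D * Y ^ 2 + 2 * N := by linarith
    have a2 : 2 * V ^ 2 = Y ^ 2 - n := by linarith
    have a1' : U' ^ 2 = D * Y' ^ 2 + 2 * N := by linarith
    have a2' : 2 * V' ^ 2 = Y' ^ 2 - n := by linarith
    have b1 : 2 * W * Q = (2 * V' ^ 2) * U ^ 2 - (2 * V ^ 2) * U' ^ 2 := by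
      rw [hW, hQ]
      ring
    rw [b1, a1, a2, a1', a2', hK]
    ring
  have hQ0 : 0 < Q := by
    rw [hQ]
    positivity
  have hW0 : 0 < W := by
    have h : 0 < 2 * W * Q := by
      rw [i3]
      exact mul_pos hK0 (by linarith)
    by_contra hc
    have h' : 2 * W * Q ≤ 0 := mul_nonpos_of_nonpos_of_nonneg (by linarith) hQ0.le
    linarith
  have hp0 : K * (Y * Y') ≤ p := by
    rw [hp]
    have : 0 ≤ 4 * N * (V * V') := by positivity
    have : 0 ≤ n * (U * U') := by positivity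
    linarith
  have hKY : 0 < K * (Y * Y') := by positivity
  have hm0 : 0 < m := by
    have h : 0 < m * p := by
      rw [i2]
      positivity
    by_contra hc
    have h' : m * p ≤ 0 := mul_nonpos_of_nonpos_of_nonneg (by linarith) (by linarith)
    linarith
  refine ⟨hm0, ?_⟩
  have v1 : Y ≤ 2 * V := by
    have : Y ^ 2 ≤ (2 * V) ^ 2 := by nlinarith
    exact (sq_le_sq₀ hY.le (by positivity)).1 this
  have v1' : Y' ≤ 2 * V' := by
    have : Y' ^ 2 ≤ (2 * V') ^ 2 := by nlinarith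
    exact (sq_le_sq₀ hY'.le (by positivity)).1 this
  have u1 : N * Y ≤ U := by
    have : (N * Y) ^ 2 ≤ U ^ 2 := by
      have a1 : U ^ 2 = D * Y ^ 2 + 2 * N := by linarith
      rw [a1, hD]
      nlinarith [sq_nonneg Y]
    exact (sq_le_sq₀ (by positivity) hU.le).1 this
  have u1' : N * Y' ≤ U' := by
    have : (N * Y') ^ 2 ≤ U' ^ 2 := by
      have a1 : U' ^ 2 = D * Y' ^ 2 + 2 * N := by linarith
      rw [a1, hD]
      nlinarith [sq_nonneg Y']
    exact (sq_le_sq₀ (by positivity) hU'.le).1 this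
  have q1 : N * Y * Y' ≤ Q := by
    have c1 : Y' * (N * Y) ≤ (2 * V') * U := mul_le_mul v1' u1 (by positivity) (by positivity)
    have c2 : Y * (N * Y') ≤ (2 * V) * U' := mul_le_mul v1 u1' (by positivity) (by positivity)
    rw [hQ]
    nlinarith
  have w1 : 2 * N * Y * W ≤ K * Y' := by
    have c1 : 2 * W * (N * Y * Y') ≤ 2 * W * Q := mul_le_mul_of_nonneg_left q1 (by positivity)
    have c2 : (2 * N * Y * W) * Y' ≤ (K * Y') * Y' := by
      have : K * (Y' ^ 2 - Y ^ 2) ≤ K * Y' ^ 2 := by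
        have : 0 ≤ K * Y ^ 2 := by positivity
        nlinarith
      calc (2 * N * Y * W) * Y' = 2 * W * (N * Y * Y') := by ring
        _ ≤ 2 * W * Q := c1
        _ = K * (Y' ^ 2 - Y ^ 2) := i3
        _ ≤ K * Y' ^ 2 := this
        _ = (K * Y') * Y' := by ring
    exact le_of_mul_le_mul_right c2 hY'
  have w2 : (2 * N * Y * W) ^ 2 ≤ (K * Y') ^ 2 :=
    pow_le_pow_left₀ (by positivity) w1 2
  have z1 : m * (K * (Y * Y')) ≤ 4 * N * n * W ^ 2 := by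
    rw [← i2]
    exact mul_le_mul_of_nonneg_left hp0 hm0.le
  have z2 : (N * Y ^ 3 * m) * (K * Y') ≤ (n * K * Y') * (K * Y') := by
    calc (N * Y ^ 3 * m) * (K * Y') = (N * Y ^ 2) * (m * (K * (Y * Y'))) := by ring
      _ ≤ (N * Y ^ 2) * (4 * N * n * W ^ 2) := mul_le_mul_of_nonneg_left z1 (by positivity)
      _ = n * (2 * N * Y * W) ^ 2 := by ring
      _ ≤ n * (K * Y') ^ 2 := mul_le_mul_of_nonneg_left w2 (by positivity)
      _ = (n * K * Y') * (K * Y') := by ring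
  exact le_of_mul_le_mul_right z2 (by positivity)

end Pool.Agent.AMO.GAPM

namespace Pool.Agent.AMO

theorem GAP_thm : Stmt_GAP := by
  intro k Y V U Y' V' U' hk h1 h2 hY hbig
  obtain ⟨hY0, hV0, hU0, e1, e2⟩ := h1
  obtain ⟨hY0', hV0', hU0', e1', e2'⟩ := h2
  obtain ⟨⟨n1, n2⟩, ⟨N1, -⟩, -, -, -, -⟩ := siz k hk
  have hk1 : (1 : ℤ) ≤ k := by
    have : (10 : ℤ) ≤ k := by exact_mod_cast hk
    linarith
  have hb : 2 * nn k ≤ Y ^ 2 := by
    have a1 : (k : ℤ) ^ 3 ≤ (k : ℤ) ^ 60 := pow_le_pow_right₀ hk1 (by norm_num)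
    have a2 : nn k ≤ Y := by linarith
    have a3 : (10 : ℤ) ≤ Y := by
      have : (k : ℤ) ^ 1 ≤ (k : ℤ) ^ 60 := pow_le_pow_right₀ hk1 (by norm_num)
      have h10 : (10 : ℤ) ≤ k := by exact_mod_cast hk
      linarith
    nlinarith
  exact GAPM.core (nn k) (NN k) (DD k) (al k + be k) Y V U Y' V' U' (mm k Y V U Y' V' U') n1 N1
    rfl rfl hY0 hV0 hU0 hY0' hV0' hU0' hY hb e1 e2 e1' e2' (by unfold mm be; ring)

end Pool.Agent.AMO
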