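import Pool.Agent.AMO.Stmts

set_option autoImplicit false

namespace Pool.Agent.AMO

namespace J3RM

theorem mulb {a b A B : ℝ} (ha : |a| ≤ A) (hb : |b| ≤ B) : |a * b| ≤ A * B := by
  rw [abs_mul]
  exact mul_le_mul ha hb (abs_nonneg b) ((abs_nonneg a).trans ha)

theorem sum7 (a b c d e f g : ℝ) :
    |a + b + c + d + e + f + g| ≤ |a| + |b| + |c| + |d| + |e| + |f| + |g| := by
  have h1 := abs_add_le (a + b + c + d + e + f) g
  have h2 := abs_add_le (a + b + c + d + e) f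
  have h3 := abs_add_le (a + b + c + d) e
  have h4 := abs_add_le (a + b + c) d
  have h5 := abs_add_le (a + b) c
  have h6 := abs_add_le a b
  linarith

end J3RM

open J3RM in
theorem J3R_thm : Stmt_J3R := by
  intro hTAY α β z w s g s' g' h
  obtain ⟨b1, ba, z0, w0, wz, small, s0, g0, s0', g0', s2, g2, s2', g2'⟩ := h
  have a200 : 200 ≤ α := by linarith
  have a0 : 0 < α := by linarith
  have b0 : 0 < β := by linarith
  have hbz : β ≤ α / 200 := by linarith
  -- α z is small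
  have haz : α * z ≤ 1 / 1000 := by
    have h1 : (1000 : ℝ) ≤ α ^ 3 := by
      have : (200 : ℝ) ^ 3 ≤ α ^ 3 := by gcongr
      linarith
    have h2 : α ^ 3 * (α * z) ≤ 1 := by
      calc α ^ 3 * (α * z) = α ^ 4 * z := by ring
        _ ≤ 1 := small
    have h3 : 0 < α * z := by positivity
    nlinarith
  have haz0 : 0 < α * z := by positivity
  have haw0 : 0 < α * w := by positivity
  have haw : α * w ≤ α * z := by gcongr
  have hbz' : β * z ≤ α * z := by
    have : β ≤ α := by linarith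
    gcongr
  have hbw : β * w ≤ α * z := by
    have : β ≤ α := by linarith
    exact mul_le_mul this wz w0.le a0.le
  have hbz0 : 0 < β * z := by positivity
  have hbw0 : 0 < β * w := by positivity
  obtain ⟨ts1, ts2, -⟩ := hTAY (-(α * z)) s (by rw [abs_neg, abs_of_pos haz0]; linarith) s0
    (by rw [s2]; ring)
  obtain ⟨tg1, tg2, -⟩ := hTAY (β * z) g (by rw [abs_of_pos hbz0]; linarith) g0 g2
  obtain ⟨ts1', -, -⟩ := hTAY (-(α * w)) s' (by rw [abs_neg, abs_of_pos haw0]; linarith) s0'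
    (by rw [s2']; ring)
  obtain ⟨tg1', -, -⟩ := hTAY (β * w) g' (by rw [abs_of_pos hbw0]; linarith) g0' g2'
  have hs1 : s ≤ 1 := by
    refine abs_le_of_sq_le_sq' (by rw [s2, one_pow]; linarith) (by norm_num) |>.2
  have hg2 : g ≤ 2 := by
    refine abs_le_of_sq_le_sq' (by rw [g2]; linarith) (by norm_num) |>.2
  have hsa : |s| ≤ 1 := by rw [abs_of_nonneg s0]; exact hs1
  have hga : |g| ≤ 2 := by rw [abs_of_nonneg g0]; exact hg2
  -- the coefficients
  have hA1 : |(-(β * (4 + (β - 2 * α) * z)))| ≤ β * 5 := by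
    rw [abs_neg]
    refine mulb (abs_of_pos b0).le ?_
    have e : (β - 2 * α) * z = β * z - 2 * (α * z) := by ring
    rw [e, abs_le]
    constructor <;> linarith
  have hA2 : |(-(α * (4 + (2 * β - α) * z)))| ≤ α * 5 := by
    rw [abs_neg]
    refine mulb (abs_of_pos a0).le ?_
    have e : (2 * β - α) * z = 2 * (β * z) - α * z := by ring
    rw [e, abs_le]
    constructor <;> linarith
  -- the difference s - g
  have hsg : |s - g| ≤ α * z := by
    have h1 := abs_le.1 ts1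
    have h2 := abs_le.1 tg1
    have h3 : (-(α * z)) ^ 2 ≤ α * z * (1 / 1000) := by
      calc (-(α * z)) ^ 2 = (α * z) * (α * z) := by ring
        _ ≤ α * z * (1 / 1000) := by gcongr
    have h4 : (β * z) ^ 2 ≤ α * z * (1 / 1000) := by
      calc (β * z) ^ 2 = (β * z) * (β * z) := by ring
        _ ≤ α * z * (1 / 1000) := mul_le_mul hbz' (hbz'.trans haz) hbz0.le haz0.le
    have h5 : β * z ≤ α * z / 200 := by
      calc β * z ≤ α / 200 * z := by gcongr
        _ = α * z / 200 := by ring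
    obtain ⟨h1a, h1b⟩ := h1
    obtain ⟨h2a, h2b⟩ := h2
    rw [abs_le]
    constructor <;> linarith
  have hmix : |(β - 2 * α) * s - (2 * β - α) * g| ≤ 4 * α := by
    have h1 : |(β - 2 * α) * s| ≤ (2 * α) * 1 := by
      refine mulb ?_ hsa
      rw [abs_le]
      constructor <;> linarith
    have h2 : |(2 * β - α) * g| ≤ α * 2 := by
      refine mulb ?_ hga
      rw [abs_le]
      constructor <;> linarith
    have h3 := abs_sub ((β - 2 * α) * s) ((2 * β - α) * g)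
    linarith
  -- the seven terms
  have hid : (α + β) * (4 + (β - α) * z) - β * (4 + (β - 2 * α) * z) * (s * s') -
      α * (4 + (2 * β - α) * z) * (g * g') =
      (α * β / 16 * (α ^ 2 * β - 2 * α ^ 3 - 2 * β ^ 3 + α * β ^ 2)) * z ^ 4 +
      (-(β * (4 + (β - 2 * α) * z))) *
        (s - (1 + -(α * z) / 2 - (-(α * z)) ^ 2 / 8 + (-(α * z)) ^ 3 / 16)) +
      (-(α * (4 + (2 * β - α) * z))) *
        (g - (1 + β * z / 2 - (β * z) ^ 2 / 8 + (β * z) ^ 3 / 16)) +
      (2 * α * β * w) * (s - g) +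
      (α * β * w * z / 2) * ((β - 2 * α) * s - (2 * β - α) * g) +
      (-(β * (4 + (β - 2 * α) * z)) * s) * (s' - (1 + -(α * w) / 2)) +
      (-(α * (4 + (2 * β - α) * z)) * g) * (g' - (1 + β * w / 2)) := by
    ring
  rw [hid]
  refine (sum7 _ _ _ _ _ _ _).trans ?_
  have hb2 : β ^ 2 ≤ α ^ 2 / 40000 := by
    calc β ^ 2 ≤ (α / 200) ^ 2 := by gcongr
      _ = α ^ 2 / 40000 := by ring
  have hzw0 : 0 < z * w := by positivity
  have hw2 : w ^ 2 ≤ z * w := by nlinarith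
  have hz4 : 0 < z ^ 4 := by positivity
  have t1 : |(α * β / 16 * (α ^ 2 * β - 2 * α ^ 3 - 2 * β ^ 3 + α * β ^ 2)) * z ^ 4| ≤
      (α * (α / 200) / 16 * (6 * α ^ 3)) * z ^ 4 := by
    refine mulb (mulb ?_ ?_) (abs_of_pos hz4).le
    · rw [abs_of_pos (by positivity)]
      gcongr
    · have hba : β ≤ α := by linarith
      have q1 : α ^ 2 * β ≤ α ^ 3 := by
        calc α ^ 2 * β ≤ α ^ 2 * α := by gcongr
          _ = α ^ 3 := by ring
      have q2 : β ^ 3 ≤ α ^ 3 := by gcongr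
      have q3 : α * β ^ 2 ≤ α ^ 3 := by
        calc α * β ^ 2 ≤ α * α ^ 2 := by gcongr
          _ = α ^ 3 := by ring
      have q4 : 0 < α ^ 2 * β := by positivity
      have q5 : 0 < β ^ 3 := by positivity
      have q6 : 0 < α * β ^ 2 := by positivity
      have q7 : 0 < α ^ 3 := by positivity
      rw [abs_le]
      constructor <;> linarith
  have t2 : |(-(β * (4 + (β - 2 * α) * z))) *
      (s - (1 + -(α * z) / 2 - (-(α * z)) ^ 2 / 8 + (-(α * z)) ^ 3 / 16))| ≤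
      (β * 5) * (-(α * z)) ^ 4 := mulb hA1 ts2
  have t2' : (β * 5) * (-(α * z)) ^ 4 ≤ (α / 200 * 5) * (α ^ 4 * z ^ 4) := by
    have : (-(α * z)) ^ 4 = α ^ 4 * z ^ 4 := by ring
    rw [this]
    gcongr
  have t3 : |(-(α * (4 + (2 * β - α) * z))) *
      (g - (1 + β * z / 2 - (β * z) ^ 2 / 8 + (β * z) ^ 3 / 16))| ≤
      (α * 5) * (β * z) ^ 4 := mulb hA2 tg2
  have t3' : (α * 5) * (β * z) ^ 4 ≤ (α * 5) * ((α / 200) * z) ^ 4 := by
    gcongr
  have t4 : |(2 * α * β * w) * (s - g)| ≤ (2 * α * (α / 200) * w) * (α * z) := by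
    refine mulb ?_ hsg
    rw [abs_of_pos (by positivity)]
    gcongr
  have t5 : |(α * β * w * z / 2) * ((β - 2 * α) * s - (2 * β - α) * g)| ≤
      (α * (α / 200) * w * z / 2) * (4 * α) := by
    refine mulb ?_ hmix
    rw [abs_of_pos (by positivity)]
    gcongr
  have t6 : |(-(β * (4 + (β - 2 * α) * z)) * s) * (s' - (1 + -(α * w) / 2))| ≤
      (β * 5 * 1) * (-(α * w)) ^ 2 := mulb (mulb hA1 hsa) ts1'
  have t6' : (β * 5 * 1) * (-(α * w)) ^ 2 ≤ (α / 200 * 5) * (α ^ 2 * (z * w)) := by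
    have : (-(α * w)) ^ 2 = α ^ 2 * w ^ 2 := by ring
    rw [this, mul_one]
    gcongr
  have t7 : |(-(α * (4 + (2 * β - α) * z)) * g) * (g' - (1 + β * w / 2))| ≤
      (α * 5 * 2) * (β * w) ^ 2 := mulb (mulb hA2 hga) tg1'
  have t7' : (α * 5 * 2) * (β * w) ^ 2 ≤ (α * 5 * 2) * ((α ^ 2 / 40000) * (z * w)) := by
    rw [mul_pow]
    gcongr
  have f1 : α ^ 5 * z ^ 4 ≤ α ^ 6 * z ^ 4 := by
    have : α ^ 5 ≤ α ^ 6 := pow_le_pow_right₀ (by linarith) (by norm_num)
    gcongr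
  have f2 : α ^ 3 * (z * w) ≤ α ^ 6 * (z * w) := by
    have : α ^ 3 ≤ α ^ 6 := pow_le_pow_right₀ (by linarith) (by norm_num)
    gcongr
  have f3 : 0 < α ^ 5 * z ^ 4 := by positivity
  have f4 : 0 < α ^ 3 * (z * w) := by positivity
  have e1 : (α * (α / 200) / 16 * (6 * α ^ 3)) * z ^ 4 = (3 / 1600) * (α ^ 5 * z ^ 4) := by ring
  have e2 : (α / 200 * 5) * (α ^ 4 * z ^ 4) = (1 / 40) * (α ^ 5 * z ^ 4) := by ring
  have e3 : (α * 5) * ((α / 200) * z) ^ 4 = (5 / 200 ^ 4) * (α ^ 5 * z ^ 4) := by ring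
  have e4 : (2 * α * (α / 200) * w) * (α * z) = (1 / 100) * (α ^ 3 * (z * w)) := by ring
  have e5 : (α * (α / 200) * w * z / 2) * (4 * α) = (1 / 100) * (α ^ 3 * (z * w)) := by ring
  have e6 : (α / 200 * 5) * (α ^ 2 * (z * w)) = (1 / 40) * (α ^ 3 * (z * w)) := by ring
  have e7 : (α * 5 * 2) * ((α ^ 2 / 40000) * (z * w)) = (1 / 4000) * (α ^ 3 * (z * w)) := by
    ring
  rw [e1] at t1
  rw [e2] at t2'
  rw [e3] at t3'
  rw [e4] at t4
  rw [e5] at t5
  rw [e6] at t6'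
  rw [e7] at t7'
  have f5 : α ^ 6 * (z ^ 4 + z * w) = α ^ 6 * z ^ 4 + α ^ 6 * (z * w) := by ring
  rw [f5]
  linarith

end Pool.Agent.AMO
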