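import Pool.Agent.AMO.Stmts

/-!
# Module J3Z: the third integer form vanishes
-/

set_option autoImplicit false

namespace Pool.Agent.AMO

namespace J3ZM

/-- The form as a multiple of the real form. -/
theorem form_eq (k : ℕ) (Y V U Y' V' U' : ℤ) (s g s' g' X z : ℝ) (hX : X = DD k * (Y : ℝ) ^ 2)
    (h0 : X * z = 1) (hs : (Y : ℝ) * Y' * (s * s') = 2 * V * V')
    (hg : (DD k : ℝ) * ((Y : ℝ) * Y' * (g * g')) = U * U') :
    ((jj k Y V U Y' V' U' : ℤ) : ℝ) = X * ((Y : ℝ) * Y') *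
      (((al k : ℝ) + be k) * (4 + ((be k : ℝ) - al k) * z) -
        be k * (4 + ((be k : ℝ) - 2 * al k) * z) * (s * s') -
        al k * (4 + (2 * (be k : ℝ) - al k) * z) * (g * g')) := by
  have hα : (al k : ℝ) = nn k * DD k := by
    unfold al
    push_cast
    ring
  have hj : ((jj k Y V U Y' V' U' : ℤ) : ℝ) =
      ((al k : ℝ) + be k) * (4 * X + be k - al k) * ((Y : ℝ) * Y') -
        2 * be k * (4 * X + be k - 2 * al k) * ((V : ℝ) * V') -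
        nn k * (4 * X + 2 * be k - al k) * ((U : ℝ) * U') := by
    unfold jj
    push_cast
    rw [hX]
  rw [hj]
  linear_combination (-(((al k : ℝ) + be k) * (be k - al k) * ((Y : ℝ) * Y') -
      be k * ((be k : ℝ) - 2 * al k) * ((Y : ℝ) * Y' * (s * s')) -
      al k * (2 * (be k : ℝ) - al k) * ((Y : ℝ) * Y' * (g * g')))) * h0 +
    be k * (4 * X + be k - 2 * al k) * hs + nn k * (4 * X + 2 * be k - al k) * hg +
    (4 * X + 2 * be k - al k) * ((Y : ℝ) * Y' * (g * g')) * hα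

/-- The sizes. -/
theorem bound (K D α Y Y' : ℝ) (hK : 10 ≤ K) (hD : 1 ≤ D) (hα : 0 ≤ α) (hα5 : α ≤ K ^ 5)
    (hY : 0 < Y) (hY' : 0 < Y') (h1 : K ^ 60 * Y ≤ Y') (h2 : K ^ 60 * Y' ≤ Y ^ 5) :
    (D * Y ^ 2) * (Y * Y') * (α ^ 6 * ((1 / (D * Y ^ 2)) ^ 4 +
      (1 / (D * Y ^ 2)) * (1 / (D * Y' ^ 2)))) < 1 := by
  have hK0 : 0 < K := by linarith
  have hD0 : 0 < D := by linarith
  have hX : 0 < D * Y ^ 2 := by positivity
  have hXY : Y ^ 2 ≤ D * Y ^ 2 := le_mul_of_one_le_left (by positivity) hD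
  have hXY' : Y' ^ 2 ≤ D * Y' ^ 2 := le_mul_of_one_le_left (by positivity) hD
  have e1 : (D * Y ^ 2) * (Y * Y') * (α ^ 6 * ((1 / (D * Y ^ 2)) ^ 4 +
      (1 / (D * Y ^ 2)) * (1 / (D * Y' ^ 2)))) =
      α ^ 6 * (Y * Y' * (1 / (D * Y ^ 2)) ^ 3 + Y * Y' * (1 / (D * Y' ^ 2))) := by
    field_simp
  rw [e1]
  have a1 : Y * Y' * (1 / (D * Y ^ 2)) ^ 3 ≤ (K ^ 60)⁻¹ := by
    have b1 : (1 / (D * Y ^ 2)) ^ 3 ≤ (1 / Y ^ 2) ^ 3 :=
      pow_le_pow_left₀ (by positivity) (one_div_le_one_div_of_le (by positivity) hXY) 3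
    have b2 : Y * Y' * (1 / Y ^ 2) ^ 3 = Y' / Y ^ 5 := by
      field_simp
    have b3 : Y' / Y ^ 5 ≤ (K ^ 60)⁻¹ := by
      rw [div_le_iff₀ (by positivity), inv_mul_eq_div, le_div_iff₀ (by positivity)]
      linarith
    calc Y * Y' * (1 / (D * Y ^ 2)) ^ 3 ≤ Y * Y' * (1 / Y ^ 2) ^ 3 :=
          mul_le_mul_of_nonneg_left b1 (by positivity)
      _ = Y' / Y ^ 5 := b2
      _ ≤ _ := b3
  have a2 : Y * Y' * (1 / (D * Y' ^ 2)) ≤ (K ^ 60)⁻¹ := by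
    have b1 : 1 / (D * Y' ^ 2) ≤ 1 / Y' ^ 2 := one_div_le_one_div_of_le (by positivity) hXY'
    have b2 : Y * Y' * (1 / Y' ^ 2) = Y / Y' := by
      field_simp
    have b3 : Y / Y' ≤ (K ^ 60)⁻¹ := by
      rw [div_le_iff₀ (by positivity), inv_mul_eq_div, le_div_iff₀ (by positivity)]
      linarith
    calc Y * Y' * (1 / (D * Y' ^ 2)) ≤ Y * Y' * (1 / Y' ^ 2) :=
          mul_le_mul_of_nonneg_left b1 (by positivity)
      _ = Y / Y' := b2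
      _ ≤ _ := b3
  have a3 : α ^ 6 ≤ K ^ 30 := by
    calc α ^ 6 ≤ (K ^ 5) ^ 6 := pow_le_pow_left₀ hα hα5 6
      _ = K ^ 30 := by ring
  have a4 : α ^ 6 * (Y * Y' * (1 / (D * Y ^ 2)) ^ 3 + Y * Y' * (1 / (D * Y' ^ 2))) ≤
      K ^ 30 * ((K ^ 60)⁻¹ + (K ^ 60)⁻¹) :=
    mul_le_mul a3 (add_le_add a1 a2) (by positivity) (by positivity)
  have a5 : K ^ 30 * ((K ^ 60)⁻¹ + (K ^ 60)⁻¹) = 2 / K ^ 30 := by
    field_simp
    ring
  have a6 : 2 < K ^ 30 := by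
    have b1 : K ≤ K ^ 30 := le_self_pow₀ (by linarith) (by norm_num)
    linarith
  have a7 : 2 / K ^ 30 < 1 := by
    rw [div_lt_one (by positivity)]
    exact a6
  linarith

end J3ZM

open J3ZM in
theorem J3Z_thm : Stmt_J3Z := by
  intro hT hF hJ k Y V U Y' V' U' hk hS hS' hYY hkY h1 h2
  obtain ⟨s, g, s', g', hFr, hs, hg⟩ := hF k Y V U Y' V' U' hk hS hS' hYY hkY
  have hb := hJ hT _ _ _ _ _ _ _ _ hFr
  obtain ⟨-, -, ⟨hD1, -⟩, ⟨hb1, -⟩, ⟨hab, ha5⟩, -⟩ := siz k hk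
  have hK : (10 : ℝ) ≤ k := by exact_mod_cast hk
  have hD : (1 : ℝ) ≤ (DD k : ℝ) := by exact_mod_cast hD1
  have hY : (0 : ℝ) < Y := by exact_mod_cast hS.1
  have hY' : (0 : ℝ) < Y' := by exact_mod_cast hS'.1
  have hα0 : (0 : ℝ) ≤ (al k : ℝ) := by
    have : (0 : ℤ) ≤ al k := by linarith
    exact_mod_cast this
  have hα5 : (al k : ℝ) ≤ (k : ℝ) ^ 5 := by exact_mod_cast ha5
  have h1' : (k : ℝ) ^ 60 * Y ≤ Y' := by exact_mod_cast h1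
  have h2' : (k : ℝ) ^ 60 * Y' ≤ (Y : ℝ) ^ 5 := by exact_mod_cast h2
  have hX : (0 : ℝ) < (DD k : ℝ) * (Y : ℝ) ^ 2 := by positivity
  have hform := form_eq k Y V U Y' V' U' s g s' g' ((DD k : ℝ) * (Y : ℝ) ^ 2)
    (1 / ((DD k : ℝ) * (Y : ℝ) ^ 2)) rfl (mul_one_div_cancel hX.ne') hs hg
  have hlt : |((jj k Y V U Y' V' U' : ℤ) : ℝ)| < 1 := by
    rw [hform, abs_mul, abs_of_pos (by positivity : (0 : ℝ) <
      (DD k : ℝ) * (Y : ℝ) ^ 2 * ((Y : ℝ) * Y'))]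
    exact lt_of_le_of_lt (mul_le_mul_of_nonneg_left hb (by positivity))
      (bound k (DD k) (al k) Y Y' hK hD hα0 hα5 hY hY' h1' h2')
  have h3 : |jj k Y V U Y' V' U'| < 1 := by
    have h4 : ((|jj k Y V U Y' V' U'| : ℤ) : ℝ) < 1 := by
      rw [Int.cast_abs]
      exact hlt
    exact_mod_cast h4
  exact Int.abs_lt_one_iff.1 h3

end Pool.Agent.AMO
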