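import Pool.Agent.AMO.Stmts

/-!
# MD3: impossible modulo 3
-/

set_option autoImplicit false

namespace Pool.Agent.AMO

namespace MD3M

lemma poly : ∀ x : ZMod 3, ((2 * x ^ 2 - 1) * ((2 * x + 1) ^ 2 + 1)) ^ 2 +
    ((2 * x ^ 2 - 1) * ((2 * x + 1) ^ 2 + 1)) * (2 * (2 * x + 1)) + (2 * (2 * x + 1)) ^ 2 ≠ 0 := by
  decide

lemma not_dvd (k : ℕ) : ¬ (3 : ℤ) ∣ al k ^ 2 + al k * be k + be k ^ 2 := by
  intro h
  have h1 : ((al k ^ 2 + al k * be k + be k ^ 2 : ℤ) : ZMod 3) = 0 :=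
    (ZMod.intCast_zmod_eq_zero_iff_dvd _ 3).2 (by exact_mod_cast h)
  refine poly (k : ZMod 3) ?_
  rw [← h1]
  unfold al be nn DD NN
  push_cast
  ring

end MD3M

open MD3M

theorem MD3_thm : Stmt_MD3 := by
  intro k m hk h
  have : Fact (Nat.Prime 3) := ⟨Nat.prime_three⟩
  have hk1 : (1 : ℤ) ≤ k := by exact_mod_cast hk
  have hn : nn k ≠ 0 := by
    unfold nn
    nlinarith
  have hN : NN k ≠ 0 := by
    unfold NN
    linarith
  have hK : al k + be k ≠ 0 := by
    rw [al_add_be]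
    positivity
  have hR : nn k * NN k * (al k + be k) ≠ 0 := mul_ne_zero (mul_ne_zero hn hN) hK
  set R := nn k * NN k * (al k + be k) with hRdef
  set Q := al k ^ 2 + al k * be k + be k ^ 2 with hQdef
  have hQ : ¬ (3 : ℤ) ∣ Q := not_dvd k
  have hQ0 : Q ≠ 0 := by
    intro h0
    rw [h0] at hQ
    exact hQ (dvd_zero 3)
  have hm : m ≠ 0 := by
    intro h0
    rw [h0] at h
    have : 3 * R ^ 2 = 0 := by
      rw [← h]
      ring
    have h2 : R ^ 2 = 0 := by linarith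
    exact hR (pow_eq_zero_iff (by norm_num) |>.1 h2)
  have h1 : padicValInt 3 (m ^ 2 * Q) = padicValInt 3 m + padicValInt 3 m := by
    have h3 : padicValInt 3 Q = 0 := padicValInt.eq_zero_of_not_dvd (by exact_mod_cast hQ)
    rw [padicValInt.mul (pow_ne_zero 2 hm) hQ0, sq, padicValInt.mul hm hm, h3, add_zero]
  have h2 : padicValInt 3 (3 * R ^ 2) = 1 + (padicValInt 3 R + padicValInt 3 R) := by
    rw [padicValInt.mul (by norm_num) (pow_ne_zero 2 hR), sq, padicValInt.mul hR hR]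
    congr 1
    exact padicValInt_self (p := 3)
  rw [h, h2] at h1
  omega

end Pool.Agent.AMO
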