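import Pool.Agent.AMO.Stmts

/-!
# AMO, module NOD: the series of one node
-/

set_option autoImplicit false

namespace Pool.Agent.AMO

namespace NODM

/-- the `i`-th part of the series of one node -/
theorem part_hasSum (hBNI : Stmt_BNI) (hBSR : Stmt_BSR) (n : ℕ) (a u v z θ : ℝ)
    (haz : |a * z| ≤ 1 / 2) (hθ : 0 ≤ θ) (hθ2 : θ ^ 2 = 1 + a * z) (i : ℕ) (hi : i ≤ n) :
    HasSum (fun h : ℕ => bn n h * z ^ h * ((h.choose i : ℝ) * a ^ (h - i) * ee n u v (n - i)))
      (bn n i * z ^ i * (1 + a * z) ^ (n - i) * ee n u v (n - i) * θ) := by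
  have h1 := (hBSR (n - i) (a * z) θ haz hθ hθ2).mul_left (bn n i * z ^ i * ee n u v (n - i))
  have h2 : HasSum (fun l : ℕ => (fun h : ℕ => bn n h * z ^ h *
      ((h.choose i : ℝ) * a ^ (h - i) * ee n u v (n - i))) (l + i))
      (bn n i * z ^ i * (1 + a * z) ^ (n - i) * ee n u v (n - i) * θ) := by
    have e : (fun l : ℕ => (fun h : ℕ => bn n h * z ^ h *
        ((h.choose i : ℝ) * a ^ (h - i) * ee n u v (n - i))) (l + i)) =
        fun l : ℕ => bn n i * z ^ i * ee n u v (n - i) * (bn (n - i) l * (a * z) ^ l) := by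
      funext l
      have hb := hBNI n (l + i) i hi (Nat.le_add_left i l)
      rw [Nat.add_sub_cancel] at hb
      show bn n (l + i) * z ^ (l + i) *
        (((l + i).choose i : ℝ) * a ^ (l + i - i) * ee n u v (n - i)) = _
      rw [Nat.add_sub_cancel, pow_add, mul_pow]
      calc bn n (l + i) * (z ^ l * z ^ i) * (((l + i).choose i : ℝ) * a ^ l * ee n u v (n - i))
          = (bn n (l + i) * ((l + i).choose i : ℝ)) * (z ^ l * z ^ i) * a ^ l
              * ee n u v (n - i) := by ring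
        _ = (bn n i * bn (n - i) l) * (z ^ l * z ^ i) * a ^ l * ee n u v (n - i) := by rw [hb]
        _ = _ := by ring
    have e3 : bn n i * z ^ i * (1 + a * z) ^ (n - i) * ee n u v (n - i) * θ =
        bn n i * z ^ i * ee n u v (n - i) * ((1 + a * z) ^ (n - i) * θ) := by ring
    rw [e, e3]
    exact h1
  have h3 := (hasSum_nat_add_iff (f := fun h : ℕ => bn n h * z ^ h *
      ((h.choose i : ℝ) * a ^ (h - i) * ee n u v (n - i))) i).1 h2
  have h4 : ∑ j ∈ Finset.range i, bn n j * z ^ j *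
      ((j.choose i : ℝ) * a ^ (j - i) * ee n u v (n - i)) = 0 := by
    apply Finset.sum_eq_zero
    intro j hj
    rw [Nat.choose_eq_zero_of_lt (Finset.mem_range.1 hj)]
    simp
  rw [h4, add_zero] at h3
  exact h3

end NODM

theorem NOD_thm : Stmt_NOD := by
  intro hBNI hBSR n a u v z θ haz hθ hθ2
  have h := hasSum_sum (s := Finset.range (n + 1)) (fun i hi =>
    NODM.part_hasSum hBNI hBSR n a u v z θ haz hθ hθ2 i
      (Nat.lt_succ_iff.1 (Finset.mem_range.1 hi)))
  have e1 : (fun h : ℕ => bn n h * z ^ h * EE n h a u v) = fun h : ℕ =>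
      ∑ i ∈ Finset.range (n + 1), bn n h * z ^ h *
        ((h.choose i : ℝ) * a ^ (h - i) * ee n u v (n - i)) := by
    funext h
    rw [EE, Finset.mul_sum]
  have e2 : AA n a u v z * θ = ∑ i ∈ Finset.range (n + 1),
      bn n i * z ^ i * (1 + a * z) ^ (n - i) * ee n u v (n - i) * θ := by
    rw [AA, Finset.sum_mul]
  rw [e1, e2]
  exact h

end Pool.Agent.AMO
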