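import Pool.Agent.AMO.Stmts

/-!
# At most one irregular extension: bound of the remainder
-/

set_option autoImplicit false

namespace Pool.Agent.AMO

namespace REMM

theorem sum_choose_le (n h : ℕ) : (∑ i ∈ Finset.range (n + 1), (h.choose i : ℝ)) ≤ 2 ^ h := by
  have e : (∑ i ∈ Finset.range (h + 1), (h.choose i : ℝ)) = 2 ^ h := by
    exact_mod_cast Nat.sum_range_choose h
  rw [← e]
  calc (∑ i ∈ Finset.range (n + 1), (h.choose i : ℝ))
      = ∑ i ∈ Finset.range (n + 1) ∩ Finset.range (h + 1), (h.choose i : ℝ) := by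
        refine (Finset.sum_subset Finset.inter_subset_left fun i hi hni => ?_).symm
        have : h < i := by
          by_contra hcon
          exact hni (Finset.mem_inter.2 ⟨hi, Finset.mem_range.2 (by omega)⟩)
        rw [Nat.choose_eq_zero_of_lt this, Nat.cast_zero]
    _ ≤ _ := Finset.sum_le_sum_of_subset_of_nonneg Finset.inter_subset_right
        fun i _ _ => Nat.cast_nonneg _

theorem EE_le (hE : Stmt_EEB) (n h : ℕ) {α a u v : ℝ} (hα : 1 ≤ α) (ha : |a| ≤ α) (hu : 1 ≤ |u|)
    (hv : 1 ≤ |v|) : |EE n h a u v| ≤ 2 ^ h * α ^ h * 2 ^ (3 * n + 1) := by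
  have h0 : (0 : ℝ) ≤ α := by linarith
  unfold EE
  calc |∑ i ∈ Finset.range (n + 1), (h.choose i : ℝ) * a ^ (h - i) * ee n u v (n - i)|
      ≤ ∑ i ∈ Finset.range (n + 1), |(h.choose i : ℝ) * a ^ (h - i) * ee n u v (n - i)| :=
        Finset.abs_sum_le_sum_abs _ _
    _ ≤ ∑ i ∈ Finset.range (n + 1), (h.choose i : ℝ) * (α ^ h * 2 ^ (3 * n + 1)) := by
        refine Finset.sum_le_sum fun i _ => ?_
        rw [abs_mul, abs_mul, abs_pow, Nat.abs_cast, mul_assoc]
        refine mul_le_mul_of_nonneg_left ?_ (Nat.cast_nonneg _)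
        refine mul_le_mul ?_ ?_ (abs_nonneg _) (by positivity)
        · exact (pow_le_pow_left₀ (abs_nonneg a) ha _).trans
            (pow_le_pow_right₀ hα (Nat.sub_le _ _))
        · refine (hE n (n - i) u v 1 one_pos hu hv).trans ?_
          rw [one_pow, inv_one, mul_one]
          exact pow_le_pow_right₀ (by norm_num) (by omega)
    _ = (∑ i ∈ Finset.range (n + 1), (h.choose i : ℝ)) * (α ^ h * 2 ^ (3 * n + 1)) := by
        rw [Finset.sum_mul]
    _ ≤ 2 ^ h * (α ^ h * 2 ^ (3 * n + 1)) :=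
        mul_le_mul_of_nonneg_right (sum_choose_le n h) (by positivity)
    _ = _ := by ring

end REMM

open REMM in
theorem REM_thm : Stmt_REM := by
  intro hB hE hV hN hI hS n α β z w s g s' g' F
  have hβ := F.b1
  have hα := F.ba
  have hz := F.z0
  have hsm := F.small
  have hα1 : (200 : ℝ) ≤ α := by linarith
  have hα0 : (0 : ℝ) < α := by linarith
  have hβ0 : (0 : ℝ) < β := by linarith
  have hq : α * z ≤ 1 / 4 := by
    have h3 : (200 : ℝ) ^ 3 ≤ α ^ 3 := pow_le_pow_left₀ (by norm_num) hα1 3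
    have h4 : α ^ 4 * z = α ^ 3 * (α * z) := by ring
    have h5 : (0 : ℝ) < α * z := by positivity
    rw [h4] at hsm
    nlinarith
  have hβz : β * z ≤ 1 / 4 := by nlinarith
  have hβz0 : 0 < β * z := by positivity
  have hαz0 : 0 < α * z := by positivity
  have S0 := hN hI hS n 0 α (-β) z 1 (by norm_num) (by norm_num) (by norm_num)
  have S1 := hN hI hS n (-α) (-α) (-α - β) z s
    (by rw [neg_mul, abs_neg, abs_of_pos hαz0]; linarith) F.s0 (by rw [F.s2]; ring)
  have S2 := hN hI hS n β β (β + α) z g (by rw [abs_of_pos hβz0]; linarith) F.g0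
    (by rw [F.g2])
  have hsum := (S0.add S1).add S2
  rw [mul_one] at hsum
  set f : ℕ → ℝ := fun h => bn n h * z ^ h * EE n h 0 α (-β) +
    bn n h * z ^ h * EE n h (-α) (-α) (-α - β) + bn n h * z ^ h * EE n h β β (β + α) with hf
  set S : ℝ := AA n 0 α (-β) z + AA n (-α) (-α) (-α - β) z * s + AA n β β (β + α) z * g with hSdef
  have hfe : ∀ h, f h = bn n h * z ^ h * (EE n h 0 α (-β) + EE n h (-α) (-α) (-α - β) +
      EE n h β β (β + α)) := fun h => by rw [hf]; ring
  have hsum' : HasSum f S := hsum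
  have hz0 : ∀ h ∈ Finset.range (3 * n + 2), f h = 0 := fun h hh => by
    rw [hfe, hV n h α β hα0 hβ0 (Finset.mem_range.1 hh), mul_zero]
  have hshift : HasSum (fun h => f (h + (3 * n + 2))) S := by
    rw [hasSum_nat_add_iff (3 * n + 2), Finset.sum_eq_zero hz0, add_zero]
    exact hsum'
  set q : ℝ := 2 * (α * z) with hqdef
  have hq0 : 0 < q := by positivity
  have hq1 : q ≤ 1 / 2 := by linarith
  set C : ℝ := 3 * 2 ^ (4 * n + 2) with hC
  have hC0 : 0 < C := by positivity
  have hb : ∀ h, |f h| ≤ C * q ^ h := by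
    intro h
    rw [hfe, abs_mul, abs_mul, abs_pow, abs_of_pos hz]
    have e0 : |EE n h 0 α (-β)| ≤ 2 ^ h * α ^ h * 2 ^ (3 * n + 1) :=
      EE_le hE n h (by linarith) (by rw [abs_zero]; linarith) (by rw [abs_of_pos hα0]; linarith)
        (by rw [abs_neg, abs_of_pos hβ0]; exact hβ)
    have e1 : |EE n h (-α) (-α) (-α - β)| ≤ 2 ^ h * α ^ h * 2 ^ (3 * n + 1) :=
      EE_le hE n h (by linarith) (by rw [abs_neg, abs_of_pos hα0])
        (by rw [abs_neg, abs_of_pos hα0]; linarith)
        (by rw [show -α - β = -(α + β) by ring, abs_neg, abs_of_pos (by linarith)]; linarith)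
    have e2 : |EE n h β β (β + α)| ≤ 2 ^ h * α ^ h * 2 ^ (3 * n + 1) :=
      EE_le hE n h (by linarith) (by rw [abs_of_pos hβ0]; linarith)
        (by rw [abs_of_pos hβ0]; exact hβ) (by rw [abs_of_pos (by linarith)]; linarith)
    have e3 : |EE n h 0 α (-β) + EE n h (-α) (-α) (-α - β) + EE n h β β (β + α)| ≤
        3 * (2 ^ h * α ^ h * 2 ^ (3 * n + 1)) := by
      refine (abs_add_three _ _ _).trans ?_
      linarith
    calc |bn n h| * z ^ h * |EE n h 0 α (-β) + EE n h (-α) (-α) (-α - β) + EE n h β β (β + α)|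
        ≤ 2 ^ (n + 1) * z ^ h * (3 * (2 ^ h * α ^ h * 2 ^ (3 * n + 1))) :=
          mul_le_mul (mul_le_mul_of_nonneg_right (hB n h).2 (by positivity)) e3 (abs_nonneg _)
            (by positivity)
      _ = C * q ^ h := by
          rw [hC, hqdef, mul_pow, mul_pow, show 4 * n + 2 = (n + 1) + (3 * n + 1) by ring, pow_add]
          ring
  have hgeo : HasSum (fun h : ℕ => C * q ^ (3 * n + 2) * q ^ h)
      (C * q ^ (3 * n + 2) * (1 - q)⁻¹) :=
    (hasSum_geometric_of_lt_one hq0.le (by linarith)).mul_left _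
  have hnorm := HasSum.norm_le_of_bounded hshift hgeo (fun h => by
    rw [Real.norm_eq_abs]
    refine (hb _).trans (le_of_eq ?_)
    rw [pow_add]
    ring)
  rw [Real.norm_eq_abs] at hnorm
  refine hnorm.trans ?_
  have hinv : (1 - q)⁻¹ ≤ 2 := by
    rw [inv_le_comm₀ (by linarith) (by norm_num)]
    linarith
  have hp : 0 < q ^ (3 * n + 2) := by positivity
  calc C * q ^ (3 * n + 2) * (1 - q)⁻¹ ≤ C * q ^ (3 * n + 2) * 2 :=
        mul_le_mul_of_nonneg_left hinv (by positivity)
    _ = 3 * 2 ^ (7 * n + 5) * (α * z) ^ (3 * n + 2) := by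
        rw [hC, hqdef, mul_pow, show 7 * n + 5 = (4 * n + 2) + (3 * n + 2) + 1 by ring, pow_add,
          pow_add]
        ring
    _ ≤ 128 ^ (n + 1) * (α * z) ^ (3 * n + 2) := by
        refine mul_le_mul_of_nonneg_right ?_ (by positivity)
        have : (128 : ℝ) ^ (n + 1) = 4 * 2 ^ (7 * n + 5) := by
          rw [show (128 : ℝ) = 2 ^ 7 by norm_num, ← pow_mul, show 7 * (n + 1) = 2 + (7 * n + 5) by ring,
            pow_add]
          norm_num
        rw [this]
        have h2 : (0 : ℝ) < 2 ^ (7 * n + 5) := by positivity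
        linarith

end Pool.Agent.AMO
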