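import Pool.Agent.AMO.Stmts

/-!
# At most one irregular extension: module SZF

The sizes of the solutions.
-/

set_option autoImplicit false

namespace Pool.Agent.AMO

namespace SZFM

theorem log_sq_le {x : ℝ} (hx : 1 ≤ x) : Real.log x ^ 2 ≤ 4 * x := by
  have h0 : 0 < √x := Real.sqrt_pos.2 (by linarith)
  have h1 : Real.log x = 2 * Real.log √x := by
    rw [Real.log_sqrt (by linarith)]
    ring
  have h2 : Real.log √x ≤ √x := by linarith [Real.log_le_sub_one_of_pos h0]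
  have h3 : 0 ≤ Real.log √x := Real.log_nonneg (by
    rw [show (1 : ℝ) = √1 by simp]
    exact Real.sqrt_le_sqrt hx)
  have h4 : √x ^ 2 = x := Real.sq_sqrt (by linarith)
  rw [h1]
  nlinarith

end SZFM

theorem SZF_thm : Stmt_SZF := by
  intro k d d' Y Y' hk hY hY' h1 h2 h3 h4
  have hk1 : (1 : ℤ) ≤ k := by exact_mod_cast (by omega : 1 ≤ k)
  have h5 : (k : ℤ) ^ 5000 ≤ Y := by
    have e1 : ((k : ℤ) ^ 5000) ^ 2 ≤ Y ^ 2 := by
      have e2 : (k : ℤ) ^ 10000 ≤ (k : ℤ) ^ 10001 := pow_le_pow_right₀ hk1 (by norm_num)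
      have e3 : (1 : ℤ) ≤ (k : ℤ) ^ 10001 := one_le_pow₀ hk1
      rw [← pow_mul, show 5000 * 2 = 10000 from rfl, h1]
      linarith
    exact (pow_le_pow_iff_left₀ (by positivity) hY.le two_ne_zero).1 e1
  refine ⟨h5, ?_⟩
  have hkr : (2 : ℝ) ≤ k := by exact_mod_cast hk
  have hk0 : (0 : ℝ) < k := by linarith
  have hL : Real.log 2 ≤ Real.log k := Real.log_le_log (by norm_num) hkr
  have hL0 : 0 < Real.log k := Real.log_pos (by linarith)
  have hL2 := SZFM.log_sq_le (by linarith : (1 : ℝ) ≤ k)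
  have h6 : (Y' : ℝ) < 2 * Real.exp (Real.log k ^ 3) := by
    have e1 : (1 : ℝ) ≤ Y' := by exact_mod_cast hY'
    have e2 : (Y' : ℝ) ^ 2 = 2 * d' - 1 := by exact_mod_cast h2
    nlinarith
  have h7 : Real.log 2 + Real.log k ^ 3 ≤ ((5000 * (2 * k + 3) : ℕ) : ℝ) * Real.log k := by
    have e1 : Real.log k ^ 3 ≤ 4 * k * Real.log k := by
      have := mul_le_mul_of_nonneg_right hL2 hL0.le
      linarith [this, show Real.log k ^ 3 = Real.log k ^ 2 * Real.log k by ring]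
    have e2 : 0 ≤ (k : ℝ) * Real.log k := by positivity
    push_cast
    linarith
  have h8 : 2 * Real.exp (Real.log k ^ 3) ≤ (k : ℝ) ^ (5000 * (2 * k + 3)) := by
    rw [← Real.exp_log (by norm_num : (0 : ℝ) < 2), ← Real.exp_add]
    refine (Real.exp_le_exp.2 h7).trans ?_
    rw [Real.exp_nat_mul, Real.exp_log hk0]
  have h9 : (k : ℝ) ^ (5000 * (2 * k + 3)) ≤ (Y : ℝ) ^ (2 * k + 3) := by
    have e1 : (k : ℝ) ^ 5000 ≤ Y := by exact_mod_cast h5
    rw [pow_mul]
    exact pow_le_pow_left₀ (by positivity) e1 _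
  have h10 : (Y' : ℝ) < (Y : ℝ) ^ (2 * k + 3) := h6.trans_le (h8.trans h9)
  exact_mod_cast h10

end Pool.Agent.AMO
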