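import Pool.Agent.AMO.Stmts

/-!
# Module TAY: Taylor bounds for the square root
-/

set_option autoImplicit false

namespace Pool.Agent.AMO

namespace TAYM

theorem diff_le {θ q E : ℝ} (h : 1 ≤ θ + q) (he : |θ ^ 2 - q ^ 2| ≤ E) : |θ - q| ≤ E := by
  have h1 : |θ ^ 2 - q ^ 2| = |θ - q| * (θ + q) := by
    rw [show θ ^ 2 - q ^ 2 = (θ - q) * (θ + q) by ring, abs_mul,
      abs_of_pos (show (0 : ℝ) < θ + q by linarith)]
  have h2 : |θ - q| ≤ |θ - q| * (θ + q) := le_mul_of_one_le_right (abs_nonneg _) h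
  linarith

theorem main (x θ : ℝ) (hx : |x| ≤ 1 / 2) (h0 : 0 ≤ θ) (hθ : θ ^ 2 = 1 + x) :
    |θ - (1 + x / 2)| ≤ x ^ 2 ∧ |θ - (1 + x / 2 - x ^ 2 / 8 + x ^ 3 / 16)| ≤ x ^ 4 ∧
    |θ - (1 + x / 2 - x ^ 2 / 8 + x ^ 3 / 16 - 5 * x ^ 4 / 128 + 7 * x ^ 5 / 256)| ≤ x ^ 6 := by
  obtain ⟨ha, hb⟩ := abs_le.1 hx
  have hθ1 : 1 / 2 ≤ θ := by
    by_contra hc
    have hc' : θ < 1 / 2 := not_le.1 hc
    have : θ ^ 2 < (1 / 2) ^ 2 := by
      exact pow_lt_pow_left₀ hc' h0 (by norm_num)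
    linarith
  have x2a : 0 ≤ x ^ 2 := sq_nonneg x
  have x2b : x ^ 2 ≤ 1 / 4 := by nlinarith
  have x3 : |x ^ 3| ≤ 1 / 8 := by
    rw [abs_pow]
    calc |x| ^ 3 ≤ (1 / 2) ^ 3 := pow_le_pow_left₀ (abs_nonneg x) hx 3
      _ = 1 / 8 := by norm_num
  have x4a : 0 ≤ x ^ 4 := by positivity
  have x4 : |x ^ 4| ≤ 1 / 16 := by
    rw [abs_pow]
    calc |x| ^ 4 ≤ (1 / 2) ^ 4 := pow_le_pow_left₀ (abs_nonneg x) hx 4
      _ = 1 / 16 := by norm_num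
  have x5 : |x ^ 5| ≤ 1 / 32 := by
    rw [abs_pow]
    calc |x| ^ 5 ≤ (1 / 2) ^ 5 := pow_le_pow_left₀ (abs_nonneg x) hx 5
      _ = 1 / 32 := by norm_num
  obtain ⟨x3a, x3b⟩ := abs_le.1 x3
  obtain ⟨-, x4b⟩ := abs_le.1 x4
  obtain ⟨x5a, x5b⟩ := abs_le.1 x5
  have x6a : 0 ≤ x ^ 6 := by positivity
  refine ⟨?_, ?_, ?_⟩
  · apply diff_le
    · linarith
    · rw [hθ, show 1 + x - (1 + x / 2) ^ 2 = -(x ^ 2 / 4) by ring, abs_neg,
        abs_of_nonneg (by linarith)]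
      linarith
  · apply diff_le
    · linarith
    · have hc : |5 / 64 - x / 64 + x ^ 2 / 256| ≤ 1 := by
        rw [abs_le]
        constructor <;> linarith
      rw [hθ, show 1 + x - (1 + x / 2 - x ^ 2 / 8 + x ^ 3 / 16) ^ 2 =
        -(x ^ 4 * (5 / 64 - x / 64 + x ^ 2 / 256)) by ring, abs_neg, abs_mul, abs_of_nonneg x4a]
      exact mul_le_of_le_one_right x4a hc
  · apply diff_le
    · linarith
    · have hc : |42 / 1024 - 24 * x / 2048 + 81 * x ^ 2 / 16384 - 70 * x ^ 3 / 32768 +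
          49 * x ^ 4 / 65536| ≤ 1 := by
        rw [abs_le]
        constructor <;> linarith
      rw [hθ, show 1 + x - (1 + x / 2 - x ^ 2 / 8 + x ^ 3 / 16 - 5 * x ^ 4 / 128 +
          7 * x ^ 5 / 256) ^ 2 =
        -(x ^ 6 * (42 / 1024 - 24 * x / 2048 + 81 * x ^ 2 / 16384 - 70 * x ^ 3 / 32768 +
          49 * x ^ 4 / 65536)) by ring, abs_neg, abs_mul, abs_of_nonneg x6a]
      exact mul_le_of_le_one_right x6a hc

end TAYM

theorem TAY_thm : Stmt_TAY := fun x θ hx h0 hθ => TAYM.main x θ hx h0 hθ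

end Pool.Agent.AMO
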