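import Pool.Agent.AMO.Stmts

/-!
# At most one irregular extension of `{1, 2k², 2k²+2k+1}`: module VAN
-/

set_option autoImplicit false

namespace Pool.Agent.AMO

namespace VANM

open Polynomial

/-- The power series of `(u + x)^(-n-1)`. -/
noncomputable def ps (n : ℕ) (u : ℝ) : PowerSeries ℝ :=
  PowerSeries.mk fun p => (-1) ^ p * ((n + p).choose p : ℝ) * (u ^ (n + 1 + p))⁻¹

theorem coeff_ps (n : ℕ) (u : ℝ) (p : ℕ) :
    PowerSeries.coeff p (ps n u) = (-1) ^ p * ((n + p).choose p : ℝ) * (u ^ (n + 1 + p))⁻¹ := by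
  unfold ps
  rw [PowerSeries.coeff_mk]

theorem coeff_lin (φ : PowerSeries ℝ) (u : ℝ) (p : ℕ) :
    PowerSeries.coeff (p + 1) (φ * ((X + C u : ℝ[X]) : PowerSeries ℝ)) =
      PowerSeries.coeff p φ + PowerSeries.coeff (p + 1) φ * u := by
  rw [Polynomial.coe_add, Polynomial.coe_X, Polynomial.coe_C, mul_add, map_add,
    PowerSeries.coeff_succ_mul_X, PowerSeries.coeff_mul_C]

theorem coeff_lin_zero (φ : PowerSeries ℝ) (u : ℝ) :
    PowerSeries.coeff 0 (φ * ((X + C u : ℝ[X]) : PowerSeries ℝ)) =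
      PowerSeries.coeff 0 φ * u := by
  rw [Polynomial.coe_add, Polynomial.coe_X, Polynomial.coe_C, mul_add, map_add,
    PowerSeries.coeff_zero_mul_X, PowerSeries.coeff_mul_C, zero_add]

theorem ps_zero_mul (u : ℝ) (hu : u ≠ 0) :
    ps 0 u * ((X + C u : ℝ[X]) : PowerSeries ℝ) = 1 := by
  ext p
  rcases p with _ | p
  · rw [coeff_lin_zero, coeff_ps]
    simp [hu]
  · rw [coeff_lin, coeff_ps, coeff_ps, PowerSeries.coeff_one, if_neg (Nat.succ_ne_zero p)]
    simp only [zero_add, Nat.choose_self, Nat.cast_one, mul_one]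
    have e : u ^ (1 + (p + 1)) = u ^ (1 + p) * u := by rw [← pow_succ]; rfl
    rw [e, mul_inv]
    have e2 : (u ^ (1 + p))⁻¹ * u⁻¹ * u = (u ^ (1 + p))⁻¹ := by
      rw [mul_assoc, inv_mul_cancel₀ hu, mul_one]
    rw [mul_assoc, e2]
    ring

theorem ps_succ_mul (n : ℕ) (u : ℝ) (hu : u ≠ 0) :
    ps (n + 1) u * ((X + C u : ℝ[X]) : PowerSeries ℝ) = ps n u := by
  ext p
  rcases p with _ | p
  · rw [coeff_lin_zero, coeff_ps, coeff_ps]
    simp only [pow_zero, add_zero, Nat.choose_zero_right, Nat.cast_one, one_mul]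
    rw [show n + 1 + 1 = (n + 1) + 1 from rfl, pow_succ u (n + 1), mul_inv, mul_assoc,
      inv_mul_cancel₀ hu, mul_one]
  · rw [coeff_lin, coeff_ps, coeff_ps, coeff_ps]
    have e1 : ((n + 1 + (p + 1)).choose (p + 1) : ℝ) =
        ((n + 1 + p).choose p : ℝ) + ((n + (p + 1)).choose (p + 1) : ℝ) := by
      have h := Nat.choose_succ_succ (n + 1 + p) p
      have h2 : n + (p + 1) = n + 1 + p := by omega
      rw [h2]
      exact_mod_cast h
    have e : u ^ (n + 1 + 1 + (p + 1)) = u ^ (n + 1 + 1 + p) * u := by rw [← pow_succ]; rfl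
    have e3 : n + 1 + (p + 1) = n + 1 + 1 + p := by omega
    rw [e1, e, mul_inv]
    have e2 : (u ^ (n + 1 + 1 + p))⁻¹ * u⁻¹ * u = (u ^ (n + 1 + 1 + p))⁻¹ := by
      rw [mul_assoc, inv_mul_cancel₀ hu, mul_one]
    rw [mul_assoc ((-1) ^ (p + 1) * _) _ u, e2, e3]
    ring

theorem ps_mul (n : ℕ) (u : ℝ) (hu : u ≠ 0) :
    ps n u * (((X + C u) ^ (n + 1) : ℝ[X]) : PowerSeries ℝ) = 1 := by
  induction n with
  | zero => rw [zero_add, pow_one]; exact ps_zero_mul u hu
  | succ n ih =>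
    rw [pow_succ' (X + C u : ℝ[X]) (n + 1), Polynomial.coe_mul, ← mul_assoc, ps_succ_mul n u hu]
    exact ih

theorem coeff_ps_mul (n : ℕ) (u v : ℝ) (m : ℕ) :
    PowerSeries.coeff m (ps n u * ps n v) = ee n u v m := by
  rw [PowerSeries.coeff_mul]
  rw [Finset.Nat.sum_antidiagonal_eq_sum_range_succ
    (fun i j => PowerSeries.coeff i (ps n u) * PowerSeries.coeff j (ps n v)) m]
  unfold ee
  rw [Finset.mul_sum]
  refine Finset.sum_congr rfl fun p hp => ?_
  rw [Finset.mem_range] at hp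
  rw [coeff_ps, coeff_ps]
  have e : ((-1 : ℝ)) ^ m = (-1) ^ p * (-1) ^ (m - p) := by
    rw [← pow_add]; congr 1; omega
  rw [e]
  ring

theorem EE_eq (n h : ℕ) (a u v : ℝ) :
    EE n h a u v = PowerSeries.coeff n
      ((((X + C a) ^ h : ℝ[X]) : PowerSeries ℝ) * (ps n u * ps n v)) := by
  rw [PowerSeries.coeff_mul]
  rw [Finset.Nat.sum_antidiagonal_eq_sum_range_succ
    (fun i j => PowerSeries.coeff i (((X + C a) ^ h : ℝ[X]) : PowerSeries ℝ) *
      PowerSeries.coeff j (ps n u * ps n v)) n]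
  unfold EE
  refine Finset.sum_congr rfl fun i _ => ?_
  rw [coeff_ps_mul, Polynomial.coeff_coe, Polynomial.coeff_X_add_C_pow]
  ring

/-- The functional of the node `a`. -/
noncomputable def Fn (n : ℕ) (a u v : ℝ) (f : ℝ[X]) : ℝ :=
  PowerSeries.coeff n (((taylor a f : ℝ[X]) : PowerSeries ℝ) * (ps n u * ps n v))

theorem Fn_add (n : ℕ) (a u v : ℝ) (f g : ℝ[X]) :
    Fn n a u v (f + g) = Fn n a u v f + Fn n a u v g := by
  unfold Fn
  rw [map_add, Polynomial.coe_add, add_mul, map_add]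

theorem Fn_mul_pow (n : ℕ) (a u v : ℝ) (f : ℝ[X]) :
    Fn n a u v (f * (X - C a) ^ (n + 1)) = 0 := by
  unfold Fn
  have e : taylor a (f * (X - C a) ^ (n + 1)) = X ^ (n + 1) * taylor a f := by
    rw [taylor_mul, taylor_pow, map_sub, taylor_X, taylor_C, add_sub_cancel_right, mul_comm]
  rw [e, Polynomial.coe_mul, Polynomial.coe_pow, Polynomial.coe_X, mul_assoc]
  rw [PowerSeries.coeff_X_pow_mul', if_neg (by omega)]

theorem coeff_taylor_top (n : ℕ) (a : ℝ) (r : ℝ[X]) (hr : r.natDegree ≤ n) :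
    (taylor a r).coeff n = r.coeff n := by
  rcases hr.lt_or_eq with h | h
  · rw [coeff_eq_zero_of_natDegree_lt h, coeff_eq_zero_of_natDegree_lt]
    rw [natDegree_taylor]
    exact h
  · subst h
    have h1 := leadingCoeff_taylor (r := a) (f := r)
    unfold leadingCoeff at h1
    rw [natDegree_taylor] at h1
    exact h1

theorem Fn_own (n : ℕ) (a b c : ℝ) (hab : a ≠ b) (hac : a ≠ c) (r : ℝ[X])
    (hr : r.natDegree ≤ n) :
    Fn n a (a - b) (a - c) (r * ((X - C b) ^ (n + 1) * (X - C c) ^ (n + 1))) = r.coeff n := by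
  unfold Fn
  have e : taylor a (r * ((X - C b) ^ (n + 1) * (X - C c) ^ (n + 1))) =
      taylor a r * ((X + C (a - b)) ^ (n + 1) * (X + C (a - c)) ^ (n + 1)) := by
    rw [taylor_mul, taylor_mul, taylor_pow, taylor_pow, map_sub, map_sub, taylor_X, taylor_C,
      taylor_C, C_sub, C_sub, add_sub_assoc, add_sub_assoc]
  rw [e, Polynomial.coe_mul, Polynomial.coe_mul]
  have e2 : ((taylor a r : ℝ[X]) : PowerSeries ℝ) *
      ((((X + C (a - b)) ^ (n + 1) : ℝ[X]) : PowerSeries ℝ) *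
        (((X + C (a - c)) ^ (n + 1) : ℝ[X]) : PowerSeries ℝ)) *
      (ps n (a - b) * ps n (a - c)) =
      ((taylor a r : ℝ[X]) : PowerSeries ℝ) *
      ((ps n (a - b) * (((X + C (a - b)) ^ (n + 1) : ℝ[X]) : PowerSeries ℝ)) *
       (ps n (a - c) * (((X + C (a - c)) ^ (n + 1) : ℝ[X]) : PowerSeries ℝ))) := by ring
  rw [e2, ps_mul n _ (sub_ne_zero.2 hab), ps_mul n _ (sub_ne_zero.2 hac), mul_one, mul_one,
    Polynomial.coeff_coe]
  exact coeff_taylor_top n a r hr

theorem coeff_top (n : ℕ) (b c : ℝ) (r : ℝ[X]) (hr : r.natDegree ≤ n) :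
    (r * ((X - C b) ^ (n + 1) * (X - C c) ^ (n + 1))).coeff (3 * n + 2) = r.coeff n := by
  have hm : ((X - C b) ^ (n + 1) * (X - C c) ^ (n + 1) : ℝ[X]).Monic :=
    ((monic_X_sub_C b).pow _).mul ((monic_X_sub_C c).pow _)
  have hd : ((X - C b) ^ (n + 1) * (X - C c) ^ (n + 1) : ℝ[X]).natDegree = 2 * n + 2 := by
    rw [((monic_X_sub_C b).pow _).natDegree_mul ((monic_X_sub_C c).pow _), natDegree_pow,
      natDegree_pow, natDegree_X_sub_C, natDegree_X_sub_C]
    ring
  have h1 := Polynomial.coeff_mul_add_eq_of_natDegree_le hr (le_of_eq hd)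
  rw [show 3 * n + 2 = n + (2 * n + 2) from by ring, h1]
  have h2 : ((X - C b) ^ (n + 1) * (X - C c) ^ (n + 1) : ℝ[X]).coeff (2 * n + 2) = 1 := by
    have := hm.coeff_natDegree
    rw [hd] at this
    exact this
  rw [h2, mul_one]

theorem natDegree_le_three (n : ℕ) (b c : ℝ) (r : ℝ[X]) (hr : r.natDegree ≤ n) :
    (r * ((X - C b) ^ (n + 1) * (X - C c) ^ (n + 1))).natDegree ≤ 3 * n + 2 := by
  refine natDegree_mul_le.trans ?_
  have hd : ((X - C b) ^ (n + 1) * (X - C c) ^ (n + 1) : ℝ[X]).natDegree = 2 * n + 2 := by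
    rw [((monic_X_sub_C b).pow _).natDegree_mul ((monic_X_sub_C c).pow _), natDegree_pow,
      natDegree_pow, natDegree_X_sub_C, natDegree_X_sub_C]
    ring
  rw [hd]
  omega

/-- The sum over three different nodes vanishes. -/
theorem sum_zero (n : ℕ) (a b c : ℝ) (hab : a ≠ b) (hac : a ≠ c) (hbc : b ≠ c) (f : ℝ[X])
    (hf : f.natDegree < 3 * n + 2) :
    Fn n a (a - b) (a - c) f + Fn n b (b - a) (b - c) f + Fn n c (c - b) (c - a) f = 0 := by
  have hcop : ∀ x y : ℝ, x ≠ y → IsCoprime ((X - C x : ℝ[X]) ^ (n + 1)) ((X - C y) ^ (n + 1)) :=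
    fun x y hxy => (isCoprime_X_sub_C_of_isUnit_sub
      (isUnit_iff_ne_zero.2 (sub_ne_zero.2 hxy))).pow
  obtain ⟨q, r, hr, hfr⟩ := eq_quo_mul_prod_add_sum_rem_mul_prod (s := (Finset.univ : Finset (Fin 3)))
    f (g := fun i => (X - C (![a, b, c] i)) ^ (n + 1))
    (fun i _ => (monic_X_sub_C _).pow _)
    (by
      intro i _ j _ hij
      refine hcop _ _ ?_
      fin_cases i <;> fin_cases j <;> first | exact absurd rfl hij | skip
      · exact hab
      · exact hac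
      · exact hab.symm
      · exact hbc
      · exact hac.symm
      · exact hbc.symm)
  have hdeg : ∀ i, (r i).natDegree ≤ n := by
    intro i
    have h1 := hr i (Finset.mem_univ i)
    rw [degree_pow, degree_X_sub_C, nsmul_one] at h1
    have h2 : (r i).degree < ((n + 1 : ℕ) : WithBot ℕ) := h1
    rcases eq_or_ne (r i) 0 with h0 | h0
    · rw [h0, natDegree_zero]; omega
    · have := (natDegree_lt_iff_degree_lt h0).2 h2
      omega
  rw [Fin.sum_univ_three, Fin.prod_univ_three,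
    show (Finset.univ.erase (0 : Fin 3)) = {1, 2} from rfl,
    show (Finset.univ.erase (1 : Fin 3)) = {0, 2} from rfl,
    show (Finset.univ.erase (2 : Fin 3)) = {0, 1} from rfl,
    Finset.prod_pair (by decide), Finset.prod_pair (by decide), Finset.prod_pair (by decide)] at hfr
  change f = q * ((X - C a) ^ (n + 1) * (X - C b) ^ (n + 1) * (X - C c) ^ (n + 1)) +
    (r 0 * ((X - C b) ^ (n + 1) * (X - C c) ^ (n + 1)) +
      r 1 * ((X - C a) ^ (n + 1) * (X - C c) ^ (n + 1)) +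
      r 2 * ((X - C a) ^ (n + 1) * (X - C b) ^ (n + 1))) at hfr
  have hsum : (r 0 * ((X - C b) ^ (n + 1) * (X - C c) ^ (n + 1)) +
      r 1 * ((X - C a) ^ (n + 1) * (X - C c) ^ (n + 1)) +
      r 2 * ((X - C a) ^ (n + 1) * (X - C b) ^ (n + 1))).natDegree ≤ 3 * n + 2 := by
    refine (natDegree_add_le _ _).trans (max_le ((natDegree_add_le _ _).trans (max_le ?_ ?_)) ?_)
    · exact natDegree_le_three n b c _ (hdeg 0)
    · exact natDegree_le_three n a c _ (hdeg 1)
    · exact natDegree_le_three n a b _ (hdeg 2)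
  have hq : q = 0 := by
    by_contra h0
    have hG : ((X - C a) ^ (n + 1) * (X - C b) ^ (n + 1) * (X - C c) ^ (n + 1) : ℝ[X]).Monic :=
      (((monic_X_sub_C a).pow _).mul ((monic_X_sub_C b).pow _)).mul ((monic_X_sub_C c).pow _)
    have hGd : ((X - C a) ^ (n + 1) * (X - C b) ^ (n + 1) * (X - C c) ^ (n + 1) :
        ℝ[X]).natDegree = 3 * n + 3 := by
      rw [(((monic_X_sub_C a).pow _).mul ((monic_X_sub_C b).pow _)).natDegree_mul
          ((monic_X_sub_C c).pow _),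
        ((monic_X_sub_C a).pow _).natDegree_mul ((monic_X_sub_C b).pow _), natDegree_pow,
        natDegree_pow, natDegree_pow, natDegree_X_sub_C, natDegree_X_sub_C, natDegree_X_sub_C]
      ring
    have h1 : (q * ((X - C a) ^ (n + 1) * (X - C b) ^ (n + 1) *
        (X - C c) ^ (n + 1))).natDegree = q.natDegree + (3 * n + 3) := by
      rw [natDegree_mul h0 hG.ne_zero, hGd]
    have h2 : q * ((X - C a) ^ (n + 1) * (X - C b) ^ (n + 1) * (X - C c) ^ (n + 1)) =
        f - (r 0 * ((X - C b) ^ (n + 1) * (X - C c) ^ (n + 1)) +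
      r 1 * ((X - C a) ^ (n + 1) * (X - C c) ^ (n + 1)) +
      r 2 * ((X - C a) ^ (n + 1) * (X - C b) ^ (n + 1))) := by
      rw [eq_sub_iff_add_eq]
      exact hfr.symm
    have h3 : (q * ((X - C a) ^ (n + 1) * (X - C b) ^ (n + 1) *
        (X - C c) ^ (n + 1))).natDegree ≤ 3 * n + 2 := by
      rw [h2]
      exact (natDegree_sub_le _ _).trans (max_le hf.le hsum)
    omega
  rw [hq, zero_mul, zero_add] at hfr
  have htop : (r 0).coeff n + (r 1).coeff n + (r 2).coeff n = 0 := by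
    have h1 : f.coeff (3 * n + 2) = 0 := coeff_eq_zero_of_natDegree_lt hf
    rw [hfr, coeff_add, coeff_add, coeff_top n b c _ (hdeg 0), coeff_top n a c _ (hdeg 1),
      coeff_top n a b _ (hdeg 2)] at h1
    exact h1
  have k1 : Fn n a (a - b) (a - c) f = (r 0).coeff n := by
    rw [hfr, Fn_add, Fn_add, Fn_own n a b c hab hac _ (hdeg 0)]
    have e1 : r 1 * ((X - C a) ^ (n + 1) * (X - C c) ^ (n + 1)) =
        (r 1 * (X - C c) ^ (n + 1)) * (X - C a) ^ (n + 1) := by ring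
    have e2 : r 2 * ((X - C a) ^ (n + 1) * (X - C b) ^ (n + 1)) =
        (r 2 * (X - C b) ^ (n + 1)) * (X - C a) ^ (n + 1) := by ring
    rw [e1, e2, Fn_mul_pow, Fn_mul_pow, add_zero, add_zero]
  have k2 : Fn n b (b - a) (b - c) f = (r 1).coeff n := by
    rw [hfr, Fn_add, Fn_add, Fn_own n b a c hab.symm hbc _ (hdeg 1)]
    have e1 : r 0 * ((X - C b) ^ (n + 1) * (X - C c) ^ (n + 1)) =
        (r 0 * (X - C c) ^ (n + 1)) * (X - C b) ^ (n + 1) := by ring
    have e2 : r 2 * ((X - C a) ^ (n + 1) * (X - C b) ^ (n + 1)) =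
        (r 2 * (X - C a) ^ (n + 1)) * (X - C b) ^ (n + 1) := by ring
    rw [e1, e2, Fn_mul_pow, Fn_mul_pow, add_zero, zero_add]
  have k3 : Fn n c (c - b) (c - a) f = (r 2).coeff n := by
    have e3 : r 2 * ((X - C a) ^ (n + 1) * (X - C b) ^ (n + 1)) =
        r 2 * ((X - C b) ^ (n + 1) * (X - C a) ^ (n + 1)) := by ring
    rw [hfr, Fn_add, Fn_add, e3, Fn_own n c b a hbc.symm hac.symm _ (hdeg 2)]
    have e1 : r 0 * ((X - C b) ^ (n + 1) * (X - C c) ^ (n + 1)) =
        (r 0 * (X - C b) ^ (n + 1)) * (X - C c) ^ (n + 1) := by ring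
    have e2 : r 1 * ((X - C a) ^ (n + 1) * (X - C c) ^ (n + 1)) =
        (r 1 * (X - C a) ^ (n + 1)) * (X - C c) ^ (n + 1) := by ring
    rw [e1, e2, Fn_mul_pow, Fn_mul_pow, zero_add, zero_add]
  rw [k1, k2, k3]
  exact htop

theorem EE_Fn (n h : ℕ) (a u v : ℝ) : EE n h a u v = Fn n a u v (X ^ h) := by
  rw [EE_eq]
  unfold Fn
  rw [taylor_pow, taylor_X]

end VANM

theorem VAN_thm : Stmt_VAN := by
  intro n h α β hα hβ hh
  have hs := VANM.sum_zero n 0 (-α) β (by linarith [neg_lt_zero.2 hα] : (0 : ℝ) ≠ -α) hβ.ne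
    (by linarith [neg_lt_zero.2 hα]) ((Polynomial.X : Polynomial ℝ) ^ h)
    (by rw [Polynomial.natDegree_X_pow]; exact hh)
  rw [VANM.EE_Fn, VANM.EE_Fn, VANM.EE_Fn]
  have e1 : (0 : ℝ) - -α = α := by ring
  have e2 : (0 : ℝ) - β = -β := by ring
  have e3 : -α - 0 = -α := by ring
  have e4 : β - -α = β + α := by ring
  have e5 : β - 0 = β := by ring
  rw [e1, e2, e3, e4, e5] at hs
  have e6 : VANM.Fn n β (β + α) β (Polynomial.X ^ h) = VANM.Fn n β β (β + α) (Polynomial.X ^ h) := by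
    unfold VANM.Fn
    rw [mul_comm (VANM.ps n (β + α))]
  rw [e6] at hs
  exact hs

end Pool.Agent.AMO
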