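import Pool.Agent.AMO.Stmts

/-!
# The first window (`n = 1`)
-/

set_option autoImplicit false

namespace Pool.Agent.AMO

theorem W1 : Stmt_W1 := by
  intro hT hF hR k Y V U Y' V' U' hk hS hS' hYY hY60 h1 h2
  obtain ⟨s, g, s', g', hfr, e1, e2⟩ := hF k Y V U Y' V' U' hk hS hS' hYY hY60
  obtain ⟨-, -, ⟨D1, D2⟩, ⟨b1, b2⟩, ⟨a1, a2⟩, -⟩ := siz k hk
  have Yp := hS.1
  have Yp' := hS'.1
  obtain ⟨hneg, hub⟩ := hR hT _ _ _ _ _ _ _ _ hfr _ rfl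
  clear hS hS' hfr hR hF hT
  -- real versions
  have y1 : (1 : ℝ) ≤ (Y : ℝ) := by exact_mod_cast Yp
  have y1' : (1 : ℝ) ≤ (Y' : ℝ) := by exact_mod_cast Yp'
  have rD : (1 : ℝ) ≤ (DD k : ℝ) := by exact_mod_cast D1
  have ra0 : (0 : ℝ) ≤ (al k : ℝ) := by
    have : (0 : ℤ) ≤ al k := by linarith
    exact_mod_cast this
  have ra : (al k : ℝ) ≤ (k : ℝ) ^ 5 := by exact_mod_cast a2
  have rk : (10 : ℝ) ≤ (k : ℝ) := by exact_mod_cast hk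
  have r1 : (k : ℝ) ^ 51 * (Y : ℝ) ^ 3 ≤ (Y' : ℝ) := by exact_mod_cast h1
  have r2 : (k : ℝ) ^ 51 * (Y' : ℝ) ≤ (Y : ℝ) ^ 7 := by exact_mod_cast h2
  have hal : (al k : ℝ) = (nn k : ℝ) * (DD k : ℝ) := by
    have : al k = nn k * DD k := rfl
    exact_mod_cast this
  set S : ℝ := ((al k : ℝ) + (be k : ℝ)) ^ 3 * (4 * ((al k : ℝ) - (be k : ℝ)) +
      3 * (al k : ℝ) * (be k : ℝ) * (1 / ((DD k : ℝ) * (Y : ℝ) ^ 2))) +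
      (be k : ℝ) ^ 3 * (4 * ((be k : ℝ) + 2 * (al k : ℝ)) - (al k : ℝ) *
        ((be k : ℝ) + 5 * (al k : ℝ)) * (1 / ((DD k : ℝ) * (Y : ℝ) ^ 2))) * (s * s') -
      (al k : ℝ) ^ 3 * (4 * (2 * (be k : ℝ) + (al k : ℝ)) + (be k : ℝ) *
        (5 * (be k : ℝ) + (al k : ℝ)) * (1 / ((DD k : ℝ) * (Y : ℝ) ^ 2))) * (g * g') with hSd
  clear_value S
  set J : ℤ := (al k + be k) ^ 3 * (4 * (al k - be k) * (DD k * Y ^ 2) + 3 * al k * be k) *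
      (Y * Y') + 2 * be k ^ 3 * (4 * (be k + 2 * al k) * (DD k * Y ^ 2) -
        al k * (be k + 5 * al k)) * (V * V') -
      nn k * al k ^ 2 * (4 * (2 * be k + al k) * (DD k * Y ^ 2) + be k * (5 * be k + al k)) *
        (U * U') with hJd
  have hJ : (J : ℝ) = ((DD k : ℝ) * (Y : ℝ) ^ 2) * ((Y : ℝ) * (Y' : ℝ)) * S := by
    have hX : ((DD k : ℝ) * (Y : ℝ) ^ 2) ≠ 0 := by positivity
    rw [hJd]
    push_cast
    have hz : ((DD k : ℝ) * (Y : ℝ) ^ 2) * (1 / ((DD k : ℝ) * (Y : ℝ) ^ 2)) = 1 := by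
      field_simp
    generalize (1 / ((DD k : ℝ) * (Y : ℝ) ^ 2)) = z at hz hSd
    have e3 : (V : ℝ) * (V' : ℝ) = (Y : ℝ) * (Y' : ℝ) * (s * s') / 2 := by linarith
    rw [e3, ← e2, hSd]
    generalize (Y : ℝ) * (Y' : ℝ) = q
    generalize s * s' = p
    generalize g * g' = r
    generalize (be k : ℝ) = b
    rw [hal]
    generalize (nn k : ℝ) = n
    generalize (DD k : ℝ) = D at *
    generalize (Y : ℝ) = y at *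
    linear_combination (-q * ((n * D + b) ^ 3 * (3 * (n * D) * b)) +
      q * p * b ^ 3 * ((n * D) * (b + 5 * (n * D))) +
      q * r * (n * D) ^ 3 * (b * (5 * b + n * D))) * hz
  have hXp : 0 < ((DD k : ℝ) * (Y : ℝ) ^ 2) * ((Y : ℝ) * (Y' : ℝ)) := by positivity
  have hJneg : (J : ℝ) < 0 := by
    rw [hJ]
    exact mul_neg_of_pos_of_neg hXp hneg
  have hJ1 : (J : ℝ) ≤ -1 := by
    have : J < 0 := by exact_mod_cast hJneg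
    have : J ≤ -1 := by omega
    exact_mod_cast this
  clear_value J
  -- the upper bound
  have hkp : (0 : ℝ) < (k : ℝ) ^ 51 := by positivity
  have t1 : ((DD k : ℝ) * (Y : ℝ) ^ 2) * ((Y : ℝ) * (Y' : ℝ)) *
      (1 / ((DD k : ℝ) * (Y : ℝ) ^ 2)) ^ 5 ≤ 1 / (k : ℝ) ^ 51 := by
    have hD4 : (1 : ℝ) ≤ (DD k : ℝ) ^ 4 := one_le_pow₀ rD
    have : ((DD k : ℝ) * (Y : ℝ) ^ 2) * ((Y : ℝ) * (Y' : ℝ)) *
      (1 / ((DD k : ℝ) * (Y : ℝ) ^ 2)) ^ 5 = (Y' : ℝ) / ((DD k : ℝ) ^ 4 * (Y : ℝ) ^ 7) := by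
      field_simp
    rw [this, div_le_div_iff₀ (by positivity) hkp]
    have h7 : (0 : ℝ) ≤ (Y : ℝ) ^ 7 := by positivity
    nlinarith
  have t2 : ((DD k : ℝ) * (Y : ℝ) ^ 2) * ((Y : ℝ) * (Y' : ℝ)) *
      (1 / ((DD k : ℝ) * (Y' : ℝ) ^ 2)) ≤ 1 / (k : ℝ) ^ 51 := by
    have : ((DD k : ℝ) * (Y : ℝ) ^ 2) * ((Y : ℝ) * (Y' : ℝ)) *
      (1 / ((DD k : ℝ) * (Y' : ℝ) ^ 2)) = (Y : ℝ) ^ 3 / (Y' : ℝ) := by
      field_simp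
    rw [this, div_le_div_iff₀ (by positivity) hkp]
    linarith
  have ta : (al k : ℝ) ^ 10 ≤ (k : ℝ) ^ 50 := by
    calc (al k : ℝ) ^ 10 ≤ ((k : ℝ) ^ 5) ^ 10 := pow_le_pow_left₀ ra0 ra 10
      _ = (k : ℝ) ^ 50 := by ring
  have hub2 : -(J : ℝ) ≤ (k : ℝ) ^ 50 * (2 / (k : ℝ) ^ 51) := by
    calc -(J : ℝ) = ((DD k : ℝ) * (Y : ℝ) ^ 2) * ((Y : ℝ) * (Y' : ℝ)) * (-S) := by
          rw [hJ]; ring
      _ ≤ ((DD k : ℝ) * (Y : ℝ) ^ 2) * ((Y : ℝ) * (Y' : ℝ)) * ((al k : ℝ) ^ 10 *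
          ((1 / ((DD k : ℝ) * (Y : ℝ) ^ 2)) ^ 5 + 1 / ((DD k : ℝ) * (Y' : ℝ) ^ 2))) :=
          mul_le_mul_of_nonneg_left hub hXp.le
      _ = (al k : ℝ) ^ 10 * (((DD k : ℝ) * (Y : ℝ) ^ 2) * ((Y : ℝ) * (Y' : ℝ)) *
          (1 / ((DD k : ℝ) * (Y : ℝ) ^ 2)) ^ 5 +
          ((DD k : ℝ) * (Y : ℝ) ^ 2) * ((Y : ℝ) * (Y' : ℝ)) *
          (1 / ((DD k : ℝ) * (Y' : ℝ) ^ 2))) := by ring
      _ ≤ (al k : ℝ) ^ 10 * (1 / (k : ℝ) ^ 51 + 1 / (k : ℝ) ^ 51) :=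
          mul_le_mul_of_nonneg_left (add_le_add t1 t2) (by positivity)
      _ ≤ (k : ℝ) ^ 50 * (1 / (k : ℝ) ^ 51 + 1 / (k : ℝ) ^ 51) :=
          mul_le_mul_of_nonneg_right ta (by positivity)
      _ = (k : ℝ) ^ 50 * (2 / (k : ℝ) ^ 51) := by ring
  have hfin : (k : ℝ) ^ 50 * (2 / (k : ℝ) ^ 51) = 2 / (k : ℝ) := by
    have : (k : ℝ) ≠ 0 := by positivity
    field_simp
  rw [hfin] at hub2
  have : 2 / (k : ℝ) ≤ 2 / 10 := div_le_div_of_nonneg_left (by norm_num) (by norm_num) rk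
  linarith

end Pool.Agent.AMO
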