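import Pool.Agent.AMO.Stmts

/-!
# The first form: real part
-/

set_option autoImplicit false

namespace Pool.Agent.AMO.W1RM

theorem core (α β z w s g s' g' : ℝ) (hF : Fr α β z w s g s' g')
    (t1 : |s - (1 + (-(α * z)) / 2 - (-(α * z)) ^ 2 / 8 + (-(α * z)) ^ 3 / 16 -
      5 * (-(α * z)) ^ 4 / 128 + 7 * (-(α * z)) ^ 5 / 256)| ≤ (-(α * z)) ^ 6)
    (t2 : |g - (1 + (β * z) / 2 - (β * z) ^ 2 / 8 + (β * z) ^ 3 / 16 -
      5 * (β * z) ^ 4 / 128 + 7 * (β * z) ^ 5 / 256)| ≤ (β * z) ^ 6)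
    (S : ℝ) (hS : S = (α + β) ^ 3 * (4 * (α - β) + 3 * α * β * z) +
      β ^ 3 * (4 * (β + 2 * α) - α * (β + 5 * α) * z) * (s * s') -
      α ^ 3 * (4 * (2 * β + α) + β * (5 * β + α) * z) * (g * g')) :
    S < 0 ∧ -S ≤ α ^ 10 * (z ^ 5 + w) := by
  obtain ⟨b1, ba, z0, w0, wz, small, s0, g0, s0', g0', s2, g2, s2', g2'⟩ := hF
  have ha : 200 ≤ α := by linarith
  have ha0 : 0 < α := by linarith
  have hb0 : 0 < β := by linarith
  have haz : 0 < α * z := by positivity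
  have hbz : 0 < β * z := by positivity
  -- smallness of `α z`
  have q1 : α * z ≤ 1 / 8000000 := by
    have h3 : (200 : ℝ) ^ 3 ≤ α ^ 3 := pow_le_pow_left₀ (by norm_num) ha 3
    have h4 : α ^ 3 * (α * z) ≤ 1 := by
      calc α ^ 3 * (α * z) = α ^ 4 * z := by ring
        _ ≤ 1 := small
    have h5 : (200 : ℝ) ^ 3 * (α * z) ≤ α ^ 3 * (α * z) :=
      mul_le_mul_of_nonneg_right h3 haz.le
    have : (8000000 : ℝ) * (α * z) ≤ 1 := by
      have e : (200 : ℝ) ^ 3 = 8000000 := by norm_num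
      rw [e] at h5
      linarith
    linarith
  have q2 : β * z ≤ α * z := mul_le_mul_of_nonneg_right (by linarith) z0.le
  -- the coefficients
  obtain ⟨A1, hA1⟩ : ∃ A1 : ℝ, A1 = β ^ 3 * (4 * (β + 2 * α) - α * (β + 5 * α) * z) := ⟨_, rfl⟩
  obtain ⟨A2, hA2⟩ : ∃ A2 : ℝ, A2 = α ^ 3 * (4 * (2 * β + α) + β * (5 * β + α) * z) := ⟨_, rfl⟩
  have c1 : 0 ≤ (β + 5 * α) * (α * z) := by positivity
  have c2 : (β + 5 * α) * (α * z) ≤ (6 * α) * (1 / 8000000) :=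
    mul_le_mul (by linarith) q1 haz.le (by positivity)
  have hA1n : 0 ≤ A1 := by
    rw [hA1]
    refine mul_nonneg (by positivity) ?_
    have : α * (β + 5 * α) * z = (β + 5 * α) * (α * z) := by ring
    rw [this]
    linarith
  have hA1u : A1 ≤ 12 * α * β ^ 3 := by
    rw [hA1]
    have e : α * (β + 5 * α) * z = (β + 5 * α) * (α * z) := by ring
    have : β ^ 3 * (4 * (β + 2 * α) - α * (β + 5 * α) * z) ≤ β ^ 3 * (12 * α) := by
      refine mul_le_mul_of_nonneg_left ?_ (by positivity)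
      rw [e]
      linarith
    linarith
  have c3 : 0 ≤ (5 * β + α) * (β * z) := by positivity
  have c4 : (5 * β + α) * (β * z) ≤ (6 * α) * (1 / 8000000) :=
    mul_le_mul (by linarith) (by linarith) hbz.le (by positivity)
  have hA2n : 0 ≤ A2 := by
    rw [hA2]
    positivity
  have hA2u : A2 ≤ 8 * α ^ 4 := by
    rw [hA2]
    have e : β * (5 * β + α) * z = (5 * β + α) * (β * z) := by ring
    have : α ^ 3 * (4 * (2 * β + α) + β * (5 * β + α) * z) ≤ α ^ 3 * (8 * α) := by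
      refine mul_le_mul_of_nonneg_left ?_ (by positivity)
      rw [e]
      linarith
    calc _ ≤ α ^ 3 * (8 * α) := this
      _ = 8 * α ^ 4 := by ring
  -- the remainders
  obtain ⟨r1, hr1⟩ : ∃ r1 : ℝ, r1 = s - (1 + (-(α * z)) / 2 - (-(α * z)) ^ 2 / 8 +
    (-(α * z)) ^ 3 / 16 - 5 * (-(α * z)) ^ 4 / 128 + 7 * (-(α * z)) ^ 5 / 256) := ⟨_, rfl⟩
  obtain ⟨r2, hr2⟩ : ∃ r2 : ℝ, r2 = g - (1 + (β * z) / 2 - (β * z) ^ 2 / 8 + (β * z) ^ 3 / 16 -
    5 * (β * z) ^ 4 / 128 + 7 * (β * z) ^ 5 / 256) := ⟨_, rfl⟩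
  rw [← hr1] at t1
  rw [← hr2] at t2
  obtain ⟨F, hF⟩ : ∃ F : ℝ, F = (α + β) ^ 3 * (4 * (α - β) + 3 * α * β * z) + A1 * s - A2 * g :=
    ⟨_, rfl⟩
  have eF : F = -(3 / 128) * (α * β * (α + β)) ^ 3 * z ^ 5 +
      (7 / 256) * α ^ 3 * β ^ 3 * (α ^ 3 * (β + 5 * α) - β ^ 3 * (5 * β + α)) * z ^ 6 +
      A1 * r1 - A2 * r2 := by
    rw [hF, hr1, hr2, hA1, hA2]
    ring
  obtain ⟨M, hM⟩ : ∃ M : ℝ, M = α ^ 6 * β ^ 3 * z ^ 5 := ⟨_, rfl⟩
  have hM0 : 0 < M := by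
    rw [hM]
    positivity
  have hMz : M * (α * z) ≤ M * (1 / 8000000) := mul_le_mul_of_nonneg_left q1 hM0.le
  have hab3 : β ^ 3 ≤ α ^ 3 := pow_le_pow_left₀ hb0.le (by linarith) 3
  have hab3' : 0 < β ^ 3 := by positivity
  -- the three error terms
  have d1 : (7 / 256) * α ^ 3 * β ^ 3 * (α ^ 3 * (β + 5 * α) - β ^ 3 * (5 * β + α)) * z ^ 6 ≤
      M * (α * z) := by
    have h1 : α ^ 3 * (β + 5 * α) - β ^ 3 * (5 * β + α) ≤ 6 * α ^ 4 := by
      have h2 : 0 ≤ β ^ 3 * (5 * β + α) := by positivity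
      have h3 : α ^ 3 * (β + 5 * α) ≤ α ^ 3 * (6 * α) :=
        mul_le_mul_of_nonneg_left (by linarith) (by positivity)
      have h4 : α ^ 3 * (6 * α) = 6 * α ^ 4 := by ring
      linarith
    have h2 : (7 / 256) * α ^ 3 * β ^ 3 * (α ^ 3 * (β + 5 * α) - β ^ 3 * (5 * β + α)) * z ^ 6 ≤
        (7 / 256) * α ^ 3 * β ^ 3 * (6 * α ^ 4) * z ^ 6 :=
      mul_le_mul_of_nonneg_right (mul_le_mul_of_nonneg_left h1 (by positivity)) (by positivity)
    have h3 : (7 / 256) * α ^ 3 * β ^ 3 * (6 * α ^ 4) * z ^ 6 = (42 / 256) * (M * (α * z)) := by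
      rw [hM]
      ring
    have h4 : 0 ≤ M * (α * z) := by positivity
    linarith
  have d1' : -(M * (α * z)) ≤ (7 / 256) * α ^ 3 * β ^ 3 *
      (α ^ 3 * (β + 5 * α) - β ^ 3 * (5 * β + α)) * z ^ 6 := by
    have h1 : 0 ≤ α ^ 3 * (β + 5 * α) - β ^ 3 * (5 * β + α) := by
      have h2 : β ^ 3 * (5 * β + α) ≤ α ^ 3 * (β + 5 * α) :=
        mul_le_mul hab3 (by linarith) (by positivity) (by positivity)
      linarith
    have h2 : 0 ≤ (7 / 256) * α ^ 3 * β ^ 3 *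
      (α ^ 3 * (β + 5 * α) - β ^ 3 * (5 * β + α)) * z ^ 6 := by positivity
    have h4 : 0 ≤ M * (α * z) := by positivity
    linarith
  have d2 : |A1 * r1| ≤ 12 * (M * (α * z)) := by
    rw [abs_mul, abs_of_nonneg hA1n]
    calc A1 * |r1| ≤ (12 * α * β ^ 3) * (-(α * z)) ^ 6 :=
          mul_le_mul hA1u t1 (abs_nonneg _) (by positivity)
      _ = 12 * (M * (α * z)) := by
        rw [hM]
        ring
  have d3 : |A2 * r2| ≤ 8 * (M * (α * z)) := by
    rw [abs_mul, abs_of_nonneg hA2n]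
    calc A2 * |r2| ≤ (8 * α ^ 4) * (β * z) ^ 6 :=
          mul_le_mul hA2u t2 (abs_nonneg _) (by positivity)
      _ = (8 * α ^ 4 * β ^ 3 * z ^ 6) * β ^ 3 := by ring
      _ ≤ (8 * α ^ 4 * β ^ 3 * z ^ 6) * α ^ 3 := mul_le_mul_of_nonneg_left hab3 (by positivity)
      _ = 8 * (M * (α * z)) := by
        rw [hM]
        ring
  have e2 := abs_le.1 d2
  have e3 := abs_le.1 d3
  have m1 : M ≤ (α * β * (α + β)) ^ 3 * z ^ 5 := by
    have : M = (α * β * α) ^ 3 * z ^ 5 := by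
      rw [hM]
      ring
    rw [this]
    refine mul_le_mul_of_nonneg_right (pow_le_pow_left₀ (by positivity) ?_ 3) (by positivity)
    exact mul_le_mul_of_nonneg_left (by linarith) (by positivity)
  have m2 : (α * β * (α + β)) ^ 3 * z ^ 5 ≤ 2 * M := by
    have h1 : (α * β * (α + β)) ^ 3 ≤ (α * β * (201 / 200 * α)) ^ 3 := by
      refine pow_le_pow_left₀ (by positivity) ?_ 3
      exact mul_le_mul_of_nonneg_left (by linarith) (by positivity)
    have h2 : (α * β * (α + β)) ^ 3 * z ^ 5 ≤ (α * β * (201 / 200 * α)) ^ 3 * z ^ 5 :=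
      mul_le_mul_of_nonneg_right h1 (by positivity)
    have h3 : (α * β * (201 / 200 * α)) ^ 3 * z ^ 5 = (201 / 200) ^ 3 * M := by
      rw [hM]
      ring
    have h4 : ((201 : ℝ) / 200) ^ 3 * M ≤ 2 * M := by
      have : ((201 : ℝ) / 200) ^ 3 ≤ 2 := by norm_num
      exact mul_le_mul_of_nonneg_right this hM0.le
    linarith
  obtain ⟨B, hB⟩ : ∃ B : ℝ, B = (α * β * (α + β)) ^ 3 * z ^ 5 := ⟨_, rfl⟩
  obtain ⟨C, hC⟩ : ∃ C : ℝ, C = (7 / 256) * α ^ 3 * β ^ 3 *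
    (α ^ 3 * (β + 5 * α) - β ^ 3 * (5 * β + α)) * z ^ 6 := ⟨_, rfl⟩
  rw [← hC] at d1 d1' eF
  rw [← hB] at m1 m2
  have eF' : F = -(3 / 128) * B + C + A1 * r1 - A2 * r2 := by
    rw [eF, hB]
    ring
  have hFneg : F < 0 := by
    rw [eF']
    linarith [e2.1, e2.2, e3.1, e3.2]
  have hFlow : -F ≤ M := by
    rw [eF']
    linarith [e2.1, e2.2, e3.1, e3.2]
  -- the primed numbers
  have p1 : s' ≤ 1 := by
    have : s' ^ 2 ≤ 1 ^ 2 := by
      rw [s2']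
      have : 0 < α * w := by positivity
      linarith
    exact (sq_le_sq₀ s0' (by norm_num)).1 this
  have p2 : 1 ≤ g' := by
    have : (1 : ℝ) ^ 2 ≤ g' ^ 2 := by
      rw [g2']
      have : 0 < β * w := by positivity
      linarith
    exact (sq_le_sq₀ (by norm_num) g0').1 this
  have p3 : s ≤ 1 := by
    have : s ^ 2 ≤ 1 ^ 2 := by
      rw [s2]
      linarith
    exact (sq_le_sq₀ s0 (by norm_num)).1 this
  have p4 : g ≤ 2 := by
    have : g ^ 2 ≤ 2 ^ 2 := by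
      rw [g2]
      linarith
    exact (sq_le_sq₀ g0 (by norm_num)).1 this
  have p5 : 1 - s' ≤ α * w := by nlinarith
  have p6 : g' - 1 ≤ β * w / 2 := by nlinarith
  have eS : S = F - (A1 * s) * (1 - s') - (A2 * g) * (g' - 1) := by
    rw [hS, hF, ← hA1, ← hA2]
    ring
  have n1 : 0 ≤ (A1 * s) * (1 - s') := mul_nonneg (mul_nonneg hA1n s0) (by linarith)
  have n2 : 0 ≤ (A2 * g) * (g' - 1) := mul_nonneg (mul_nonneg hA2n g0) (by linarith)
  refine ⟨by linarith, ?_⟩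
  have u1 : (A1 * s) * (1 - s') ≤ (12 * α * β ^ 3) * (α * w) := by
    have : A1 * s ≤ (12 * α * β ^ 3) * 1 := mul_le_mul hA1u p3 s0 (by positivity)
    refine mul_le_mul (by linarith) p5 (by linarith) (by positivity)
  have u2 : (A2 * g) * (g' - 1) ≤ (8 * α ^ 4 * 2) * (β * w / 2) := by
    have : A2 * g ≤ (8 * α ^ 4) * 2 := mul_le_mul hA2u p4 g0 (by positivity)
    refine mul_le_mul this p6 (by linarith) (by positivity)
  have hb3 : 200 * β ^ 3 ≤ α ^ 3 := by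
    have h1 : (200 * β) ^ 3 ≤ α ^ 3 := pow_le_pow_left₀ (by positivity) ba 3
    have h2 : (200 * β) ^ 3 = 8000000 * β ^ 3 := by ring
    rw [h2] at h1
    linarith
  have v0 : α ^ 5 ≤ α ^ 10 := pow_le_pow_right₀ (by linarith) (by norm_num)
  have v1 : (12 * α * β ^ 3) * (α * w) ≤ (12 / 200) * α ^ 5 * w := by
    have : (12 * α * β ^ 3) * (α * w) = (12 / 200 * α ^ 2 * w) * (200 * β ^ 3) := by ring
    rw [this]
    calc (12 / 200 * α ^ 2 * w) * (200 * β ^ 3) ≤ (12 / 200 * α ^ 2 * w) * α ^ 3 :=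
          mul_le_mul_of_nonneg_left hb3 (by positivity)
      _ = (12 / 200) * α ^ 5 * w := by ring
  have v2 : (8 * α ^ 4 * 2) * (β * w / 2) ≤ (8 / 200) * α ^ 5 * w := by
    have : (8 * α ^ 4 * 2) * (β * w / 2) = (8 / 200 * α ^ 4 * w) * (200 * β) := by ring
    rw [this]
    calc (8 / 200 * α ^ 4 * w) * (200 * β) ≤ (8 / 200 * α ^ 4 * w) * α :=
          mul_le_mul_of_nonneg_left ba (by positivity)
      _ = (8 / 200) * α ^ 5 * w := by ring
  have v3 : M ≤ α ^ 10 * z ^ 5 := by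
    rw [hM]
    refine mul_le_mul_of_nonneg_right ?_ (by positivity)
    have h1 : α ^ 6 * β ^ 3 ≤ α ^ 6 * α ^ 3 := mul_le_mul_of_nonneg_left hab3 (by positivity)
    have h2 : α ^ 6 * α ^ 3 = α ^ 9 := by ring
    have h3 : α ^ 9 ≤ α ^ 10 := pow_le_pow_right₀ (by linarith) (by norm_num)
    linarith
  have v4 : α ^ 5 * w ≤ α ^ 10 * w := mul_le_mul_of_nonneg_right v0 w0.le
  have v5 : 0 ≤ α ^ 5 * w := by positivity
  rw [eS]
  have : α ^ 10 * (z ^ 5 + w) = α ^ 10 * z ^ 5 + α ^ 10 * w := by ring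
  rw [this]
  linarith

end Pool.Agent.AMO.W1RM

namespace Pool.Agent.AMO

theorem W1R_thm : Stmt_W1R := by
  intro hT α β z w s g s' g' hF S hS
  have h := hF
  obtain ⟨b1, ba, z0, w0, wz, small, s0, g0, s0', g0', s2, g2, s2', g2'⟩ := h
  have ha0 : 0 < α := by linarith
  have hb0 : 0 < β := by linarith
  have haz : 0 < α * z := by positivity
  have hbz : 0 < β * z := by positivity
  have q1 : α * z ≤ 1 / 2 := by
    have h4 : α ^ 3 * (α * z) ≤ 1 := by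
      calc α ^ 3 * (α * z) = α ^ 4 * z := by ring
        _ ≤ 1 := small
    have h3 : (200 : ℝ) ^ 3 ≤ α ^ 3 := pow_le_pow_left₀ (by norm_num) (by linarith) 3
    have h5 : (200 : ℝ) ^ 3 * (α * z) ≤ α ^ 3 * (α * z) :=
      mul_le_mul_of_nonneg_right h3 haz.le
    have e : (200 : ℝ) ^ 3 = 8000000 := by norm_num
    rw [e] at h5
    linarith
  have q2 : β * z ≤ α * z := mul_le_mul_of_nonneg_right (by linarith) z0.le
  have t1 := (hT (-(α * z)) s (by rw [abs_neg, abs_of_pos haz]; exact q1) s0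
    (by rw [s2]; ring)).2.2
  have t2 := (hT (β * z) g (by rw [abs_of_pos hbz]; linarith) g0 g2).2.2
  exact W1RM.core α β z w s g s' g' hF t1 t2 S hS

end Pool.Agent.AMO
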