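import Pool.Agent.AMO.Stmts

/-!
# W3: the third window
-/

set_option autoImplicit false

namespace Pool.Agent.AMO

theorem W3_thm : Stmt_W3 := by
  intro hTAY hFRM hJ3R hJ3Z hGAP hALG hANA hEQ3 hMD3 k Y V U Y' V' U' hk hs hs' hlt hkY hY'
  obtain ⟨hm, hg⟩ := hGAP k Y V U Y' V' U' hk hs hs' hlt hkY
  obtain ⟨⟨hn1, hn2⟩, ⟨hN1, hN2⟩, -, -, -, hK⟩ := siz k hk
  have hk1 : (1 : ℤ) ≤ k := by exact_mod_cast (by omega : 1 ≤ k)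
  have hY0 : 0 < Y := hs.1
  have hY0' : 0 < Y' := hs'.1
  have hK0 : 0 ≤ al k + be k := by
    rw [al_add_be]
    positivity
  -- `Y³ ≤ k^8 Y'`
  have h1 : Y ^ 3 ≤ (k : ℤ) ^ 8 * Y' := by
    have e1 : Y ^ 3 ≤ NN k * Y ^ 3 * mm k Y V U Y' V' U' := by
      have hYp : 0 < Y ^ 3 := by positivity
      have e2 : Y ^ 3 ≤ NN k * Y ^ 3 := le_mul_of_one_le_left hYp.le hN1
      have e3 : NN k * Y ^ 3 ≤ NN k * Y ^ 3 * mm k Y V U Y' V' U' :=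
        le_mul_of_one_le_right (by linarith) hm
      linarith
    have e4 : nn k * (al k + be k) ≤ (k : ℤ) ^ 3 * (k : ℤ) ^ 5 :=
      mul_le_mul hn2 hK hK0 (by positivity)
    have e5 : nn k * (al k + be k) * Y' ≤ (k : ℤ) ^ 3 * (k : ℤ) ^ 5 * Y' :=
      mul_le_mul_of_nonneg_right e4 hY0'.le
    calc Y ^ 3 ≤ nn k * (al k + be k) * Y' := e1.trans hg
      _ ≤ (k : ℤ) ^ 3 * (k : ℤ) ^ 5 * Y' := e5
      _ = (k : ℤ) ^ 8 * Y' := by ring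
  have h2 : (k : ℤ) ^ 60 * Y ≤ Y' := by
    have hY2 : (k : ℤ) ^ 68 ≤ Y ^ 2 := by
      calc (k : ℤ) ^ 68 ≤ (k : ℤ) ^ 120 := pow_le_pow_right₀ hk1 (by norm_num)
        _ = ((k : ℤ) ^ 60) ^ 2 := by ring
        _ ≤ Y ^ 2 := pow_le_pow_left₀ (by positivity) hkY 2
    have h3 : (k : ℤ) ^ 8 * ((k : ℤ) ^ 60 * Y) ≤ (k : ℤ) ^ 8 * Y' := by
      calc (k : ℤ) ^ 8 * ((k : ℤ) ^ 60 * Y) = (k : ℤ) ^ 68 * Y := by ring
        _ ≤ Y ^ 2 * Y := mul_le_mul_of_nonneg_right hY2 hY0.le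
        _ = Y ^ 3 := by ring
        _ ≤ _ := h1
    exact le_of_mul_le_mul_left h3 (by positivity)
  have h4 := hJ3Z hTAY hFRM hJ3R k Y V U Y' V' U' hk hs hs' hlt.le hkY h2 hY'
  have h5 := hEQ3 hGAP hALG hANA k Y V U Y' V' U' hk hs hs' hlt hkY h4
  exact hMD3 k (mm k Y V U Y' V' U') (by omega) h5

end Pool.Agent.AMO
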