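import Pool.Agent.AMO.Stmts

set_option autoImplicit false

namespace Pool.Agent.AMO

namespace WNIM

/-- The bound of the prefactor. -/
lemma pref (n k : ℕ) (D α β : ℝ) (hk : 100 ≤ k) (hn : n ≤ k) (hD : D ≤ (k : ℝ) ^ 3)
    (hβ1 : 1 ≤ β) (hβ : β ≤ (k : ℝ) ^ 2) (hα1 : 0 < α) (hα : α ≤ (k : ℝ) ^ 5)
    (hK : α + β ≤ (k : ℝ) ^ 5) :
    D * (2 ^ n * (n.factorial : ℝ)) * (α * β * (α + β)) ^ (2 * n + 1) * 128 ^ (n + 1) ≤
      (k : ℝ) ^ (28 * n + 17) := by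
  have hk1 : (100 : ℝ) ≤ k := by exact_mod_cast hk
  have h2 : (2 : ℝ) ^ n ≤ (k : ℝ) ^ n := pow_le_pow_left₀ (by norm_num) (by linarith) n
  have h3 : (n.factorial : ℝ) ≤ (k : ℝ) ^ n := by
    have e1 : n.factorial ≤ n ^ n := Nat.factorial_le_pow n
    have e2 : n ^ n ≤ k ^ n := Nat.pow_le_pow_left hn n
    exact_mod_cast e1.trans e2
  have h4 : α * β * (α + β) ≤ (k : ℝ) ^ 12 := by
    have e1 : α * β ≤ (k : ℝ) ^ 5 * (k : ℝ) ^ 2 :=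
      mul_le_mul hα hβ (by linarith) (by positivity)
    have e2 : α * β * (α + β) ≤ (k : ℝ) ^ 5 * (k : ℝ) ^ 2 * (k : ℝ) ^ 5 :=
      mul_le_mul e1 hK (by linarith) (by positivity)
    calc α * β * (α + β) ≤ (k : ℝ) ^ 5 * (k : ℝ) ^ 2 * (k : ℝ) ^ 5 := e2
      _ = (k : ℝ) ^ 12 := by ring
  have h5 : (α * β * (α + β)) ^ (2 * n + 1) ≤ ((k : ℝ) ^ 12) ^ (2 * n + 1) :=
    pow_le_pow_left₀ (by positivity) h4 _
  have h6 : (128 : ℝ) ^ (n + 1) ≤ ((k : ℝ) ^ 2) ^ (n + 1) :=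
    pow_le_pow_left₀ (by norm_num) (by nlinarith) _
  have h7 : (2 : ℝ) ^ n * (n.factorial : ℝ) ≤ (k : ℝ) ^ n * (k : ℝ) ^ n :=
    mul_le_mul h2 h3 (by positivity) (by positivity)
  have h8 : D * (2 ^ n * (n.factorial : ℝ)) ≤ (k : ℝ) ^ 3 * ((k : ℝ) ^ n * (k : ℝ) ^ n) :=
    mul_le_mul hD h7 (by positivity) (by positivity)
  have h9 : D * (2 ^ n * (n.factorial : ℝ)) * (α * β * (α + β)) ^ (2 * n + 1) ≤
      (k : ℝ) ^ 3 * ((k : ℝ) ^ n * (k : ℝ) ^ n) * ((k : ℝ) ^ 12) ^ (2 * n + 1) :=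
    mul_le_mul h8 h5 (by positivity) (by positivity)
  have h10 : D * (2 ^ n * (n.factorial : ℝ)) * (α * β * (α + β)) ^ (2 * n + 1) * 128 ^ (n + 1) ≤
      (k : ℝ) ^ 3 * ((k : ℝ) ^ n * (k : ℝ) ^ n) * ((k : ℝ) ^ 12) ^ (2 * n + 1) *
        ((k : ℝ) ^ 2) ^ (n + 1) :=
    mul_le_mul h9 h6 (by positivity) (by positivity)
  refine h10.trans (le_of_eq ?_)
  rw [← pow_mul, ← pow_mul, ← pow_add, ← pow_add, ← pow_add, ← pow_add]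
  congr 1
  ring

/-- The first part. -/
lemma part1 (n k : ℕ) (D α y y' z P : ℝ) (hk : 100 ≤ k) (hD1 : 1 ≤ D) (hα1 : 0 < α)
    (hα : α ≤ (k : ℝ) ^ 5) (hy : (k : ℝ) ^ 60 ≤ y) (hy' : 0 < y') (hz : z = 1 / (D * y ^ 2))
    (hP0 : 0 ≤ P) (hP : P ≤ (k : ℝ) ^ (28 * n + 17))
    (h : (k : ℝ) ^ (50 * n) * y' ≤ y ^ (3 * n + 2)) :
    P * ((D * y ^ 2) ^ n * (y * y') * (α * z) ^ (3 * n + 2)) < 1 / 2 := by
  have hk1 : (100 : ℝ) ≤ k := by exact_mod_cast hk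
  have hk0 : (0 : ℝ) < k := by linarith
  have hy0 : 0 < y := lt_of_lt_of_le (by positivity) hy
  have hX : y ^ 2 ≤ D * y ^ 2 := by nlinarith [sq_nonneg y]
  have hX0 : 0 < D * y ^ 2 := by positivity
  have e1 : (D * y ^ 2) ^ n * (y * y') * (α * z) ^ (3 * n + 2) =
      α ^ (3 * n + 2) * (y * y') / (D * y ^ 2) ^ (2 * n + 2) := by
    rw [hz, mul_pow α, div_pow, one_pow]
    have e2 : (D * y ^ 2) ^ (3 * n + 2) = (D * y ^ 2) ^ n * (D * y ^ 2) ^ (2 * n + 2) := by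
      rw [← pow_add]; congr 1; ring
    rw [e2]
    have e3 : (D * y ^ 2) ^ n ≠ 0 := by positivity
    have e4 : (D * y ^ 2) ^ (2 * n + 2) ≠ 0 := by positivity
    generalize (D * y ^ 2) ^ n = A at e3 ⊢
    generalize (D * y ^ 2) ^ (2 * n + 2) = B at e4 ⊢
    field_simp
  have e5 : (y ^ 2) ^ (2 * n + 2) ≤ (D * y ^ 2) ^ (2 * n + 2) :=
    pow_le_pow_left₀ (by positivity) hX _
  have e6 : α ^ (3 * n + 2) ≤ ((k : ℝ) ^ 5) ^ (3 * n + 2) := pow_le_pow_left₀ hα1.le hα _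
  have e7 : α ^ (3 * n + 2) * (y * y') / (D * y ^ 2) ^ (2 * n + 2) ≤
      ((k : ℝ) ^ 5) ^ (3 * n + 2) * (y * y') / (y ^ 2) ^ (2 * n + 2) := by
    apply div_le_div₀ (by positivity) _ (by positivity) e5
    exact mul_le_mul_of_nonneg_right e6 (by positivity)
  rw [e1]
  have e8 : P * (α ^ (3 * n + 2) * (y * y') / (D * y ^ 2) ^ (2 * n + 2)) ≤
      (k : ℝ) ^ (28 * n + 17) *
        (((k : ℝ) ^ 5) ^ (3 * n + 2) * (y * y') / (y ^ 2) ^ (2 * n + 2)) :=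
    mul_le_mul hP e7 (by positivity) (by positivity)
  refine lt_of_le_of_lt e8 ?_
  rw [← mul_div_assoc, div_lt_iff₀ (by positivity)]
  -- main inequality
  have f1 : (k : ℝ) ^ (28 * n + 17) * (((k : ℝ) ^ 5) ^ (3 * n + 2) * (y * y')) =
      (k : ℝ) ^ (43 * n + 27) * y' * y := by
    have : (k : ℝ) ^ (43 * n + 27) = (k : ℝ) ^ (28 * n + 17) * ((k : ℝ) ^ 5) ^ (3 * n + 2) := by
      rw [← pow_mul, ← pow_add]; congr 1; ring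
    rw [this]; ring
  have f2 : (y ^ 2) ^ (2 * n + 2) = y ^ (3 * n + 2) * y ^ n * y * y := by
    rw [← pow_mul, ← pow_add, ← pow_succ, ← pow_succ]; congr 1; ring
  rw [f1, f2]
  have hkpow : (1 : ℝ) ≤ (k : ℝ) ^ 60 := one_le_pow₀ (by linarith)
  have f3 : (1 : ℝ) ≤ y ^ n := one_le_pow₀ (by linarith)
  have f4 : (k : ℝ) ^ (43 * n + 27) * 100 ≤ (k : ℝ) ^ (50 * n) * (k : ℝ) ^ 60 := by
    have g1 : (k : ℝ) ^ (43 * n + 27) * 100 ≤ (k : ℝ) ^ (43 * n + 27) * k :=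
      mul_le_mul_of_nonneg_left hk1 (by positivity)
    have g2 : (k : ℝ) ^ (43 * n + 27) * k = (k : ℝ) ^ (43 * n + 28) := by rw [← pow_succ]
    have g3 : (k : ℝ) ^ (43 * n + 28) ≤ (k : ℝ) ^ (50 * n + 60) :=
      pow_le_pow_right₀ (by linarith) (by omega)
    rw [pow_add (k : ℝ) (50 * n) 60] at g3
    linarith
  have f5 : (k : ℝ) ^ (43 * n + 27) * 100 * y' ≤ y ^ (3 * n + 2) * y ^ n * y := by
    calc (k : ℝ) ^ (43 * n + 27) * 100 * y' ≤ (k : ℝ) ^ (50 * n) * (k : ℝ) ^ 60 * y' :=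
          mul_le_mul_of_nonneg_right f4 hy'.le
      _ = (k : ℝ) ^ (50 * n) * y' * (k : ℝ) ^ 60 := by ring
      _ ≤ y ^ (3 * n + 2) * y := mul_le_mul h hy (by positivity) (by positivity)
      _ ≤ y ^ (3 * n + 2) * y ^ n * y := by
          have g4 : y ^ (3 * n + 2) * 1 ≤ y ^ (3 * n + 2) * y ^ n :=
            mul_le_mul_of_nonneg_left f3 (by positivity)
          have := mul_le_mul_of_nonneg_right g4 hy0.le
          linarith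
  have f6 : 0 < (k : ℝ) ^ (43 * n + 27) * y' := by positivity
  have f7 : (k : ℝ) ^ (43 * n + 27) * y' < 1 / 2 * (y ^ (3 * n + 2) * y ^ n * y) := by
    nlinarith
  calc (k : ℝ) ^ (43 * n + 27) * y' * y < 1 / 2 * (y ^ (3 * n + 2) * y ^ n * y) * y :=
        mul_lt_mul_of_pos_right f7 hy0
    _ = 1 / 2 * (y ^ (3 * n + 2) * y ^ n * y * y) := by ring

/-- The second part. -/
lemma part2 (n k : ℕ) (D α y y' w P : ℝ) (hk : 100 ≤ k) (hn : 2 ≤ n) (hD1 : 1 ≤ D)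
    (hD : D ≤ (k : ℝ) ^ 3) (hα1 : 0 < α)
    (hα : α ≤ (k : ℝ) ^ 5) (hy0 : 0 < y) (hy' : 0 < y') (hw : w = 1 / (D * y' ^ 2))
    (hP0 : 0 ≤ P) (hP : P ≤ (k : ℝ) ^ (28 * n + 17))
    (h : (k : ℝ) ^ (50 * n) * y ^ (2 * n + 1) ≤ y') :
    P * ((D * y ^ 2) ^ n * (y * y') * (α * w)) < 1 / 2 := by
  have hk1 : (100 : ℝ) ≤ k := by exact_mod_cast hk
  have hk0 : (0 : ℝ) < k := by linarith
  have e1 : (D * y ^ 2) ^ n * (y * y') * (α * w) = (D ^ n * α / D) * (y ^ (2 * n + 1) / y') := by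
    rw [hw, mul_pow, ← pow_mul, pow_succ y (2 * n)]
    field_simp
  have e2 : D ^ n * α / D ≤ (k : ℝ) ^ (3 * n) * (k : ℝ) ^ 5 := by
    rw [div_le_iff₀ (by linarith)]
    have g1 : D ^ n ≤ ((k : ℝ) ^ 3) ^ n := pow_le_pow_left₀ (by linarith) hD n
    rw [← pow_mul] at g1
    have g2 : D ^ n * α ≤ (k : ℝ) ^ (3 * n) * (k : ℝ) ^ 5 :=
      mul_le_mul g1 hα hα1.le (by positivity)
    have g3 : (k : ℝ) ^ (3 * n) * (k : ℝ) ^ 5 * 1 ≤ (k : ℝ) ^ (3 * n) * (k : ℝ) ^ 5 * D :=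
      mul_le_mul_of_nonneg_left hD1 (by positivity)
    linarith
  rw [e1]
  have e3 : D ^ n * α / D * (y ^ (2 * n + 1) / y') ≤
      (k : ℝ) ^ (3 * n) * (k : ℝ) ^ 5 * (y ^ (2 * n + 1) / y') :=
    mul_le_mul_of_nonneg_right e2 (by positivity)
  have e4 : P * (D ^ n * α / D * (y ^ (2 * n + 1) / y')) ≤
      (k : ℝ) ^ (28 * n + 17) * ((k : ℝ) ^ (3 * n) * (k : ℝ) ^ 5 * (y ^ (2 * n + 1) / y')) :=
    mul_le_mul hP e3 (by positivity) (by positivity)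
  refine lt_of_le_of_lt e4 ?_
  have e5 : (k : ℝ) ^ (28 * n + 17) * ((k : ℝ) ^ (3 * n) * (k : ℝ) ^ 5 * (y ^ (2 * n + 1) / y')) =
      (k : ℝ) ^ (31 * n + 22) * y ^ (2 * n + 1) / y' := by
    have : (k : ℝ) ^ (31 * n + 22) = (k : ℝ) ^ (28 * n + 17) * ((k : ℝ) ^ (3 * n) * (k : ℝ) ^ 5) := by
      rw [← pow_add, ← pow_add]; congr 1; ring
    rw [this]; ring
  rw [e5, div_lt_iff₀ hy']
  have e6 : (k : ℝ) ^ (31 * n + 22) * 100 ≤ (k : ℝ) ^ (50 * n) := by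
    have g1 : (k : ℝ) ^ (31 * n + 22) * 100 ≤ (k : ℝ) ^ (31 * n + 22) * k :=
      mul_le_mul_of_nonneg_left hk1 (by positivity)
    have g2 : (k : ℝ) ^ (31 * n + 22) * k = (k : ℝ) ^ (31 * n + 23) := by rw [← pow_succ]
    have g3 : (k : ℝ) ^ (31 * n + 23) ≤ (k : ℝ) ^ (50 * n) :=
      pow_le_pow_right₀ (by linarith) (by omega)
    linarith
  have e7 : (k : ℝ) ^ (31 * n + 22) * 100 * y ^ (2 * n + 1) ≤ (k : ℝ) ^ (50 * n) * y ^ (2 * n + 1) :=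
    mul_le_mul_of_nonneg_right e6 (by positivity)
  have e8 : 0 < (k : ℝ) ^ (31 * n + 22) * y ^ (2 * n + 1) := by positivity
  nlinarith

/-- The condition for the form to be nonzero. -/
lemma nz (n k : ℕ) (D α y y' : ℝ) (hk : 100 ≤ k) (hn : 1 ≤ n) (hD1 : 1 ≤ D)
    (hα1 : 0 < α) (hα : α ≤ (k : ℝ) ^ 5) (hy0 : 0 < y) (hy' : 0 < y')
    (h : (k : ℝ) ^ (50 * n) * y' ≤ y ^ (3 * n + 2)) :
    (4096 * α ^ 6) ^ (n + 1) * (1 / (D * y ^ 2)) ^ (3 * n + 2) ≤ 1 / (D * y' ^ 2) := by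
  have hk1 : (100 : ℝ) ≤ k := by exact_mod_cast hk
  have hk0 : (0 : ℝ) < k := by linarith
  have e1 : 4096 * α ^ 6 ≤ (k : ℝ) ^ 32 := by
    have g1 : α ^ 6 ≤ ((k : ℝ) ^ 5) ^ 6 := pow_le_pow_left₀ hα1.le hα 6
    have g2 : (4096 : ℝ) ≤ (k : ℝ) ^ 2 := by nlinarith
    calc 4096 * α ^ 6 ≤ (k : ℝ) ^ 2 * ((k : ℝ) ^ 5) ^ 6 :=
          mul_le_mul g2 g1 (by positivity) (by positivity)
      _ = (k : ℝ) ^ 32 := by ring
  have e2 : (4096 * α ^ 6) ^ (n + 1) ≤ (k : ℝ) ^ (100 * n) := by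
    calc (4096 * α ^ 6) ^ (n + 1) ≤ ((k : ℝ) ^ 32) ^ (n + 1) :=
          pow_le_pow_left₀ (by positivity) e1 _
      _ = (k : ℝ) ^ (32 * (n + 1)) := by rw [← pow_mul]
      _ ≤ (k : ℝ) ^ (100 * n) := pow_le_pow_right₀ (by linarith) (by omega)
  have e3 : (k : ℝ) ^ (100 * n) * y' ^ 2 ≤ y ^ (6 * n + 4) := by
    have g1 : ((k : ℝ) ^ (50 * n) * y') ^ 2 ≤ (y ^ (3 * n + 2)) ^ 2 :=
      pow_le_pow_left₀ (by positivity) h 2
    have g2 : ((k : ℝ) ^ (50 * n) * y') ^ 2 = (k : ℝ) ^ (100 * n) * y' ^ 2 := by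
      rw [mul_pow, ← pow_mul]; congr 2; ring
    have g3 : (y ^ (3 * n + 2)) ^ 2 = y ^ (6 * n + 4) := by
      rw [← pow_mul]; congr 1; ring
    rw [g2, g3] at g1
    exact g1
  have e4 : D * y ^ (6 * n + 4) ≤ (D * y ^ 2) ^ (3 * n + 2) := by
    rw [mul_pow, ← pow_mul]
    have g1 : y ^ (2 * (3 * n + 2)) = y ^ (6 * n + 4) := by congr 1; ring
    rw [g1]
    apply mul_le_mul_of_nonneg_right _ (by positivity)
    have := pow_le_pow_right₀ hD1 (show 1 ≤ 3 * n + 2 by omega)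
    rwa [pow_one] at this
  rw [div_pow, one_pow, mul_one_div, div_le_div_iff₀ (by positivity) (by positivity), one_mul]
  calc (4096 * α ^ 6) ^ (n + 1) * (D * y' ^ 2) ≤ (k : ℝ) ^ (100 * n) * (D * y' ^ 2) :=
        mul_le_mul_of_nonneg_right e2 (by positivity)
    _ = D * ((k : ℝ) ^ (100 * n) * y' ^ 2) := by ring
    _ ≤ D * y ^ (6 * n + 4) := mul_le_mul_of_nonneg_left e3 (by linarith)
    _ ≤ (D * y ^ 2) ^ (3 * n + 2) := e4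

end WNIM

open WNIM in
theorem WNI_thm : Stmt_WNI := by
  intro hBNB hEEB hEEP hVAN hNOD hBNI hBSR hREM hA1U hA2B hWNR hBNZ hEEZ hITG hFRM
    n k Y V U Y' V' U' hk hn hnk hS hS' hYY hY h1 h2
  have hk1 : (100 : ℝ) ≤ k := by exact_mod_cast hk
  have hk0 : (0 : ℝ) < k := by linarith
  obtain ⟨s, g, s', g', hFr, hv, hu⟩ := hFRM k Y V U Y' V' U' (by omega) hS hS' hYY hY
  obtain ⟨J, hJ⟩ := hITG hBNZ hEEZ n k Y V U Y' V' U' s g s' g' (by omega) hS.1 hS'.1 hv hu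
  obtain ⟨⟨-, -⟩, ⟨-, -⟩, ⟨d1, d2⟩, ⟨b1, b2⟩, ⟨a1, a2⟩, a3⟩ := siz k (by omega)
  have d1' : (1 : ℝ) ≤ (DD k : ℝ) := by exact_mod_cast d1
  have d2' : (DD k : ℝ) ≤ (k : ℝ) ^ 3 := by exact_mod_cast d2
  have b1' : (1 : ℝ) ≤ (be k : ℝ) := by exact_mod_cast b1
  have b2' : (be k : ℝ) ≤ (k : ℝ) ^ 2 := by exact_mod_cast b2
  have a1' : (200 : ℝ) * (be k : ℝ) ≤ (al k : ℝ) := by exact_mod_cast a1
  have a2' : (al k : ℝ) ≤ (k : ℝ) ^ 5 := by exact_mod_cast a2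
  have a3' : (al k : ℝ) + (be k : ℝ) ≤ (k : ℝ) ^ 5 := by exact_mod_cast a3
  have hY0 : (0 : ℝ) < (Y : ℝ) := by exact_mod_cast hS.1
  have hY0' : (0 : ℝ) < (Y' : ℝ) := by exact_mod_cast hS'.1
  have hYr : (k : ℝ) ^ 60 ≤ (Y : ℝ) := by exact_mod_cast hY
  have h1' : (k : ℝ) ^ (50 * n) * (Y : ℝ) ^ (2 * n + 1) ≤ (Y' : ℝ) := by exact_mod_cast h1
  have h2' : (k : ℝ) ^ (50 * n) * (Y' : ℝ) ≤ (Y : ℝ) ^ (3 * n + 2) := by exact_mod_cast h2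
  generalize (DD k : ℝ) = D at *
  generalize (al k : ℝ) = α at *
  generalize (be k : ℝ) = β at *
  have hα0 : 0 < α := by linarith
  have hnk' : (n : ℝ) ≤ k := by exact_mod_cast hnk
  have hcond : 8 * ((n : ℝ) + 1) * (β * (1 / (D * (Y : ℝ) ^ 2))) ≤ 1 := by
    rw [mul_one_div, ← mul_div_assoc, div_le_one (by positivity)]
    have g1 : 8 * ((n : ℝ) + 1) * β ≤ 8 * ((k : ℝ) + 1) * (k : ℝ) ^ 2 := by
      apply mul_le_mul _ b2' (by linarith) (by positivity)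
      linarith
    have g2 : 8 * ((k : ℝ) + 1) * (k : ℝ) ^ 2 ≤ (k : ℝ) ^ 4 := by
      nlinarith [sq_nonneg (k : ℝ), mul_pos hk0 hk0, mul_pos (mul_pos hk0 hk0) hk0]
    have g3 : (k : ℝ) ^ 4 ≤ (k : ℝ) ^ 60 := pow_le_pow_right₀ (by linarith) (by norm_num)
    have g4 : (1 : ℝ) ≤ (Y : ℝ) := by
      have : (1 : ℝ) ≤ (k : ℝ) ^ 60 := one_le_pow₀ (by linarith)
      linarith
    have g5 : (Y : ℝ) ≤ (Y : ℝ) ^ 2 := by nlinarith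
    have g6 : (Y : ℝ) ^ 2 ≤ D * (Y : ℝ) ^ 2 := by nlinarith [sq_nonneg (Y : ℝ)]
    linarith
  obtain ⟨hbd, hnz⟩ := hWNR hBNB hEEB hEEP hVAN hNOD hBNI hBSR hREM hA1U hA2B n α β
    (1 / (D * (Y : ℝ) ^ 2)) (1 / (D * (Y' : ℝ) ^ 2)) s g s' g' (by omega) hFr hcond
  have hne := hnz (nz n k D α Y Y' hk (by omega) d1' hα0 a2' hY0 hY0' h2')
  obtain ⟨S, hSdef⟩ : ∃ S : ℝ, S = SS n α β (1 / (D * (Y : ℝ) ^ 2)) s g s' g' := ⟨_, rfl⟩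
  rw [← hSdef] at hbd hne hJ
  have hfac : (0 : ℝ) < (n.factorial : ℝ) := by exact_mod_cast Nat.factorial_pos n
  have hJne : (J : ℝ) ≠ 0 := by
    rw [hJ]
    have : 0 < D * (2 ^ n * (n.factorial : ℝ)) * (α * β * (α + β)) ^ (2 * n + 1) *
        (D * (Y : ℝ) ^ 2) ^ n * ((Y : ℝ) * Y') := by positivity
    exact mul_ne_zero this.ne' hne
  have hJ1 : (1 : ℝ) ≤ |(J : ℝ)| := by
    have h0 : J ≠ 0 := by
      intro h; apply hJne; rw [h]; simp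
    have := Int.one_le_abs h0
    exact_mod_cast this
  obtain ⟨P, hPdef⟩ : ∃ P : ℝ, P = D * (2 ^ n * (n.factorial : ℝ)) *
    (α * β * (α + β)) ^ (2 * n + 1) * 128 ^ (n + 1) := ⟨_, rfl⟩
  have hP := pref n k D α β hk hnk d2' b1' b2' hα0 a2' a3'
  rw [← hPdef] at hP
  have hP0 : 0 ≤ P := by rw [hPdef]; positivity
  have p1 := part1 n k D α Y Y' _ P hk d1' hα0 a2' hYr hY0' rfl hP0 hP h2'
  have p2 := part2 n k D α Y Y' _ P hk hn d1' d2' hα0 a2' hY0 hY0' rfl hP0 hP h1'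
  have habs : |(J : ℝ)| = D * (2 ^ n * (n.factorial : ℝ)) * (α * β * (α + β)) ^ (2 * n + 1) *
      (D * (Y : ℝ) ^ 2) ^ n * ((Y : ℝ) * Y') * |S| := by
    rw [hJ, abs_mul, abs_of_pos (by positivity)]
  have hle : |(J : ℝ)| ≤ P * ((D * (Y : ℝ) ^ 2) ^ n * ((Y : ℝ) * Y') *
      (α * (1 / (D * (Y : ℝ) ^ 2))) ^ (3 * n + 2)) +
      P * ((D * (Y : ℝ) ^ 2) ^ n * ((Y : ℝ) * Y') * (α * (1 / (D * (Y' : ℝ) ^ 2)))) := by
    rw [habs]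
    have g1 : 0 ≤ D * (2 ^ n * (n.factorial : ℝ)) * (α * β * (α + β)) ^ (2 * n + 1) *
      (D * (Y : ℝ) ^ 2) ^ n * ((Y : ℝ) * Y') := by positivity
    refine (mul_le_mul_of_nonneg_left hbd g1).trans (le_of_eq ?_)
    rw [hPdef]
    ring
  linarith

end Pool.Agent.AMO
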