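import Pool.Agent.AMO.Stmts

/-!
# The general form is small and not zero (project AMO, module WNR)
-/

set_option autoImplicit false

namespace Pool.Agent.AMO

namespace WNRM

theorem pow_a (n : ℕ) (hn : 1 ≤ n) : (12 : ℝ) * 32 ^ (n + 1) ≤ 40000 ^ n := by
  induction n, hn using Nat.le_induction with
  | base => norm_num
  | succ k hk ih =>
    have h1 : (0 : ℝ) ≤ 40000 ^ k := by positivity
    calc (12 : ℝ) * 32 ^ (k + 1 + 1) = (12 * 32 ^ (k + 1)) * 32 := by ring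
      _ ≤ 40000 ^ k * 32 := by nlinarith
      _ ≤ 40000 ^ k * 40000 := by nlinarith
      _ = 40000 ^ (k + 1) := by ring

theorem pow_b (n : ℕ) : (12 : ℝ) * 256 ^ (n + 1) < 4096 ^ (n + 1) := by
  have h1 : (4096 : ℝ) ^ (n + 1) = 16 ^ (n + 1) * 256 ^ (n + 1) := by
    rw [← mul_pow]; norm_num
  have h2 : (16 : ℝ) ≤ 16 ^ (n + 1) := by
    have : (1 : ℝ) ≤ 16 ^ n := one_le_pow₀ (by norm_num)
    rw [pow_succ]; linarith
  have h3 : (0 : ℝ) < 256 ^ (n + 1) := by positivity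
  rw [h1]
  nlinarith

theorem pow_c (n : ℕ) : (16 : ℝ) ^ (n + 1) + 8 ^ (n + 1) ≤ 128 ^ (n + 1) := by
  have h1 : (128 : ℝ) ^ (n + 1) = 8 ^ (n + 1) * 16 ^ (n + 1) := by
    rw [← mul_pow]; norm_num
  have h2 : (8 : ℝ) ^ (n + 1) ≤ 16 ^ (n + 1) := pow_le_pow_left₀ (by norm_num) (by norm_num) _
  have h3 : (2 : ℝ) ≤ 8 ^ (n + 1) := by
    have : (1 : ℝ) ≤ 8 ^ n := one_le_pow₀ (by norm_num)
    rw [pow_succ]; linarith
  have h4 : (0 : ℝ) < 16 ^ (n + 1) := by positivity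
  rw [h1]
  nlinarith

/-- `12 16^(n+1) β^(2n) (α+β)^(n+1) ≤ α^(3n+1)` -/
theorem bd1 (n : ℕ) (hn : 1 ≤ n) (α β : ℝ) (b1 : 1 ≤ β) (ba : 200 * β ≤ α) :
    12 * 16 ^ (n + 1) * β ^ (2 * n) * (α + β) ^ (n + 1) ≤ α ^ (3 * n + 1) := by
  have a1 : 0 < α := by linarith
  have b0 : 0 < β := by linarith
  have h1 : (α + β) ^ (n + 1) ≤ 2 ^ (n + 1) * α ^ (n + 1) := by
    rw [← mul_pow]
    exact pow_le_pow_left₀ (by linarith) (by linarith) _
  have h2 : 40000 ^ n * β ^ (2 * n) ≤ α ^ (2 * n) := by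
    have : (40000 : ℝ) ^ n * β ^ (2 * n) = (200 * β) ^ (2 * n) := by
      rw [mul_pow, pow_mul (200 : ℝ) 2 n]; norm_num
    rw [this]
    exact pow_le_pow_left₀ (by linarith) ba _
  have h3 := pow_a n hn
  calc 12 * 16 ^ (n + 1) * β ^ (2 * n) * (α + β) ^ (n + 1)
      ≤ 12 * 16 ^ (n + 1) * β ^ (2 * n) * (2 ^ (n + 1) * α ^ (n + 1)) :=
        mul_le_mul_of_nonneg_left h1 (by positivity)
    _ = (12 * 32 ^ (n + 1)) * β ^ (2 * n) * α ^ (n + 1) := by
        have : (32 : ℝ) ^ (n + 1) = 16 ^ (n + 1) * 2 ^ (n + 1) := by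
          rw [← mul_pow]; norm_num
        rw [this]; ring
    _ ≤ 40000 ^ n * β ^ (2 * n) * α ^ (n + 1) := by
        apply mul_le_mul_of_nonneg_right _ (by positivity)
        exact mul_le_mul_of_nonneg_right h3 (by positivity)
    _ ≤ α ^ (2 * n) * α ^ (n + 1) := mul_le_mul_of_nonneg_right h2 (by positivity)
    _ = α ^ (3 * n + 1) := by rw [← pow_add]; congr 1; ring

/-- `12 128^(n+1) α^(3n+2) β^(2n) (α+β)^(n+1) < (4096 α^6)^(n+1)` -/
theorem bd2 (n : ℕ) (α β : ℝ) (b1 : 1 ≤ β) (ba : 200 * β ≤ α) :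
    12 * 128 ^ (n + 1) * α ^ (3 * n + 2) * β ^ (2 * n) * (α + β) ^ (n + 1) <
      (4096 * α ^ 6) ^ (n + 1) := by
  have a1 : 1 ≤ α := by linarith
  have a0 : 0 < α := by linarith
  have b0 : 0 < β := by linarith
  have h1 : (α + β) ^ (n + 1) ≤ 2 ^ (n + 1) * α ^ (n + 1) := by
    rw [← mul_pow]
    exact pow_le_pow_left₀ (by linarith) (by linarith) _
  have h2 : β ^ (2 * n) ≤ α ^ (2 * n) := pow_le_pow_left₀ (by linarith) (by linarith) _
  have h3 := pow_b n
  calc 12 * 128 ^ (n + 1) * α ^ (3 * n + 2) * β ^ (2 * n) * (α + β) ^ (n + 1)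
      ≤ 12 * 128 ^ (n + 1) * α ^ (3 * n + 2) * α ^ (2 * n) * (2 ^ (n + 1) * α ^ (n + 1)) := by
        apply mul_le_mul _ h1 (by positivity) (by positivity)
        exact mul_le_mul_of_nonneg_left h2 (by positivity)
    _ = (12 * 256 ^ (n + 1)) * α ^ (6 * n + 3) := by
        have e1 : (256 : ℝ) ^ (n + 1) = 128 ^ (n + 1) * 2 ^ (n + 1) := by
          rw [← mul_pow]; norm_num
        have e2 : α ^ (6 * n + 3) = α ^ (3 * n + 2) * α ^ (2 * n) * α ^ (n + 1) := by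
          rw [← pow_add, ← pow_add]; congr 1; ring
        rw [e1, e2]; ring
    _ < 4096 ^ (n + 1) * α ^ (6 * n + 3) := mul_lt_mul_of_pos_right h3 (by positivity)
    _ ≤ 4096 ^ (n + 1) * α ^ (6 * n + 6) := by
        apply mul_le_mul_of_nonneg_left _ (by positivity)
        exact pow_le_pow_right₀ a1 (by omega)
    _ = (4096 * α ^ 6) ^ (n + 1) := by
        rw [mul_pow, ← pow_mul]; congr 2

end WNRM

open WNRM

theorem WNR_thm : Stmt_WNR := by
  intro hBNB hEEB hEEP hVAN hNOD hBNI hBSR hREM hA1U hA2B n α β z w s g s' g' hn hF hz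
  have hI := hREM hBNB hEEB hVAN hNOD hBNI hBSR n α β z w s g s' g' hF
  have hA1 := hA1U hBNB hEEB n α β z w s g s' g' hF
  obtain ⟨hA2l, hA2u⟩ := hA2B hBNB hEEB hEEP n α β z w s g s' g' hF hz
  obtain ⟨b1, ba, z0, w0, wz, small, s0, g0, s0', g0', s2, g2, s2', g2'⟩ := hF
  have a1 : 1 ≤ α := by linarith
  have a0 : 0 < α := by linarith
  have b0 : 0 < β := by linarith
  have haz : α * z ≤ 1 := by
    have h4 : α ≤ α ^ 4 := by
      calc α = α ^ 1 := (pow_one α).symm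
        _ ≤ α ^ 4 := pow_le_pow_right₀ a1 (by norm_num)
    calc α * z ≤ α ^ 4 * z := mul_le_mul_of_nonneg_right h4 z0.le
      _ ≤ 1 := small
  have haw : α * w ≤ 1 := (mul_le_mul_of_nonneg_left wz a0.le).trans haz
  have hbz : β * z ≤ 1 := (mul_le_mul_of_nonneg_right (by linarith : β ≤ α) z0.le).trans haz
  have hbw : β * w ≤ 1 := (mul_le_mul_of_nonneg_left wz b0.le).trans hbz
  have az0 : 0 < α * z := mul_pos a0 z0
  have aw0 : 0 < α * w := mul_pos a0 w0
  have bz0 : 0 < β * z := mul_pos b0 z0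
  have bw0 : 0 < β * w := mul_pos b0 w0
  have s1 : s ≤ 1 := by nlinarith
  have s1' : s' ≤ 1 := by nlinarith
  have hs' : 1 - s' ≤ α * w := by nlinarith
  have g1 : 1 ≤ g := by nlinarith
  have gu : g ≤ 2 := by nlinarith
  have g1' : 1 ≤ g' := by nlinarith
  have gu' : g' ≤ 2 := by nlinarith
  have hgl : β * w / 3 ≤ g' - 1 := by nlinarith
  have hgu : g' - 1 ≤ β * w / 2 := by nlinarith
  unfold SS
  set A0 := AA n 0 α (-β) z with hA0
  set A1 := AA n (-α) (-α) (-α - β) z with hA1d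
  set A2 := AA n β β (β + α) z with hA2d
  have e : A0 + A1 * (s * s') + A2 * (g * g') =
      (A0 + A1 * s + A2 * g) + A1 * s * (s' - 1) + A2 * g * (g' - 1) := by ring
  have p1 : (0 : ℝ) < (α ^ (3 * n + 2))⁻¹ := by positivity
  have t1 : |A1 * s * (s' - 1)| ≤ 16 ^ (n + 1) * (α ^ (3 * n + 2))⁻¹ * (α * w) := by
    rw [abs_mul, abs_mul, abs_of_nonneg s0, abs_of_nonpos (by linarith : s' - 1 ≤ 0)]
    calc |A1| * s * -(s' - 1) ≤ |A1| * 1 * (α * w) := by
          apply mul_le_mul _ (by linarith) (by linarith) (by positivity)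
          exact mul_le_mul_of_nonneg_left s1 (abs_nonneg _)
      _ ≤ 16 ^ (n + 1) * (α ^ (3 * n + 2))⁻¹ * (α * w) := by
          rw [mul_one]
          exact mul_le_mul_of_nonneg_right hA1 aw0.le
  have t2 : |A2 * g * (g' - 1)| ≤ 8 ^ (n + 1) * (β * w) := by
    rw [abs_mul, abs_mul, abs_of_nonneg g0, abs_of_nonneg (by linarith : 0 ≤ g' - 1)]
    calc |A2| * g * (g' - 1) ≤ 8 ^ (n + 1) * 2 * (β * w / 2) := by
          apply mul_le_mul _ hgu (by linarith) (by positivity)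
          exact mul_le_mul hA2u gu g0 (by positivity)
      _ = 8 ^ (n + 1) * (β * w) := by ring
  refine ⟨?_, ?_⟩
  · rw [e]
    have h1 : (16 : ℝ) ^ (n + 1) * (α ^ (3 * n + 2))⁻¹ * (α * w) ≤ 16 ^ (n + 1) * (α * w) := by
      apply mul_le_mul_of_nonneg_right _ aw0.le
      have h2 : (α ^ (3 * n + 2))⁻¹ ≤ 1 := inv_le_one_of_one_le₀ (one_le_pow₀ a1)
      have h3 : (0 : ℝ) < 16 ^ (n + 1) := by positivity
      nlinarith
    have h2 : (8 : ℝ) ^ (n + 1) * (β * w) ≤ 8 ^ (n + 1) * (α * w) := by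
      apply mul_le_mul_of_nonneg_left _ (by positivity)
      exact mul_le_mul_of_nonneg_right (by linarith) w0.le
    have h3 : ((16 : ℝ) ^ (n + 1) + 8 ^ (n + 1)) * (α * w) ≤ 128 ^ (n + 1) * (α * w) :=
      mul_le_mul_of_nonneg_right (pow_c n) aw0.le
    calc |(A0 + A1 * s + A2 * g) + A1 * s * (s' - 1) + A2 * g * (g' - 1)|
        ≤ |A0 + A1 * s + A2 * g| + |A1 * s * (s' - 1)| + |A2 * g * (g' - 1)| :=
          abs_add_three _ _ _
      _ ≤ 128 ^ (n + 1) * ((α * z) ^ (3 * n + 2) + α * w) := by linarith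
  · intro hw hS
    rw [e] at hS
    have q1 : (0 : ℝ) < β ^ (2 * n) := by positivity
    have q2 : (0 : ℝ) < (α + β) ^ (n + 1) := by positivity
    set L : ℝ := w / (12 * (β ^ (2 * n) * (α + β) ^ (n + 1))) with hL
    have T : 2 * L ≤ |A2 * g * (g' - 1)| := by
      rw [abs_mul, abs_mul, abs_of_nonneg g0, abs_of_nonneg (by linarith : 0 ≤ g' - 1)]
      calc 2 * L = (β ^ (2 * n + 1))⁻¹ * ((α + β) ^ (n + 1))⁻¹ / 2 * 1 * (β * w / 3) := by
            rw [hL, pow_succ β (2 * n)]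
            field_simp
            ring
        _ ≤ |A2| * g * (g' - 1) := by
            apply mul_le_mul _ hgl (by positivity) (by positivity)
            exact mul_le_mul hA2l g1 (by norm_num) (abs_nonneg _)
    have T1 : |A1 * s * (s' - 1)| ≤ L := by
      refine t1.trans ?_
      rw [hL, le_div_iff₀ (by positivity)]
      have h1 := bd1 n hn α β b1 ba
      have h2 : (α ^ (3 * n + 2))⁻¹ * α = (α ^ (3 * n + 1))⁻¹ := by
        rw [show 3 * n + 2 = (3 * n + 1) + 1 from rfl, pow_succ]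
        field_simp
      have h3 : (0 : ℝ) < (α ^ (3 * n + 1))⁻¹ := by positivity
      calc 16 ^ (n + 1) * (α ^ (3 * n + 2))⁻¹ * (α * w) *
            (12 * (β ^ (2 * n) * (α + β) ^ (n + 1)))
          = (12 * 16 ^ (n + 1) * β ^ (2 * n) * (α + β) ^ (n + 1)) *
              ((α ^ (3 * n + 2))⁻¹ * α) * w := by ring
        _ = (12 * 16 ^ (n + 1) * β ^ (2 * n) * (α + β) ^ (n + 1)) *
              (α ^ (3 * n + 1))⁻¹ * w := by rw [h2]
        _ ≤ α ^ (3 * n + 1) * (α ^ (3 * n + 1))⁻¹ * w := by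
            apply mul_le_mul_of_nonneg_right _ w0.le
            exact mul_le_mul_of_nonneg_right h1 h3.le
        _ = w := by
            rw [mul_inv_cancel₀ (by positivity), one_mul]
    have T2 : |A0 + A1 * s + A2 * g| < L := by
      refine lt_of_le_of_lt hI ?_
      rw [hL, lt_div_iff₀ (by positivity)]
      have h1 := bd2 n α β b1 ba
      have h2 : (0 : ℝ) < z ^ (3 * n + 2) := by positivity
      calc 128 ^ (n + 1) * (α * z) ^ (3 * n + 2) * (12 * (β ^ (2 * n) * (α + β) ^ (n + 1)))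
          = (12 * 128 ^ (n + 1) * α ^ (3 * n + 2) * β ^ (2 * n) * (α + β) ^ (n + 1)) *
              z ^ (3 * n + 2) := by rw [mul_pow]; ring
        _ < (4096 * α ^ 6) ^ (n + 1) * z ^ (3 * n + 2) := mul_lt_mul_of_pos_right h1 h2
        _ ≤ w := hw
    have h5 : A2 * g * (g' - 1) = -((A0 + A1 * s + A2 * g) + A1 * s * (s' - 1)) := by linarith
    rw [h5, abs_neg] at T
    have h6 := abs_add_le (A0 + A1 * s + A2 * g) (A1 * s * (s' - 1))
    linarith

end Pool.Agent.AMO
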