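import Pool.Agent.AMO.Fin
import Pool.Agent.AMO.BNI
import Pool.Agent.AMO.BNB
import Pool.Agent.AMO.BNZ
import Pool.Agent.AMO.EEB
import Pool.Agent.AMO.EEZ
import Pool.Agent.AMO.EEP
import Pool.Agent.AMO.VAN
import Pool.Agent.AMO.BSR
import Pool.Agent.AMO.NOD
import Pool.Agent.AMO.REM
import Pool.Agent.AMO.A1U
import Pool.Agent.AMO.A2B
import Pool.Agent.AMO.WNR
import Pool.Agent.AMO.FRM
import Pool.Agent.AMO.TAY
import Pool.Agent.AMO.GAP
import Pool.Agent.AMO.ITG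
import Pool.Agent.AMO.WNI
import Pool.Agent.AMO.W1R
import Pool.Agent.AMO.W1
import Pool.Agent.AMO.J3R
import Pool.Agent.AMO.J3Z
import Pool.Agent.AMO.ALG
import Pool.Agent.AMO.ANA
import Pool.Agent.AMO.EQ3
import Pool.Agent.AMO.MD3
import Pool.Agent.AMO.W3
import Pool.Agent.AMO.COV
import Pool.Agent.AMO.EXT
import Pool.Agent.AMO.SZF

/-!
# At most one irregular extension: the assembly
-/

set_option autoImplicit false

namespace Pool.Agent.AMO

theorem win3_holds : Win3 :=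
  W3_thm TAY_thm FRM_thm J3R_thm J3Z_thm GAP_thm ALG_thm ANA_thm EQ3_thm MD3_thm

theorem win1_holds : Win1 :=
  W1 TAY_thm FRM_thm W1R_thm

theorem winN_holds : WinN :=
  WNI_thm BNB_thm EEB_thm EEP_thm VAN_thm NOD_thm BNI_thm BSR_thm REM_thm A1U_thm A2B_thm WNR_thm
    BNZ_thm EEZ_thm ITG_thm FRM_thm

/-- For all large `k` the triple has at most one irregular extension. -/
theorem at_most_one :
    ∃ k₀ : ℕ, ∀ k : ℕ, k₀ ≤ k → ∀ d d' : ℤ, Extends k d → Extends k d' →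
      d ≠ 8 * (k : ℤ) ^ 2 + 4 * k + 1 → d' ≠ 8 * (k : ℤ) ^ 2 + 4 * k + 1 → d = d' :=
  final (COV_thm win3_holds win1_holds winN_holds) EXT_thm SZF_thm

end Pool.Agent.AMO
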