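import Mathlib

/-!
# At most one irregular extension of `{1, 2k², 2k²+2k+1}`: definitions

See `Stmts.lean` for the theorem and the plan of the proof.
-/

set_option autoImplicit false

namespace Pool.Agent.AMO

/-- `n = 2k² - 1`. -/
def nn (k : ℕ) : ℤ := 2 * (k : ℤ) ^ 2 - 1

/-- `N = 2k + 1`. -/
def NN (k : ℕ) : ℤ := 2 * (k : ℤ) + 1

/-- `D = N² + 1`. -/
def DD (k : ℕ) : ℤ := (2 * (k : ℤ) + 1) ^ 2 + 1

/-- `α = n D`. -/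
def al (k : ℕ) : ℤ := nn k * DD k

/-- `β = 2 N`. -/
def be (k : ℕ) : ℤ := 2 * NN k

/-- The system of Pell equations of an extension `d`: `Y² = 2d - 1`, `V² = d - k²`,
`U² = 4 ((2k²+2k+1) d - k²)`. -/
def Sol (k : ℕ) (Y V U : ℤ) : Prop :=
  0 < Y ∧ 0 < V ∧ 0 < U ∧ Y ^ 2 - 2 * V ^ 2 = nn k ∧ U ^ 2 - DD k * Y ^ 2 = be k

/-- `m₀ = (α+β) Y Y' - 2β V V' - n U U'`. -/
def mm (k : ℕ) (Y V U Y' V' U' : ℤ) : ℤ :=
  (al k + be k) * (Y * Y') - 2 * be k * (V * V') - nn k * (U * U')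

/-- The third integer form, `X = D Y²`:
`(α+β)(4X+β-α) Y Y' - 2β(4X+β-2α) V V' - n(4X+2β-α) U U'`. -/
def jj (k : ℕ) (Y V U Y' V' U' : ℤ) : ℤ :=
  (al k + be k) * (4 * (DD k * Y ^ 2) + be k - al k) * (Y * Y') -
    2 * be k * (4 * (DD k * Y ^ 2) + be k - 2 * al k) * (V * V') -
    nn k * (4 * (DD k * Y ^ 2) + 2 * be k - al k) * (U * U')

/-- The real frame: `s = √(1-αz)`, `g = √(1+βz)`, `s' = √(1-αw)`, `g' = √(1+βw)`. -/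
structure Fr (α β z w s g s' g' : ℝ) : Prop where
  b1 : 1 ≤ β
  ba : 200 * β ≤ α
  z0 : 0 < z
  w0 : 0 < w
  wz : w ≤ z
  small : α ^ 4 * z ≤ 1
  s0 : 0 ≤ s
  g0 : 0 ≤ g
  s0' : 0 ≤ s'
  g0' : 0 ≤ g'
  s2 : s ^ 2 = 1 - α * z
  g2 : g ^ 2 = 1 + β * z
  s2' : s' ^ 2 = 1 - α * w
  g2' : g' ^ 2 = 1 + β * w

/-- `binom(n + 1/2, i)`. -/
noncomputable def bn (n i : ℕ) : ℝ :=
  (∏ t ∈ Finset.range i, ((n : ℝ) + 1 / 2 - t)) / (i.factorial : ℝ)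

/-- The coefficient of `x^m` in `(u+x)^(-n-1) (v+x)^(-n-1)`. -/
noncomputable def ee (n : ℕ) (u v : ℝ) (m : ℕ) : ℝ :=
  (-1) ^ m * ∑ p ∈ Finset.range (m + 1),
    ((n + p).choose p : ℝ) * ((n + (m - p)).choose (m - p) : ℝ) *
      (u ^ (n + 1 + p))⁻¹ * (v ^ (n + 1 + (m - p)))⁻¹

/-- The part of the node `a` in the confluent divided difference of `w ↦ w^h`. -/
noncomputable def EE (n h : ℕ) (a u v : ℝ) : ℝ :=
  ∑ i ∈ Finset.range (n + 1), (h.choose i : ℝ) * a ^ (h - i) * ee n u v (n - i)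

/-- The Padé approximant of the node `a`: a polynomial in `z` of degree at most `n`. -/
noncomputable def AA (n : ℕ) (a u v z : ℝ) : ℝ :=
  ∑ i ∈ Finset.range (n + 1), bn n i * z ^ i * (1 + a * z) ^ (n - i) * ee n u v (n - i)

theorem al_add_be (k : ℕ) : al k + be k = 8 * (k : ℤ) ^ 3 * (k + 1) := by
  unfold al be nn DD NN
  ring

theorem siz (k : ℕ) (hk : 10 ≤ k) :
    (1 ≤ nn k ∧ nn k ≤ (k : ℤ) ^ 3) ∧ (1 ≤ NN k ∧ NN k ≤ (k : ℤ) ^ 2) ∧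
    (1 ≤ DD k ∧ DD k ≤ (k : ℤ) ^ 3) ∧ (1 ≤ be k ∧ be k ≤ (k : ℤ) ^ 2) ∧
    (200 * be k ≤ al k ∧ al k ≤ (k : ℤ) ^ 5) ∧ al k + be k ≤ (k : ℤ) ^ 5 := by
  have h : (10 : ℤ) ≤ k := by exact_mod_cast hk
  have h2 : (10 : ℤ) * k ≤ (k : ℤ) ^ 2 := by nlinarith
  have h3 : (10 : ℤ) * (k : ℤ) ^ 2 ≤ (k : ℤ) ^ 3 := by nlinarith
  have h4 : (10 : ℤ) * (k : ℤ) ^ 3 ≤ (k : ℤ) ^ 4 := by nlinarith [sq_nonneg (k : ℤ)]
  have h5 : (10 : ℤ) * (k : ℤ) ^ 4 ≤ (k : ℤ) ^ 5 := by nlinarith [pow_nonneg (by linarith : (0 : ℤ) ≤ k) 4]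
  have e1 : al k = 8 * (k : ℤ) ^ 4 + 8 * (k : ℤ) ^ 3 - 4 * k - 2 := by
    unfold al nn DD
    ring
  have e2 : be k = 4 * (k : ℤ) + 2 := by
    unfold be NN
    ring
  have e3 : nn k = 2 * (k : ℤ) ^ 2 - 1 := rfl
  have e4 : NN k = 2 * (k : ℤ) + 1 := rfl
  have e5 : DD k = 4 * (k : ℤ) ^ 2 + 4 * k + 2 := by
    unfold DD
    ring
  rw [e1, e2, e3, e4, e5]
  refine ⟨⟨by linarith, by linarith⟩, ⟨by linarith, by linarith⟩, ⟨by linarith, by linarith⟩,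
    ⟨by linarith, by linarith⟩, ⟨by linarith, by linarith⟩, by linarith⟩

end Pool.Agent.AMO
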