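import Pool.Agent.AMO.Stmts
import Pool.Agent.DKP.All
import Pool.Agent.DKP.All2

/-!
# At most one irregular extension: the final step
-/

set_option autoImplicit false

open Filter

namespace Pool.Agent.AMO

/-- `d` extends `T_k = {1, 2k², 2k²+2k+1}` to a `D(-k²)`-quadruple. -/
def Extends (k d : ℤ) : Prop :=
  0 < d ∧ d ≠ 1 ∧ d ≠ 2 * k ^ 2 ∧ d ≠ 2 * k ^ 2 + 2 * k + 1 ∧
    IsSquare (1 * d - k ^ 2) ∧ IsSquare (2 * k ^ 2 * d - k ^ 2) ∧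
      IsSquare ((2 * k ^ 2 + 2 * k + 1) * d - k ^ 2)

/-- For all `C` and `δ > 0` one has `C (log (k+1))^(2+δ/2) < (log k)^(2+δ)` for all large `k`. -/
theorem log_window (C δ : ℝ) (hC : 0 < C) (hδ : 0 < δ) :
    ∃ X : ℕ, 1 ≤ X ∧ ∀ k : ℕ, X < k →
      C * Real.log (k + 1) ^ (2 + δ / 2) < Real.log k ^ (2 + δ) := by
  have h1 : Tendsto (fun k : ℕ => Real.log (k : ℝ) ^ (δ / 2)) atTop atTop :=
    (tendsto_rpow_atTop (by linarith)).comp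
      (Real.tendsto_log_atTop.comp tendsto_natCast_atTop_atTop)
  obtain ⟨X, hX⟩ := eventually_atTop.1 (h1.eventually_gt_atTop (C * 2 ^ (2 + δ / 2)))
  refine ⟨X + 2, by omega, fun k hk => ?_⟩
  have hk2 : (2 : ℝ) ≤ k := by exact_mod_cast (by omega : 2 ≤ k)
  have hl : 0 < Real.log k := Real.log_pos (by linarith)
  have h2 : Real.log (k + 1) ≤ 2 * Real.log k := by
    have h3 : Real.log (k + 1) ≤ Real.log ((k : ℝ) ^ 2) :=
      Real.log_le_log (by linarith) (by nlinarith)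
    rwa [Real.log_pow, Nat.cast_ofNat] at h3
  have h4 : Real.log (k + 1) ^ (2 + δ / 2) ≤ 2 ^ (2 + δ / 2) * Real.log k ^ (2 + δ / 2) := by
    rw [← Real.mul_rpow (by norm_num) hl.le]
    exact Real.rpow_le_rpow (Real.log_nonneg (by linarith)) h2 (by linarith)
  have h5 : Real.log k ^ (2 + δ) = Real.log k ^ (δ / 2) * Real.log k ^ (2 + δ / 2) := by
    rw [← Real.rpow_add hl]
    congr 1
    ring
  have h6 : 0 < Real.log k ^ (2 + δ / 2) := Real.rpow_pos_of_pos hl _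
  have h7 := hX k (by omega)
  calc C * Real.log (k + 1) ^ (2 + δ / 2)
      ≤ C * (2 ^ (2 + δ / 2) * Real.log k ^ (2 + δ / 2)) :=
        mul_le_mul_of_nonneg_left h4 hC.le
    _ = (C * 2 ^ (2 + δ / 2)) * Real.log k ^ (2 + δ / 2) := by ring
    _ < Real.log k ^ (δ / 2) * Real.log k ^ (2 + δ / 2) := mul_lt_mul_of_pos_right h7 h6
    _ = Real.log k ^ (2 + δ) := h5.symm

/-- All irregular extensions lie between `k^B` and `exp((log k)^(2+δ))`, up to finitely many. -/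
theorem superpoly (B : ℕ) (δ : ℝ) (hδ : 0 < δ) :
    {p : ℕ × ℤ | 1 ≤ p.1 ∧ Extends p.1 p.2 ∧ p.2 ≠ 8 * (p.1 : ℤ) ^ 2 + 4 * p.1 + 1 ∧
        ¬ ((p.1 : ℤ) ^ B < p.2 ∧
          (p.2 : ℝ) < Real.exp (Real.log p.1 ^ (2 + δ)))}.Finite := by
  obtain ⟨C, hC, hE⟩ := DKP.final_E_holds (δ / 2) (by linarith)
  obtain ⟨X, hX1, hX⟩ := log_window C δ hC hδ
  obtain ⟨_, -, hD⟩ := DKP.final_D_holds 1 one_pos
  refine ((DKP.final_F_holds B).union (hD X hX1).1).subset ?_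
  rintro ⟨k, d⟩ ⟨hk, hext, hne, hnot⟩
  by_cases hdB : d ≤ (k : ℤ) ^ B
  · exact Or.inl ⟨hk, hext, hne, hdB⟩
  · refine Or.inr ⟨hk, ?_, hext⟩
    by_contra hkX
    refine hnot ⟨not_le.1 hdB, ?_⟩
    have h1 := hE k d hk hext
    have h2 := hX k (not_le.1 hkX)
    have hd : (0 : ℝ) < d := by exact_mod_cast hext.1
    exact (Real.log_lt_iff_lt_exp hd).1 (h1.trans_lt h2)

/-- The sizes of the irregular extensions for large `k`. -/
theorem sizes : ∃ k₀ : ℕ, ∀ k : ℕ, k₀ ≤ k → ∀ d : ℤ, Extends k d →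
    d ≠ 8 * (k : ℤ) ^ 2 + 4 * k + 1 →
    (k : ℤ) ^ 10001 < d ∧ (d : ℝ) < Real.exp (Real.log k ^ 3) := by
  have hf := superpoly 10001 1 one_pos
  obtain ⟨b, hb⟩ := (hf.image Prod.fst).bddAbove
  refine ⟨b + 1, fun k hk d hd hne => ?_⟩
  by_contra hcon
  have h1 : (k, d) ∈ {p : ℕ × ℤ | 1 ≤ p.1 ∧ Extends p.1 p.2 ∧
      p.2 ≠ 8 * (p.1 : ℤ) ^ 2 + 4 * p.1 + 1 ∧
        ¬ ((p.1 : ℤ) ^ 10001 < p.2 ∧
          (p.2 : ℝ) < Real.exp (Real.log p.1 ^ ((2 : ℝ) + 1)))} := by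
    refine ⟨by simp only; omega, hd, hne, ?_⟩
    intro h
    apply hcon
    refine ⟨h.1, ?_⟩
    have h2 := h.2
    have h3 : ((2 : ℝ) + 1) = ((3 : ℕ) : ℝ) := by norm_num
    simp only at h2
    rw [h3, Real.rpow_natCast] at h2
    exact h2
  have h2 : k ≤ b := hb ⟨(k, d), h1, rfl⟩
  omega

/-- The final step. -/
theorem final (hC : ∀ (k : ℕ) (Y V U Y' V' U' : ℤ), 100 ≤ k →
    Sol k Y V U → Sol k Y' V' U' → Y < Y' → (k : ℤ) ^ 5000 ≤ Y → Y' < Y ^ (2 * k + 3) → False)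
    (hE : Stmt_EXT) (hS : Stmt_SZF) :
    ∃ k₀ : ℕ, ∀ k : ℕ, k₀ ≤ k → ∀ d d' : ℤ, Extends k d → Extends k d' →
      d ≠ 8 * (k : ℤ) ^ 2 + 4 * k + 1 → d' ≠ 8 * (k : ℤ) ^ 2 + 4 * k + 1 → d = d' := by
  obtain ⟨k₀, hk₀⟩ := sizes
  refine ⟨max k₀ 100, fun k hk d d' h h' hne hne' => ?_⟩
  have hk1 : k₀ ≤ k := le_trans (le_max_left _ _) hk
  have hk2 : 100 ≤ k := le_trans (le_max_right _ _) hk
  have key : ∀ d d' : ℤ, Extends k d → Extends k d' → d ≠ 8 * (k : ℤ) ^ 2 + 4 * k + 1 →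
      d' ≠ 8 * (k : ℤ) ^ 2 + 4 * k + 1 → d < d' → False := by
    intro d d' h h' hne hne' hlt
    obtain ⟨h1, -⟩ := hk₀ k hk1 d h hne
    obtain ⟨h2, h3⟩ := hk₀ k hk1 d' h' hne'
    have hkp : (1 : ℤ) ≤ k := by exact_mod_cast (by omega : 1 ≤ k)
    have hsq : (k : ℤ) ^ 2 ≤ (k : ℤ) ^ 10001 := pow_le_pow_right₀ hkp (by norm_num)
    obtain ⟨Y, V, U, hs, hY⟩ := hE k d (by omega) (by linarith) h.2.2.2.2.1 h.2.2.2.2.2.1
      h.2.2.2.2.2.2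
    obtain ⟨Y', V', U', hs', hY'⟩ := hE k d' (by omega) (by linarith) h'.2.2.2.2.1
      h'.2.2.2.2.2.1 h'.2.2.2.2.2.2
    obtain ⟨h4, h5⟩ := hS k d d' Y Y' (by omega) hs.1 hs'.1 hY hY' h1 h3
    have h6 : Y < Y' := by
      have h7 : Y ^ 2 < Y' ^ 2 := by rw [hY, hY']; linarith
      exact lt_of_pow_lt_pow_left₀ 2 hs'.1.le h7
    exact hC k Y V U Y' V' U' hk2 hs hs' h6 h4 h5
  rcases lt_trichotomy d d' with h1 | h1 | h1
  · exact (key d d' h h' hne hne' h1).elim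
  · exact h1
  · exact (key d' d h' h hne' hne h1).elim

end Pool.Agent.AMO
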