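import Pool.Agent.AMO.Stmts

/-!
# At most one irregular extension: module ITG

Integrality of the general form.
-/

set_option autoImplicit false

namespace Pool.Agent.AMO

namespace ITGM

/-- one Padé approximant becomes an integer -/
theorem int_AA (hB : Stmt_BNZ) (hE : Stmt_EEZ) (n : ℕ) (a u v W X : ℤ) (hX : X ≠ 0)
    (hu : u ≠ 0) (hv : v ≠ 0) (hW : u * v ∣ W) :
    ∃ c : ℤ, (c : ℝ) = 2 ^ n * (n.factorial : ℝ) * (W : ℝ) ^ (2 * n + 1) * (X : ℝ) ^ n *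
      AA n (a : ℝ) (u : ℝ) (v : ℝ) (1 / (X : ℝ)) := by
  have hX' : (X : ℝ) ≠ 0 := by exact_mod_cast hX
  have h1 : ∀ i : ℕ, ∃ c : ℤ, i ∈ Finset.range (n + 1) → (c : ℝ) =
      2 ^ n * (n.factorial : ℝ) * (W : ℝ) ^ (2 * n + 1) * (X : ℝ) ^ n *
        (bn n i * (1 / (X : ℝ)) ^ i * (1 + (a : ℝ) * (1 / (X : ℝ))) ^ (n - i) *
          ee n (u : ℝ) (v : ℝ) (n - i)) := by
    intro i
    by_cases hi : i ∈ Finset.range (n + 1)
    swap
    · exact ⟨0, fun h => absurd h hi⟩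
    have hin : i ≤ n := Nat.lt_succ_iff.1 (Finset.mem_range.1 hi)
    obtain ⟨b, hb⟩ := hB n i hin
    obtain ⟨e, he⟩ := hE n (n - i) u v W hu hv hW (Nat.sub_le n i)
    refine ⟨b * e * (X + a) ^ (n - i), fun _ => ?_⟩
    have hp : (X : ℝ) ^ n = (X : ℝ) ^ i * (X : ℝ) ^ (n - i) := by
      rw [← pow_add, Nat.add_sub_cancel' hin]
    have h2 : (X : ℝ) ^ i * (1 / (X : ℝ)) ^ i = 1 := by
      rw [← mul_pow, mul_one_div_cancel hX', one_pow]
    have h3 : (X : ℝ) ^ (n - i) * (1 + (a : ℝ) * (1 / (X : ℝ))) ^ (n - i) =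
        ((X : ℝ) + a) ^ (n - i) := by
      rw [← mul_pow]
      congr 1
      field_simp
    have h4 : (X : ℝ) ^ n * ((1 / (X : ℝ)) ^ i * (1 + (a : ℝ) * (1 / (X : ℝ))) ^ (n - i)) =
        ((X : ℝ) + a) ^ (n - i) := by
      rw [hp, ← h3]
      linear_combination (X : ℝ) ^ (n - i) * (1 + (a : ℝ) * (1 / (X : ℝ))) ^ (n - i) * h2
    push_cast
    rw [hb, he, ← h4]
    ring
  choose f hf using h1
  refine ⟨∑ i ∈ Finset.range (n + 1), f i, ?_⟩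
  unfold AA
  rw [Finset.mul_sum]
  push_cast
  exact Finset.sum_congr rfl fun i hi => hf i hi

end ITGM

theorem ITG_thm : Stmt_ITG := by
  intro hB hE n k Y V U Y' V' U' s g s' g' hk hY hY' h1 h2
  obtain ⟨-, -, ⟨hD, -⟩, ⟨hb, -⟩, ⟨hab, -⟩, -⟩ := siz k hk
  have ha : 0 < al k := by linarith
  have hb' : 0 < be k := by linarith
  have hX : DD k * Y ^ 2 ≠ 0 := by positivity
  obtain ⟨c0, hc0⟩ := ITGM.int_AA hB hE n 0 (al k) (-(be k)) (al k * be k * (al k + be k))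
    (DD k * Y ^ 2) hX ha.ne' (by omega) ⟨-(al k + be k), by ring⟩
  obtain ⟨c1, hc1⟩ := ITGM.int_AA hB hE n (-(al k)) (-(al k)) (-(al k) - be k)
    (al k * be k * (al k + be k)) (DD k * Y ^ 2) hX (by omega) (by omega) ⟨be k, by ring⟩
  obtain ⟨c2, hc2⟩ := ITGM.int_AA hB hE n (be k) (be k) (be k + al k)
    (al k * be k * (al k + be k)) (DD k * Y ^ 2) hX hb'.ne' (by omega) ⟨al k, by ring⟩
  refine ⟨DD k * (Y * Y') * c0 + DD k * (2 * V * V') * c1 + U * U' * c2, ?_⟩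
  push_cast at hc0 hc1 hc2 ⊢
  rw [hc0, hc1, hc2]
  unfold SS
  rw [← h1, ← h2]
  ring

end Pool.Agent.AMO
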