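import Pool.Agent.AMO.Defs

/-!
# At most one irregular extension of `{1, 2k², 2k²+2k+1}`: statements and proofs

THEOREM.  There is `k₀` such that for all `k ≥ k₀` the triple `{1, 2k², 2k²+2k+1}` has at most one
extension `d ≠ 8k²+4k+1` to a `D(-k²)`-quadruple.

Method.  An extension gives `P = (Y, V, U)` with `Sol k Y V U`, `Y² = 2d - 1`.  With `X = D Y²`,
`z = 1/X`, `s = √2 V/Y = √(1-αz)`, `g = U/(√D Y) = √(1+βz)`, and for a second solution `P'` (`X'`,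
`w = 1/X'`, `s'`, `g'`) the numbers `Y Y' s s' = 2 V V'` and `D Y Y' g g' = U U'` are integers.
For polynomials `A₀, A₁, A₂` in `z` put `S = A₀ + A₁ s s' + A₂ g g'`; a multiple of `S` is an
integer.  With the Padé approximants of `1, √(1-αz), √(1+βz)` of degree `n` the number `S` is small
and not zero if `Y' ` lies between `Y^(2n+1)` and `Y^(3n+2)` up to factors `k^(50 n)`; this
excludes all `Y' > Y^5`.  `n = 1` (with a sign argument) excludes the range from `Y^3` to `Y^7`,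
and the gap `Y' ≥ Y^3 / k^8` (`n = 0`) together with a third form (`J3`) leaves only `Y' ≈ Y^3`
where the form vanishes identically: `m₀² (α²+αβ+β²) = 3 (n N K)²`, impossible modulo `3`.
`Y ≥ k^5000` and `Y' < Y^(2k+3)` hold by the known theorem (`k^B < d < exp((log k)^3)`).

All the inequalities and identities were verified numerically (random parameters, 2500 digits).
Here `K = α + β = 8k³(k+1)`.  One module for each `Stmt_...`; hypotheses `Stmt_A → ...` are inputs.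
`Defs.lean` contains the size facts `siz`.
-/

set_option autoImplicit false

namespace Pool.Agent.AMO

/-! ### A. The general Padé approximants -/

/-- BNI.  Both sides are `∏_{t<h} (n+1/2-t) / (i! (h-i)!)`: the product over `t < h` splits into
`t < i` and `t = i + r`, `r < h - i`, and `n + 1/2 - (i + r) = (n-i) + 1/2 - r`
(`Finset.prod_range_add`); `h! = C(h,i) i! (h-i)!` (`Nat.choose_mul_factorial_mul_factorial`). -/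
def Stmt_BNI : Prop := ∀ n h i : ℕ, i ≤ n → i ≤ h →
  bn n h * (h.choose i : ℝ) = bn n i * bn (n - i) (h - i)

/-- BNB.  Recursion `bn n (h+1) = bn n h (n + 1/2 - h) / (h+1)` (`Finset.prod_range_succ`).
For `h ≤ n + 1`: `0 ≤ bn n h ≤ C(n+1, h)` by induction, as
`C(n+1, h+1) (h+1) = C(n+1, h) (n+1-h)` (`Nat.choose_succ_right_eq`) and `0 ≤ n+1/2-h ≤ n+1-h`
for `h ≤ n`.  For `h ≥ n + 1`: `|bn n h| ≤ 1` by induction, as `|n + 1/2 - h| ≤ h + 1`. -/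
def Stmt_BNB : Prop := ∀ n h : ℕ,
  (h ≤ n → 0 ≤ bn n h ∧ bn n h ≤ ((n + 1).choose h : ℝ)) ∧ |bn n h| ≤ 2 ^ (n + 1)

/-- BNZ.  `2^i i! bn n i = ∏_{t<i} (2n + 1 - 2t)`, and `2^n n! = 2^(n-i) (n!/i!) 2^i i!`
(`Nat.factorial_dvd_factorial`). -/
def Stmt_BNZ : Prop := ∀ n i : ℕ, i ≤ n → ∃ c : ℤ, (c : ℝ) = 2 ^ n * (n.factorial : ℝ) * bn n i

/-- EEB.  `|u|, |v| ≥ c > 0`: every term of the sum is at most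
`C(n+p,p) C(n+m-p,m-p) c^(-(2n+2+m))` in absolute value, and
`C(n+p,p) ≤ 2^(n+p)`, `C(n+m-p,m-p) ≤ 2^(n+m-p)`; the number of terms `m + 1` is absorbed as
`∑_{p≤m} C(n+p,p) C(n+m-p,m-p) = C(2n+1+m, m) ≤ 2^(2n+1+m)`.  If this Vandermonde identity is
inconvenient: prove `∑_{p≤m} C(n+p,p) C(n+m-p,m-p) ≤ 2^(2n+1+m)` by
`PowerSeries.mk_one_pow_eq_mk_choose_add` or by double counting. -/
def Stmt_EEB : Prop := ∀ (n m : ℕ) (u v c : ℝ), 0 < c → c ≤ |u| → c ≤ |v| →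
  |ee n u v m| ≤ 2 ^ (2 * n + 1 + m) * (c ^ (2 * n + 2 + m))⁻¹

/-- EEZ.  For integers `u, v ≠ 0` with `u v ∣ W` and `m ≤ n`: `W^(2n+1) = (u v)^(2n+1) q`, and
`(u v)^(2n+1) u^(-(n+1+p)) v^(-(n+1+m-p)) = u^(n-p) v^(n-m+p)` is an integer for `p ≤ m ≤ n`. -/
def Stmt_EEZ : Prop := ∀ (n m : ℕ) (u v W : ℤ), u ≠ 0 → v ≠ 0 → u * v ∣ W → m ≤ n →
  ∃ c : ℤ, (c : ℝ) = (W : ℝ) ^ (2 * n + 1) * ee n (u : ℝ) (v : ℝ) m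

/-- EEP.  Node `β`: `u = β`, `v = β + α`; `f m = (-1)^m ee n u v m` is a sum of positive terms.
The term `p+1` of `f (m+1)` is `C(n+p+1,p+1) C(n+m-p,m-p) β^(-(n+2+p)) v^(-(n+1+m-p))`, at least
`1/β` times the term `p` of `f m`, as `C(n+p+1,p+1) ≥ C(n+p,p)`: so `f m ≤ β f (m+1)` (drop the
term `p = 0` of `f (m+1)`).  Lower bound: the term `p = m = n` of `f n` is
`C(2n,n) β^(-(2n+1)) v^(-(n+1))`. -/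
def Stmt_EEP : Prop := ∀ (n m : ℕ) (α β : ℝ), 0 < β → 0 < α →
  0 < (-1) ^ m * ee n β (β + α) m ∧
  (-1) ^ m * ee n β (β + α) m ≤ β * ((-1) ^ (m + 1) * ee n β (β + α) (m + 1)) ∧
  (β ^ (2 * n + 1))⁻¹ * ((α + β) ^ (n + 1))⁻¹ ≤ (-1) ^ n * ee n β (β + α) n

/-- VAN.  The confluent divided difference of `X^h` at the nodes `0, -α, β` (each `n + 1` times)
vanishes for `h < 3n + 2`.  Let `g₀ = X^(n+1)`, `g₁ = (X+α)^(n+1)`, `g₂ = (X-β)^(n+1)` (monic,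
pairwise coprime).  By `Polynomial.eq_quo_mul_prod_add_sum_rem_mul_prod` (or by Bezout)
`X^h = q g₀ g₁ g₂ + r₀ g₁ g₂ + r₁ g₀ g₂ + r₂ g₀ g₁` with `deg r_j ≤ n`; `h < 3n+2 < 3n+3` gives
`q = 0` (else the degree of the right side is at least `3n+3`), and the coefficient at `X^(3n+2)`
gives `coeff_n r₀ + coeff_n r₁ + coeff_n r₂ = 0`.  For the node `a = a_j` let
`inv = ∑_m ee n u v m x^m = ((u+x)(v+x))^(-n-1)` as a power series (`u, v` the differences to the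
other nodes): `EE n h a u v = coeff_n (Taylor_a (X^h) · inv)`, as `Taylor_a (X^h) = (a+x)^h`.
The terms `r_l M_l`, `l ≠ j`, have the factor `x^(n+1)` after the Taylor shift to `a_j` and
contribute `0`; the term `r_j M_j` becomes `Taylor_a r_j · ((u+x)(v+x))^(n+1) · inv =
Taylor_a r_j`, whose coefficient at `x^n` is the one of `r_j` (top degree).  So the sum of the three
`EE` is `∑_j coeff_n r_j = 0`.  (The inverse: `∑_p C(n+p,p) y^p = (1-y)^(-n-1)`,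
`PowerSeries.mk_one_pow_eq_mk_choose_add`, with `y = -x/u`, `PowerSeries.rescale`.) -/
def Stmt_VAN : Prop := ∀ (n h : ℕ) (α β : ℝ), 0 < α → 0 < β → h < 3 * n + 2 →
  EE n h 0 α (-β) + EE n h (-α) (-α) (-α - β) + EE n h β β (β + α) = 0

/-- BSR.  The binomial series: `(1+x)^m θ = (1+x)^(m+1/2)` for `θ = √(1+x)`
(`Real.one_add_rpow_hasFPowerSeriesOnBall_zero`, `HasFPowerSeriesOnBall.hasSum`), and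
`Ring.choose (m+1/2) l = bn m l` (`Ring.descPochhammer_eq_factorial_smul_choose`).  Alternatively:
for `m = 0` the square of the series is `1 + x`, etc. -/
def Stmt_BSR : Prop := ∀ (m : ℕ) (x θ : ℝ), |x| ≤ 1 / 2 → 0 ≤ θ → θ ^ 2 = 1 + x →
  HasSum (fun l : ℕ => bn m l * x ^ l) ((1 + x) ^ m * θ)

/-- NOD.  `AA n a u v z θ = ∑_{i≤n} bn n i z^i ee (n-i) (1+az)^(n-i) θ`, and by BSR
`(1+az)^(n-i) θ = ∑_l bn (n-i) l (az)^l`.  So the `i`-th term is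
`∑_l bn n i bn (n-i) l z^(i+l) a^l ee (n-i) = ∑_{h≥i} bn n h C(h,i) z^h a^(h-i) ee (n-i)` by BNI
(`h = i + l`; the terms `h < i` are zero as `C(h,i) = 0`: `hasSum_nat_add_iff`).  Sum over `i`:
`hasSum_sum`. -/
def Stmt_NOD : Prop := Stmt_BNI → Stmt_BSR → ∀ (n : ℕ) (a u v z θ : ℝ), |a * z| ≤ 1 / 2 → 0 ≤ θ →
  θ ^ 2 = 1 + a * z → HasSum (fun h : ℕ => bn n h * z ^ h * EE n h a u v) (AA n a u v z * θ)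

/-- REM.  By NOD (three nodes; `θ = 1, s, g`) the remainder is
`∑_h bn n h z^h (EE₀ + EE₁ + EE₂)`, the terms with `h < 3n+2` vanish (VAN).  For all `h`:
`|EE n h a u v| ≤ ∑_i C(h,i) |a|^(h-i) |ee n u v (n-i)| ≤ 2^h α^h 2^(3n+1)` by EEB with `c = 1`
(`|a| ≤ α`, `α ≥ 1`, `|u|, |v| ≥ β ≥ 1`; `|a|^(h-i) ≤ α^h`, for `i > h` the term is `0`).  So each
term is at most `2^(n+1) z^h 3 2^h α^h 2^(3n+1) = 3 2^(4n+2) (2αz)^h` in absolute value (BNB), and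
the sum over `h ≥ 3n+2` at most `3 2^(4n+2) 2 (2αz)^(3n+2) = 3 2^(4n+3) 2^(3n+2) (αz)^(3n+2) ≤
128^(n+1) (αz)^(3n+2)` as `2αz ≤ 1/2` (`3 2^(7n+5) ≤ 2^(7n+7)`). -/
def Stmt_REM : Prop := Stmt_BNB → Stmt_EEB → Stmt_VAN → Stmt_NOD → Stmt_BNI → Stmt_BSR →
  ∀ (n : ℕ) (α β z w s g s' g' : ℝ), Fr α β z w s g s' g' →
  |AA n 0 α (-β) z + AA n (-α) (-α) (-α - β) z * s + AA n β β (β + α) z * g| ≤
    128 ^ (n + 1) * (α * z) ^ (3 * n + 2)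

/-- A1U.  `|AA| ≤ ∑_{i≤n} bn n i z^i |1-αz|^(n-i) |ee n (-α) (-α-β) (n-i)|`, `0 ≤ bn n i ≤ C(n+1,i)`
(BNB), `|1 - αz| ≤ 1`, `|ee (n-i)| ≤ 2^(3n+1-i) α^(-(3n+2-i)) ≤ 2^(3n+1) α^i α^(-(3n+2))` (EEB with
`c = α`).  So `|AA| ≤ 2^(3n+1) α^(-(3n+2)) ∑_i C(n+1,i) (αz)^i ≤ 2^(3n+1) α^(-(3n+2)) (1+αz)^(n+1)`
and `1 + αz ≤ 2`: in total `2^(4n+2) ≤ 16^(n+1)`. -/
def Stmt_A1U : Prop := Stmt_BNB → Stmt_EEB → ∀ (n : ℕ) (α β z w s g s' g' : ℝ),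
  Fr α β z w s g s' g' → |AA n (-α) (-α) (-α - β) z| ≤ 16 ^ (n + 1) * (α ^ (3 * n + 2))⁻¹

/-- A2B.  Put `f m = (-1)^m ee n β (β+α) m > 0`; by EEP `f (n-i) ≤ β^i f n` (induction on `i`).
`AA = ∑_{i≤n} bn n i z^i (1+βz)^(n-i) (-1)^(n-i) f (n-i)`; the term `i = 0` has absolute value
`(1+βz)^n f n ≥ f n` and at most `(1+βz)^n f n`, and the others together at most
`f n ∑_{i≥1} C(n+1,i) (βz)^i (1+βz)^n ≤ f n (1+βz)^n ((1+βz)^(n+1) - 1) ≤ f n / 2`, as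
`(n+1) β z ≤ 1/8` (`(1+y)^N ≤ 1/(1-Ny)` for `N y < 1`, or `(1+y)^N ≤ 1 + 2Ny` for `N y ≤ 1/2`;
`(1+βz)^n ≤ 5/4`, `(1+βz)^(n+1) - 1 ≤ 1/4`).  So `f n / 2 ≤ |AA| ≤ 2 f n`.  Lower bound of `f n`:
EEP; upper bound: EEB with `c = 1`: `f n ≤ 2^(3n+1)`, `2 2^(3n+1) ≤ 8^(n+1)`. -/
def Stmt_A2B : Prop := Stmt_BNB → Stmt_EEB → Stmt_EEP → ∀ (n : ℕ) (α β z w s g s' g' : ℝ),
  Fr α β z w s g s' g' → 8 * ((n : ℝ) + 1) * (β * z) ≤ 1 →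
  (β ^ (2 * n + 1))⁻¹ * ((α + β) ^ (n + 1))⁻¹ / 2 ≤ |AA n β β (β + α) z| ∧
    |AA n β β (β + α) z| ≤ 8 ^ (n + 1)

/-- The general form. -/
noncomputable def SS (n : ℕ) (α β z s g s' g' : ℝ) : ℝ :=
  AA n 0 α (-β) z + AA n (-α) (-α) (-α - β) z * (s * s') + AA n β β (β + α) z * (g * g')

/-- WNR.  `SS = I + A₁ s (s'-1) + A₂ g (g'-1)`, `I` the remainder (REM).
`0 ≤ s ≤ 1`, `0 ≤ 1 - s' = αw/(1+s') ≤ αw`, `1 ≤ g ≤ 2`, `g' - 1 = βw/(1+g')`, `1 ≤ g' ≤ 2`, so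
`βw/3 ≤ g' - 1 ≤ βw/2`.  Upper bound: `|SS| ≤ 128^(n+1) (αz)^(3n+2) + 16^(n+1) αw +
8^(n+1) 2 βw/2 ≤ 128^(n+1) ((αz)^(3n+2) + αw)` (`16^(n+1) + 8^(n+1) ≤ 128^(n+1)`, `β ≤ α`).
Not zero: `|A₂ g (g'-1)| ≥ w β^(-2n) (α+β)^(-n-1) / 6` (A2B), `|A₁ s (s'-1)| ≤ 16^(n+1) α^(-3n-1) w
≤ w β^(-2n) (α+β)^(-n-1) / 12`, as `12 16^(n+1) β^(2n) (α+β)^(n+1) ≤ 12 32^(n+1) β^(2n) α^(n+1) ≤
α^(3n+1)` (`α ≥ 200 β`: `(α/β)^(2n) ≥ 40000^n ≥ 12 32^(n+1)` for `n ≥ 1`, as `12 32² ≤ 40000` and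
`32 ≤ 40000`); and `|I| ≤ 128^(n+1) (αz)^(3n+2) < w β^(-2n) (α+β)^(-n-1) / 12`, as
`12 128^(n+1) α^(3n+2) β^(2n) (α+β)^(n+1) ≤ 12 256^(n+1) α^(6n+3) < (4096 α^6)^(n+1)`. -/
def Stmt_WNR : Prop := Stmt_BNB → Stmt_EEB → Stmt_EEP → Stmt_VAN → Stmt_NOD → Stmt_BNI →
  Stmt_BSR → Stmt_REM → Stmt_A1U → Stmt_A2B →
  ∀ (n : ℕ) (α β z w s g s' g' : ℝ), 1 ≤ n → Fr α β z w s g s' g' →
  8 * ((n : ℝ) + 1) * (β * z) ≤ 1 →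
  |SS n α β z s g s' g'| ≤ 128 ^ (n + 1) * ((α * z) ^ (3 * n + 2) + α * w) ∧
    ((4096 * α ^ 6) ^ (n + 1) * z ^ (3 * n + 2) ≤ w → SS n α β z s g s' g' ≠ 0)

/-! ### B. Solutions -/

/-- FRM.  `z = 1/(D Y²)`, `w = 1/(D Y'²)`, `s = √2 V/Y`, `s' = √2 V'/Y'`, `g = U/(√D Y)`,
`g' = U'/(√D Y')`: `s² = 2V²/Y² = 1 - n/Y² = 1 - αz`, `g² = U²/(D Y²) = 1 + βz`.
`α⁴ z ≤ k^20 / Y² ≤ 1` by `siz`. -/
def Stmt_FRM : Prop := ∀ (k : ℕ) (Y V U Y' V' U' : ℤ), 10 ≤ k → Sol k Y V U → Sol k Y' V' U' →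
  Y ≤ Y' → (k : ℤ) ^ 60 ≤ Y → ∃ s g s' g' : ℝ,
    Fr (al k) (be k) (1 / (DD k * (Y : ℝ) ^ 2)) (1 / (DD k * (Y' : ℝ) ^ 2)) s g s' g' ∧
    (Y : ℝ) * Y' * (s * s') = 2 * V * V' ∧ (DD k : ℝ) * ((Y : ℝ) * Y' * (g * g')) = U * U'

/-- TAY.  For a polynomial `q` (the truncated series) `|θ - q| = |1 + x - q²| / (θ + q)`, with
`θ + q ≥ 1` (both are at least `1/2`), and `q² - (1+x) = x²/4` in the first case,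
`x⁴ (5/64 - x/64 + x²/256)` in the second, and
`x⁶ (42/1024 - 24 x/2048 + 81 x²/16384 - 70 x³/32768 + 49 x⁴/65536)` in the third. -/
def Stmt_TAY : Prop := ∀ x θ : ℝ, |x| ≤ 1 / 2 → 0 ≤ θ → θ ^ 2 = 1 + x →
  |θ - (1 + x / 2)| ≤ x ^ 2 ∧ |θ - (1 + x / 2 - x ^ 2 / 8 + x ^ 3 / 16)| ≤ x ^ 4 ∧
  |θ - (1 + x / 2 - x ^ 2 / 8 + x ^ 3 / 16 - 5 * x ^ 4 / 128 + 7 * x ^ 5 / 256)| ≤ x ^ 6

/-- GAP.  `m₀ = mm k ...`, `m₀⁺ = K Y Y' + 4 N V V' + n U U'`.  As `K Y² = 4 N V² + n U²` (and the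
same for `P'`), `m₀ m₀⁺ = 4 N n (V U' - V' U)²`, and
`2 (V' U - V U') (V' U + V U') = K (Y'² - Y²) > 0`; so `m₀ > 0`.  As `2V² = Y² - n ≥ Y²/2` and
`U ≥ N Y`: `V' U + V U' ≥ N Y Y'`, `2 N Y Y' (V' U - V U') ≤ K Y'²`, i.e.
`2 N Y (V' U - V U') ≤ K Y'`, and `m₀⁺ ≥ K Y Y'`: `m₀ K Y Y' ≤ 4 N n (V' U - V U')²`, hence
`N Y³ m₀ ≤ n K Y'`. -/
def Stmt_GAP : Prop := ∀ (k : ℕ) (Y V U Y' V' U' : ℤ), 10 ≤ k → Sol k Y V U → Sol k Y' V' U' →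
  Y < Y' → (k : ℤ) ^ 60 ≤ Y → 0 < mm k Y V U Y' V' U' ∧
    NN k * Y ^ 3 * mm k Y V U Y' V' U' ≤ nn k * (al k + be k) * Y'

/-- ITG.  `X = D Y²`, `z = 1/X`: `X^n AA n a u v z = ∑_i bn n i (X+a)^(n-i) ee n u v (n-i)` (as
`X^n z^i (1+az)^(n-i) = (X+a)^(n-i)`), which becomes an integer when multiplied by
`2^n n! (αβ(α+β))^(2n+1)`, for the three nodes `(a, u, v) = (0, α, -β)`, `(-α, -α, -α-β)`,
`(β, β, β+α)`: BNZ, and EEZ with `W = αβ(α+β)` (`u v = -αβ`, `α(α+β)`, `β(α+β)`).  Multiply by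
`D Y Y'`, `D Y Y' s s' = 2 D V V'`, `D Y Y' g g' = U U'`. -/
def Stmt_ITG : Prop := Stmt_BNZ → Stmt_EEZ → ∀ (n k : ℕ) (Y V U Y' V' U' : ℤ) (s g s' g' : ℝ),
  10 ≤ k → 0 < Y → 0 < Y' →
  (Y : ℝ) * Y' * (s * s') = 2 * V * V' → (DD k : ℝ) * ((Y : ℝ) * Y' * (g * g')) = U * U' →
  ∃ J : ℤ, (J : ℝ) = (DD k : ℝ) * (2 ^ n * (n.factorial : ℝ)) *
    ((al k : ℝ) * be k * (al k + be k)) ^ (2 * n + 1) * ((DD k : ℝ) * (Y : ℝ) ^ 2) ^ n *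
    ((Y : ℝ) * Y') * SS n (al k) (be k) (1 / (DD k * (Y : ℝ) ^ 2)) s g s' g'

/-- WNI.  Frame (FRM), `z = 1/(D Y²)`, `w = 1/(D Y'²)`; `8 (n+1) β z ≤ 1` as `n ≤ k`, `β ≤ k²`,
`Y ≥ k^60`.  `J` (ITG) is an integer.
NOT ZERO: by WNR it suffices that `(4096 α⁶)^(n+1) z^(3n+2) ≤ w`, i.e.
`(4096 α⁶)^(n+1) D Y'² ≤ (D Y²)^(3n+2)`; `4096 ≤ k²`, `α ≤ k⁵`: left side at most
`k^(32(n+1)) D Y'²`, and `k^(100n) Y'² ≤ Y^(6n+4)` by hypothesis, `32(n+1) ≤ 100n`.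
SMALL: `|J| ≤ D 2^n n! (αβK)^(2n+1) 128^(n+1) (X^n Y Y' (αz)^(3n+2) + X^n Y Y' α w)` with `D ≤ k³`,
`2^n ≤ k^n`, `n! ≤ n^n ≤ k^n`, `αβK ≤ k^12`, `128^(n+1) ≤ k^(2n+2)`:
first part: `X^n Y Y' (αz)^(3n+2) = α^(3n+2) Y Y' / X^(2n+2) ≤ k^(15n+10) Y' / Y^(4n+3)`, so it
contributes at most `k^(43n+27) Y' / Y^(4n+3) ≤ k^27 Y^(3n+2) / Y^(4n+3) < 1/2`;
second part: `X^n Y Y' α w = D^n α Y^(2n+1) / (D Y') ≤ k^(3n+5) Y^(2n+1) / Y'`, so it contributes at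
most `k^(31n+22) Y^(2n+1) / Y' ≤ k^(22-19n) < 1/2` as `n ≥ 2`.  So `0 < |J| < 1`, a
contradiction. -/
def Stmt_WNI : Prop := Stmt_BNB → Stmt_EEB → Stmt_EEP → Stmt_VAN → Stmt_NOD → Stmt_BNI →
  Stmt_BSR → Stmt_REM → Stmt_A1U → Stmt_A2B → Stmt_WNR → Stmt_BNZ → Stmt_EEZ → Stmt_ITG →
  Stmt_FRM → ∀ (n k : ℕ) (Y V U Y' V' U' : ℤ), 100 ≤ k → 2 ≤ n → n ≤ k →
  Sol k Y V U → Sol k Y' V' U' → Y ≤ Y' → (k : ℤ) ^ 60 ≤ Y →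
  (k : ℤ) ^ (50 * n) * Y ^ (2 * n + 1) ≤ Y' → (k : ℤ) ^ (50 * n) * Y' ≤ Y ^ (3 * n + 2) → False

/-! ### C. The first form (`n = 1`) -/

/-- W1R.  `A₀ = (α+β)³(4(α-β)+3αβz)`, `A₁ = β³(4(β+2α)-α(β+5α)z)`,
`A₂ = -α³(4(2β+α)+β(5β+α)z)`.  `α z ≤ α^(-3) ≤ 10^(-6)` as `α ≥ 200`, `α⁴ z ≤ 1`.
`F = A₀ + A₁ s + A₂ g`: by TAY (third line) with `x = -αz` and `x = βz`, `s = q(-αz) + ρ₁`,
`|ρ₁| ≤ (αz)⁶`, `g = q(βz) + ρ₂`, `|ρ₂| ≤ (βz)⁶`, and the polynomial part is exactly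
`A₀ + A₁ q(-αz) + A₂ q(βz) = -(3/128) (αβ(α+β))³ z⁵ + c z⁶`,
`c = (7/256) α³β³ (α³(β+5α) - β³(5β+α))`, `|c| ≤ α⁷β³`.  `0 ≤ A₁ ≤ 12αβ³`, `|A₂| ≤ 8α⁴`.  So
`|F + (3/128)(αβ(α+β))³ z⁵| ≤ 21 α⁷β³ z⁶ ≤ (1/1000) α⁶β³ z⁵`, so `F < 0` and `|F| ≤ α⁹ z⁵`.
`S = F + A₁ s (s'-1) + A₂ g (g'-1)` with `A₁ ≥ 0`, `s ≥ 0`, `s' ≤ 1`, `A₂ ≤ 0`, `g ≥ 0`, `g' ≥ 1`:
`S < 0`.  `0 ≤ 1 - s' ≤ αw`, `0 ≤ g' - 1 ≤ βw/2`, `g ≤ 2`: `-S ≤ α⁹ z⁵ + 12α²β³w + 8α⁴βw ≤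
α^10 (z⁵ + w)` (`β ≤ α/200`). -/
def Stmt_W1R : Prop := Stmt_TAY → ∀ (α β z w s g s' g' : ℝ), Fr α β z w s g s' g' →
  ∀ S : ℝ, S = (α + β) ^ 3 * (4 * (α - β) + 3 * α * β * z) +
      β ^ 3 * (4 * (β + 2 * α) - α * (β + 5 * α) * z) * (s * s') -
      α ^ 3 * (4 * (2 * β + α) + β * (5 * β + α) * z) * (g * g') →
    S < 0 ∧ -S ≤ α ^ 10 * (z ^ 5 + w)

/-- W1.  `X = D Y²`; `J = X Y Y' S` (`S` of W1R, `z = 1/X`) is the integer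
`(α+β)³(4(α-β)X+3αβ) Y Y' + 2β³(4(β+2α)X-α(β+5α)) V V' - nα²(4(2β+α)X+β(5β+α)) U U'` (FRM; `α = nD`).
`J < 0`, so `J ≤ -1`, but `-J ≤ α^10 (Y Y'/X⁴ + Y Y' X/X') ≤ k^50 (Y'/Y⁷ + Y³/Y') ≤ 2/k < 1`. -/
def Stmt_W1 : Prop := Stmt_TAY → Stmt_FRM → Stmt_W1R → ∀ (k : ℕ) (Y V U Y' V' U' : ℤ), 10 ≤ k →
  Sol k Y V U → Sol k Y' V' U' → Y ≤ Y' → (k : ℤ) ^ 60 ≤ Y →
  (k : ℤ) ^ 51 * Y ^ 3 ≤ Y' → (k : ℤ) ^ 51 * Y' ≤ Y ^ 7 → False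

/-! ### D. The third form -/

/-- J3R.  `A₀ = (α+β)(4+(β-α)z)`, `A₁ = -β(4+(β-2α)z)`, `A₂ = -α(4+(2β-α)z)`.
`L = A₀ + A₁ s + A₂ g`: by TAY (second line) the polynomial part is exactly
`(αβ/16) (α²β - 2α³ - 2β³ + αβ²) z⁴`, at most `α⁵ z⁴` in absolute value; the errors are at most
`5β (αz)⁴ + 5α (βz)⁴ ≤ 2 α⁵ z⁴`.  `S = L + A₁ s (s'-1) + A₂ g (g'-1)` and by TAY (first line)
`s' - 1 = -αw/2 + ρ`, `|ρ| ≤ α²w²`, `g' - 1 = βw/2 + ρ'`, `|ρ'| ≤ β²w²`: the second part is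
`(w/2) αβ (4(s-g) + z((β-2α)s - (2β-α)g)) + A₁ s ρ + A₂ g ρ'`, with `|s-g| ≤ 2αz`,
`|(β-2α)s - (2β-α)g| ≤ 9α`: at most `(w/2) αβ 17αz + 5βα²w² + 10αβ²w² ≤ 2α³ z w` (`w ≤ z`,
`β ≤ α/200`). -/
def Stmt_J3R : Prop := Stmt_TAY → ∀ (α β z w s g s' g' : ℝ), Fr α β z w s g s' g' →
  |(α + β) * (4 + (β - α) * z) - β * (4 + (β - 2 * α) * z) * (s * s') -
    α * (4 + (2 * β - α) * z) * (g * g')| ≤ α ^ 6 * (z ^ 4 + z * w)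

/-- J3Z.  `jj = X Y Y' S`, `S` of J3R, `z = 1/X`, `X = D Y²` (FRM; `α = nD`), so
`|jj| ≤ α⁶ (Y Y'/X³ + Y Y'/X') ≤ k^30 (Y'/Y⁵ + Y/Y') < 1`. -/
def Stmt_J3Z : Prop := Stmt_TAY → Stmt_FRM → Stmt_J3R → ∀ (k : ℕ) (Y V U Y' V' U' : ℤ), 10 ≤ k →
  Sol k Y V U → Sol k Y' V' U' → Y ≤ Y' → (k : ℤ) ^ 60 ≤ Y →
  (k : ℤ) ^ 60 * Y ≤ Y' → (k : ℤ) ^ 60 * Y' ≤ Y ^ 5 → jj k Y V U Y' V' U' = 0

/-- ALG (pure algebra; `X = D Y²`, `X' = D Y'²`, `P = 4X-2α+β`, `Q = 4X-α+2β`, `R = 4X-α+β`,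
`T = X'+5X-2(α-β)`, `m₀ = mm`).  Let `a = Y Y'`, `b = 2 V V'`, `c = U U'/D` (rational numbers).
`jj = 0` and the definition of `m₀` read
(1) `K a - β b - α c = m₀`, (2) `(α²-β²) a - β(2α-β) b - α(α-2β) c = 4 X m₀`
(`jj = 4X m₀ - [(α²-β²) a - ..]`).  Solving: `α K (c - a) = (4X-2α+β) m₀ = P m₀` and
`β K (a - b) = (4X-α+2β) m₀ = Q m₀`.  With `A = D a`, `ν = D m₀/K`: `A² = X X'`,
`(D c)² = (X+β)(X'+β)`, `(D b)² = (X-α)(X'-α)` and `D c = A + Pν/α`, `D b = A - Qν/β` give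
(3) `β(X+X'+β) = 2APν/α + P²ν²/α²`, (4) `α(X+X'-α) = 2AQν/β - Q²ν²/β²`.
(3)·`αQ` - (4)·`βP` is `αβK T = ν² P Q R K/(αβ)`, i.e. `(αβ)² T = ν² P Q R`: the first claim
(`αβ/D = 2nN`, multiply by `(K/D)²`).  For the second: (3) is
`2APν = αβ(X+X'+β) - P²ν²/α`, `X+X'+β = T - P`; square, multiply by `(QR)²` and insert
`ν² P Q R = (αβ)² T`: `4XX'P²ν²(QR)² = (αβ)² (QR(T-P) - βPT)²`, and `P²ν²(QR)² = (αβ)² T P Q R`;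
cancel `(αβ)²`. -/
def Stmt_ALG : Prop := ∀ (k : ℕ) (Y V U Y' V' U' X X' T P Q R : ℤ), 10 ≤ k → Sol k Y V U →
  Sol k Y' V' U' → jj k Y V U Y' V' U' = 0 → X = DD k * Y ^ 2 → X' = DD k * Y' ^ 2 →
  T = X' + 5 * X - 2 * (al k - be k) → P = 4 * X - 2 * al k + be k →
  Q = 4 * X - al k + 2 * be k → R = 4 * X - al k + be k →
  (2 * nn k * NN k * (al k + be k)) ^ 2 * T = mm k Y V U Y' V' U' ^ 2 * (P * Q * R) ∧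
    4 * X * X' * (P * Q * R) * T = (Q * R * (T - P) - be k * P * T) ^ 2

/-- ANA (real analysis).  `Π = P Q R`, `q = α²+αβ+β²`.  The hypothesis is, with
`X' = T - 5X + 2(α-β)`, `e = QR - βP = 16X² - 8(α-β)X + (α²-αβ+β²)` (so
`QR(T-P) - βPT = T e - Π`): `4X X' Π T = (T e - Π)²`, i.e. `T² c = Π (T h - Π)` with
`c = e² - 4XΠ = 16 q X² - 4(α-β)(2α²+αβ+2β²) X + (α²-αβ+β²)²`,
`h = 12X² - 8(α-β)X + 2(α²-αβ+β²)` (exact identities).  Scale by `X`: `a = α/X ≤ 1/1000`,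
`b = β/X ≤ a`, `t = T/X`; `1/t ≤ 1/X ≤ a`.  In scaled form `t² c = Π (t h - Π)`, `|Π - 64| ≤ 100a`,
`|h - 12| ≤ 9a`, `|c - 16q| ≤ 21a³`, `c ≥ 15a²`.  `t c = Π h - Π²/t`, so `|t c - 768| ≤ 6100 a`,
`t ≤ 54/a²`, `|16 q t - t c| ≤ 1134 a`, `|4 q t - 192| ≤ 1825 a`, `|3Π - 192| ≤ 300 a`:
`|4 q t - 3Π| ≤ 2200 a`; multiply by `X³`. -/
def Stmt_ANA : Prop := ∀ (α β X T P Q R : ℝ), 1 ≤ β → β ≤ α → 1000 * α ≤ X → X ^ 2 ≤ T →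
  P = 4 * X - 2 * α + β → Q = 4 * X - α + 2 * β → R = 4 * X - α + β →
  4 * X * (T - 5 * X + 2 * (α - β)) * (P * Q * R) * T = (Q * R * (T - P) - β * P * T) ^ 2 →
  |4 * (α ^ 2 + α * β + β ^ 2) * T - 3 * (P * Q * R)| ≤ 10000 * α * X ^ 2

/-- EQ3.  `G = m₀² (α²+αβ+β²) - 3 (n N K)²` is an integer and by ALG, ANA
`|G| P Q R = (n N K)² |4 q T - 3 P Q R| ≤ (n N K)² 10⁴ α X²`, while `P Q R ≥ X³` (`P, Q, R ≥ X`), so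
`|G| ≤ (n N K)² 10⁴ α / X < 1`, as `(nNK)² 10⁴ α ≤ k^29 < k^120 ≤ X` (`siz`).
(`X² ≤ T`: `X² = D² Y⁴ ≤ D Y'² = X'`, since `Y³ ≤ k^8 Y'` by GAP and `siz`.) -/
def Stmt_EQ3 : Prop := Stmt_GAP → Stmt_ALG → Stmt_ANA → ∀ (k : ℕ) (Y V U Y' V' U' : ℤ), 10 ≤ k →
  Sol k Y V U → Sol k Y' V' U' → Y < Y' → (k : ℤ) ^ 60 ≤ Y → jj k Y V U Y' V' U' = 0 →
  mm k Y V U Y' V' U' ^ 2 * (al k ^ 2 + al k * be k + be k ^ 2) =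
    3 * (nn k * NN k * (al k + be k)) ^ 2

/-- MD3.  `α²+αβ+β² = (α-β)² + 3αβ` and `α ≢ β` modulo `3` for all `k` (`k ≡ 0`: `α ≡ 1`, `β ≡ 2`;
`k ≡ 1`: `α ≡ 1`, `β ≡ 0`; `k ≡ 2`: `α ≡ 2`, `β ≡ 1`), so `α²+αβ+β²` is prime to `3` and the
exponent of `3` is even on the left and odd on the right; the right side is not zero. -/
def Stmt_MD3 : Prop := ∀ (k : ℕ) (m : ℤ), 1 ≤ k →
  m ^ 2 * (al k ^ 2 + al k * be k + be k ^ 2) ≠ 3 * (nn k * NN k * (al k + be k)) ^ 2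

/-- W3.  By GAP and `siz`, `Y³ ≤ N Y³ m₀ ≤ n K Y' ≤ k^8 Y'`, so `k^60 Y ≤ Y'` (`Y² ≥ k^120`);
J3Z gives `jj = 0`, EQ3 and MD3 the contradiction. -/
def Stmt_W3 : Prop := Stmt_TAY → Stmt_FRM → Stmt_J3R → Stmt_J3Z → Stmt_GAP → Stmt_ALG → Stmt_ANA →
  Stmt_EQ3 → Stmt_MD3 → ∀ (k : ℕ) (Y V U Y' V' U' : ℤ), 10 ≤ k → Sol k Y V U → Sol k Y' V' U' →
  Y < Y' → (k : ℤ) ^ 60 ≤ Y → (k : ℤ) ^ 60 * Y' ≤ Y ^ 5 → False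

/-! ### E. The end -/

/-- The three windows as hypotheses. -/
def Win3 : Prop := ∀ (k : ℕ) (Y V U Y' V' U' : ℤ), 10 ≤ k → Sol k Y V U → Sol k Y' V' U' →
  Y < Y' → (k : ℤ) ^ 60 ≤ Y → (k : ℤ) ^ 60 * Y' ≤ Y ^ 5 → False

/-- The first window. -/
def Win1 : Prop := ∀ (k : ℕ) (Y V U Y' V' U' : ℤ), 10 ≤ k →
  Sol k Y V U → Sol k Y' V' U' → Y ≤ Y' → (k : ℤ) ^ 60 ≤ Y →
  (k : ℤ) ^ 51 * Y ^ 3 ≤ Y' → (k : ℤ) ^ 51 * Y' ≤ Y ^ 7 → False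

/-- The windows `n ≥ 2`. -/
def WinN : Prop := ∀ (n k : ℕ) (Y V U Y' V' U' : ℤ), 100 ≤ k → 2 ≤ n → n ≤ k →
  Sol k Y V U → Sol k Y' V' U' → Y ≤ Y' → (k : ℤ) ^ 60 ≤ Y →
  (k : ℤ) ^ (50 * n) * Y ^ (2 * n + 1) ≤ Y' → (k : ℤ) ^ (50 * n) * Y' ≤ Y ^ (3 * n + 2) → False

/-- COV.  If `k^60 Y' ≤ Y^5`: Win3.  Else if `k^51 Y' ≤ Y^7`: Win1, as
`Y' > Y^5/k^60 ≥ k^51 Y^3`.  Else `Y' > Y^7/k^51 ≥ k^100 Y^5`.  Let `n ≥ 2` be maximal with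
`k^(50n) Y^(2n+1) ≤ Y'` (it exists: for `n > k` this contradicts `Y' < Y^(2k+3)`; `Nat.find` of
the first `n ≥ 2` such that `n + 1` violates the inequality); so `n ≤ k` and
`Y' < k^(50(n+1)) Y^(2n+3)`, hence `k^(50n) Y' ≤ k^(100n+50) Y^(2n+3) ≤ Y^(3n+2)`, as
`k^(100n+50) ≤ k^(5000(n-1)) ≤ Y^(n-1)`.  WinN. -/
def Stmt_COV : Prop := Win3 → Win1 → WinN → ∀ (k : ℕ) (Y V U Y' V' U' : ℤ), 100 ≤ k →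
  Sol k Y V U → Sol k Y' V' U' → Y < Y' → (k : ℤ) ^ 5000 ≤ Y → Y' < Y ^ (2 * k + 3) → False

/-- EXT.  `2k² d - k² = k² (2d-1)` is a square, so `2d - 1 = Y²` (`k ≥ 1`), `d - k² = V²`, and
`(2k²+2k+1) d - k² = W²`, `U = 2W`: `U² = (4k²+4k+2)(Y²+1) - 4k² = D Y² + 2N`, `Y² - 2V² = n`.
`V ≠ 0` as `d > k²`; take the positive square roots. -/
def Stmt_EXT : Prop := ∀ (k : ℕ) (d : ℤ), 1 ≤ k → (k : ℤ) ^ 2 < d → IsSquare (1 * d - (k : ℤ) ^ 2) →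
  IsSquare (2 * (k : ℤ) ^ 2 * d - (k : ℤ) ^ 2) →
  IsSquare ((2 * (k : ℤ) ^ 2 + 2 * k + 1) * d - (k : ℤ) ^ 2) →
  ∃ Y V U : ℤ, Sol k Y V U ∧ Y ^ 2 = 2 * d - 1

/-- SZF (the sizes).  `k^10001 < d < exp((log k)^3)` and `Y² = 2d - 1`, `k ≥ 2`, give
`k^5000 ≤ Y` (`k^10000 ≤ k^10001 < d ≤ Y²`) and for two of them `Y' < Y^(2k+3)`:
`Y' ≤ Y'² ≤ 2 exp((log k)³)` and `Y^(2k+3) ≥ k^(5000(2k+3)) = exp(5000(2k+3) log k)`, with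
`(log k)² ≤ k` hence `(log k)³ + log 2 ≤ k log k + log k < 5000 (2k+3) log k`. -/
def Stmt_SZF : Prop := ∀ (k : ℕ) (d d' Y Y' : ℤ), 2 ≤ k → 0 < Y → 0 < Y' → Y ^ 2 = 2 * d - 1 →
  Y' ^ 2 = 2 * d' - 1 → (k : ℤ) ^ 10001 < d → (d' : ℝ) < Real.exp (Real.log k ^ 3) →
  (k : ℤ) ^ 5000 ≤ Y ∧ Y' < Y ^ (2 * k + 3)

end Pool.Agent.AMO
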